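import Pool.Agent.P598.Field
open scoped ContDiff Topology
open Set Filter
namespace Pool.Agent.P598
noncomputable section

/-- denominator -/
def wd (k s : ℝ) : ℝ := (1 + Real.cos s) + k ^ 2 * (1 - Real.cos s)

/-- real part of the Möbius map of the circle -/
def wre (k s : ℝ) : ℝ := ((1 + Real.cos s) - k ^ 2 * (1 - Real.cos s)) / wd k s

/-- imaginary part of the Möbius map of the circle -/
def wim (k s : ℝ) : ℝ := 2 * k * Real.sin s / wd k s

theorem wd_pos {k : ℝ} (hk : 0 < k) (s : ℝ) : 0 < wd k s := by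
  unfold wd
  have h1 := Real.neg_one_le_cos s
  have h2 := Real.cos_le_one s
  rcases eq_or_lt_of_le h1 with h | h
  · rw [← h]; have : 0 < k ^ 2 := by positivity
    linarith
  · have : 0 ≤ k ^ 2 * (1 - Real.cos s) := mul_nonneg (sq_nonneg k) (by linarith)
    linarith

theorem wre_wim {k : ℝ} (hk : 0 < k) (s : ℝ) : wre k s ^ 2 + wim k s ^ 2 = 1 := by
  have h := (wd_pos hk s).ne'
  unfold wre wim
  rw [div_pow, div_pow, ← add_div, div_eq_one_iff_eq (by positivity)]
  unfold wd
  have := Real.sin_sq_add_cos_sq s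
  linear_combination (4 * k ^ 2) * this

theorem contDiff_wd (k : ℝ) (n : WithTop ℕ∞) : ContDiff ℝ n (wd k) :=
  (contDiff_const.add Real.contDiff_cos).add
    (contDiff_const.mul (contDiff_const.sub Real.contDiff_cos))

theorem contDiff_wre {k : ℝ} (hk : 0 < k) (n : WithTop ℕ∞) : ContDiff ℝ n (wre k) :=
  ((contDiff_const.add Real.contDiff_cos).sub
    (contDiff_const.mul (contDiff_const.sub Real.contDiff_cos))).div (contDiff_wd k n)
    fun s => (wd_pos hk s).ne'

theorem contDiff_wim {k : ℝ} (hk : 0 < k) (n : WithTop ℕ∞) : ContDiff ℝ n (wim k) :=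
  (contDiff_const.mul Real.contDiff_sin).div (contDiff_wd k n) fun s => (wd_pos hk s).ne'

theorem hasDerivAt_wd (k s : ℝ) : HasDerivAt (wd k) (-Real.sin s + k ^ 2 * Real.sin s) s := by
  unfold wd
  have h1 := (Real.hasDerivAt_cos s).const_add 1
  have h2 := ((Real.hasDerivAt_cos s).const_sub 1).const_mul (k ^ 2)
  exact (h1.fun_add h2).congr_deriv (by ring)

theorem hasDerivAt_wre {k : ℝ} (hk : 0 < k) (s : ℝ) :
    HasDerivAt (wre k) (-(2 * k / wd k s) * wim k s) s := by
  have h := (wd_pos hk s).ne'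
  have h1 := (Real.hasDerivAt_cos s).const_add 1
  have h2 := ((Real.hasDerivAt_cos s).const_sub 1).const_mul (k ^ 2)
  have h3 := (h1.fun_sub h2).fun_div (hasDerivAt_wd k s) h
  refine h3.congr_deriv ?_
  unfold wim
  field_simp
  unfold wd
  ring

theorem hasDerivAt_wim {k : ℝ} (hk : 0 < k) (s : ℝ) :
    HasDerivAt (wim k) ((2 * k / wd k s) * wre k s) s := by
  have h := (wd_pos hk s).ne'
  have h1 := (Real.hasDerivAt_sin s).const_mul (2 * k)
  have h3 := h1.fun_div (hasDerivAt_wd k s) h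
  refine h3.congr_deriv ?_
  unfold wre
  field_simp
  unfold wd
  have := Real.sin_sq_add_cos_sq s
  linear_combination (1 - k ^ 2) * this

theorem exists_angle {C S : ℝ} (h : C ^ 2 + S ^ 2 = 1) : ∃ s, Real.cos s = C ∧ Real.sin s = S := by
  set z : ℂ := ⟨C, S⟩ with hz
  have hn : ‖z‖ = 1 := by
    rw [Complex.norm_def, Complex.normSq_apply, Real.sqrt_eq_one]
    simp only [hz]; linarith
  have hz0 : z ≠ 0 := by rw [← norm_pos_iff, hn]; norm_num
  refine ⟨Complex.arg z, ?_, ?_⟩
  · rw [Complex.cos_arg hz0, hn, div_one]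
  · rw [Complex.sin_arg, hn, div_one]

theorem angle_inj {s t : ℝ} (h1 : Real.cos s = Real.cos t) (h2 : Real.sin s = Real.sin t) :
    ∃ n : ℤ, s - t = n * (2 * Real.pi) := by
  have h := Real.Angle.cos_sin_inj (θ := s) (ψ := t) h1 h2
  obtain ⟨n, hn⟩ := Real.Angle.angle_eq_iff_two_pi_dvd_sub.mp h
  exact ⟨n, by rw [hn]; ring⟩

theorem w_inj {k : ℝ} (hk : 0 < k) {s t : ℝ} (h1 : wre k s = wre k t) (h2 : wim k s = wim k t) :
    ∃ n : ℤ, s - t = n * (2 * Real.pi) := by
  have hs := (wd_pos hk s).ne'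
  have ht := (wd_pos hk t).ne'
  have hc : Real.cos s = Real.cos t := by
    unfold wre at h1
    rw [div_eq_div_iff hs ht] at h1
    unfold wd at h1
    have hk2 : (4 * k ^ 2) ≠ 0 := by positivity
    have : (4 * k ^ 2) * (Real.cos s - Real.cos t) = 0 := by linear_combination h1
    rcases mul_eq_zero.mp this with h | h
    · exact absurd h hk2
    · linarith
  refine angle_inj hc ?_
  have hwd : wd k s = wd k t := by unfold wd; rw [hc]
  unfold wim at h2
  rw [hwd, div_left_inj' ht] at h2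
  exact mul_left_cancel₀ (by positivity) h2

theorem w_surj {k : ℝ} (hk : 0 < k) {x y : ℝ} (h : x ^ 2 + y ^ 2 = 1) :
    ∃ s, wre k s = x ∧ wim k s = y := by
  have hx1 : x ≤ 1 := by nlinarith [sq_nonneg y]
  have hx2 : -1 ≤ x := by nlinarith [sq_nonneg y]
  have hk2 : 0 < k ^ 2 := by positivity
  set E := k ^ 2 * (1 + x) + (1 - x) with hE
  have hE0 : 0 < E := by
    rcases eq_or_lt_of_le hx1 with h' | h'
    · rw [hE, h']; linarith
    · have : 0 ≤ k ^ 2 * (1 + x) := mul_nonneg hk2.le (by linarith)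
      linarith
  obtain ⟨s, hs1, hs2⟩ := exists_angle (C := (k ^ 2 * (1 + x) - (1 - x)) / E)
    (S := 2 * k * y / E) (by
      rw [div_pow, div_pow, ← add_div, div_eq_one_iff_eq (by positivity), hE]
      linear_combination (4 * k ^ 2) * h)
  have h1 : 1 + Real.cos s = 2 * k ^ 2 * (1 + x) / E := by rw [hs1]; field_simp; rw [hE]; ring
  have h2 : 1 - Real.cos s = 2 * (1 - x) / E := by rw [hs1]; field_simp; rw [hE]; ring
  have h3 : wd k s = 4 * k ^ 2 / E := by unfold wd; rw [h1, h2]; ring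
  refine ⟨s, ?_, ?_⟩
  · unfold wre
    rw [h3, h1, h2]; field_simp; ring
  · unfold wim
    rw [h3, hs2]; field_simp; ring

theorem wre_periodic (k s : ℝ) : wre k (s + 2 * Real.pi) = wre k s := by
  unfold wre wd; rw [Real.cos_add_two_pi]

theorem wim_periodic (k s : ℝ) : wim k (s + 2 * Real.pi) = wim k s := by
  unfold wim wd; rw [Real.cos_add_two_pi, Real.sin_add_two_pi]

theorem one_sub_wre_lt {k : ℝ} (hk : 0 < k) {s : ℝ} (hs : -(1 / 2) < Real.cos s) :
    1 - wre k s < 6 * k ^ 2 := by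
  have h := wd_pos hk s
  have h2 : wd k s - (wd k s) * wre k s = 2 * k ^ 2 * (1 - Real.cos s) := by
    unfold wre; field_simp; unfold wd; ring
  have h3 : 1 / 2 < wd k s := by
    unfold wd
    have : 0 ≤ k ^ 2 * (1 - Real.cos s) :=
      mul_nonneg (sq_nonneg k) (by linarith [Real.cos_le_one s])
    linarith
  have hk2 : 0 < k ^ 2 := by positivity
  have h4 : wd k s * (1 - wre k s) < wd k s * (6 * k ^ 2) := by nlinarith
  exact lt_of_mul_lt_mul_left h4 h.le

/-- the distance to the first circle along the knot -/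
def rr (s : ℝ) : ℝ := Real.pi / 2 * tau (Real.cos s + 1 / 2)

theorem contDiff_rr : ContDiff ℝ ∞ rr :=
  contDiff_const.mul (tau_contDiff.comp (Real.contDiff_cos.add contDiff_const))

theorem rr_mem (s : ℝ) : 0 ≤ rr s ∧ rr s ≤ Real.pi / 2 := by
  have h1 := tau_nonneg (Real.cos s + 1 / 2)
  have h2 := tau_le_one (Real.cos s + 1 / 2)
  have h3 := Real.pi_pos
  unfold rr
  constructor
  · positivity
  · nlinarith

theorem cos_rr_nonneg (s : ℝ) : 0 ≤ Real.cos (rr s) :=
  Real.cos_nonneg_of_mem_Icc ⟨by linarith [(rr_mem s).1, Real.pi_pos], (rr_mem s).2⟩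

theorem rr_zero {s : ℝ} (h : Real.cos s ≤ -(1 / 2)) : rr s = 0 := by
  unfold rr; rw [tau_zero (by linarith), mul_zero]

theorem rr_half {s : ℝ} (h : 1 / 2 ≤ Real.cos s) : rr s = Real.pi / 2 := by
  unfold rr; rw [tau_one (by linarith), mul_one]

/-- the knot -/
def gam0 (k s : ℝ) : E4 := WithLp.toLp 2 ![Real.sin (rr s) * wre k (s + Real.pi),
  Real.sin (rr s) * wim k (s + Real.pi), Real.cos (rr s) * wre k s, Real.cos (rr s) * wim k s]

@[simp] theorem gam0_0 (k s : ℝ) : gam0 k s 0 = Real.sin (rr s) * wre k (s + Real.pi) := rfl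
@[simp] theorem gam0_1 (k s : ℝ) : gam0 k s 1 = Real.sin (rr s) * wim k (s + Real.pi) := rfl
@[simp] theorem gam0_2 (k s : ℝ) : gam0 k s 2 = Real.cos (rr s) * wre k s := rfl
@[simp] theorem gam0_3 (k s : ℝ) : gam0 k s 3 = Real.cos (rr s) * wim k s := rfl

theorem contDiff_gam0 {k : ℝ} (hk : 0 < k) : ContDiff ℝ ∞ (gam0 k) := by
  rw [contDiff_euclidean]
  have h1 : ContDiff ℝ ∞ fun s => Real.sin (rr s) := Real.contDiff_sin.comp contDiff_rr
  have h2 : ContDiff ℝ ∞ fun s => Real.cos (rr s) := Real.contDiff_cos.comp contDiff_rr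
  have h3 : ContDiff ℝ ∞ fun s : ℝ => s + Real.pi := contDiff_id.add contDiff_const
  intro i
  fin_cases i
  · exact h1.mul ((contDiff_wre hk _).comp h3)
  · exact h1.mul ((contDiff_wim hk _).comp h3)
  · exact h2.mul (contDiff_wre hk _)
  · exact h2.mul (contDiff_wim hk _)

theorem aa_gam0 {k : ℝ} (hk : 0 < k) (s : ℝ) : aa (gam0 k s) = Real.sin (rr s) ^ 2 := by
  simp only [aa, gam0_0, gam0_1]
  linear_combination (Real.sin (rr s) ^ 2) * wre_wim hk (s + Real.pi)

theorem bb_gam0 {k : ℝ} (hk : 0 < k) (s : ℝ) : bb (gam0 k s) = Real.cos (rr s) ^ 2 := by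
  simp only [bb, gam0_2, gam0_3]
  linear_combination (Real.cos (rr s) ^ 2) * wre_wim hk s

theorem gam0_mem {k : ℝ} (hk : 0 < k) (s : ℝ) : gam0 k s ∈ S3 := by
  rw [mem_S3, aa_gam0 hk, bb_gam0 hk]; exact Real.sin_sq_add_cos_sq _

theorem gam0_deriv {k : ℝ} (hk : 0 < k) (s : ℝ) : deriv (gam0 k) s ≠ 0 := by
  intro h
  have hd : HasDerivAt (gam0 k) 0 s := by
    rw [← h]; exact ((contDiff_gam0 hk).differentiable (by simp) s).hasDerivAt
  have hcoord : ∀ i : Fin 4, HasDerivAt (fun s => gam0 k s i) 0 s := by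
    intro i
    have h1 := (EuclideanSpace.proj i : E4 →L[ℝ] ℝ).hasFDerivAt.comp_hasDerivAt s hd
    simpa using! h1
  have hr : HasDerivAt rr (deriv rr s) s :=
    (contDiff_rr.differentiable (by simp) s).hasDerivAt
  by_cases hc : Real.cos (rr s) = 0
  · have hs : Real.sin (rr s) ≠ 0 := by
      intro hs
      have := Real.sin_sq_add_cos_sq (rr s)
      rw [hc, hs] at this; norm_num at this
    have e0 := (hr.sin.fun_mul ((hasDerivAt_wre hk (s + Real.pi)).comp_add_const s Real.pi)).unique (hcoord 0)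
    have e1 := (hr.sin.fun_mul ((hasDerivAt_wim hk (s + Real.pi)).comp_add_const s Real.pi)).unique (hcoord 1)
    have hw := wre_wim hk (s + Real.pi)
    have hk' : 0 < 2 * k / wd k (s + Real.pi) := div_pos (by positivity) (wd_pos hk _)
    set q := 2 * k / wd k (s + Real.pi)
    have : Real.sin (rr s) * q = 0 := by
      linear_combination (-wim k (s + Real.pi)) * e0 + (wre k (s + Real.pi)) * e1 -
        (Real.sin (rr s) * q) * hw
    rcases mul_eq_zero.mp this with h | h
    · exact hs h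
    · exact hk'.ne' h
  · have e0 := (hr.cos.fun_mul (hasDerivAt_wre hk s)).unique (hcoord 2)
    have e1 := (hr.cos.fun_mul (hasDerivAt_wim hk s)).unique (hcoord 3)
    have hw := wre_wim hk s
    have hk' : 0 < 2 * k / wd k s := div_pos (by positivity) (wd_pos hk _)
    set q := 2 * k / wd k s
    have : Real.cos (rr s) * q = 0 := by
      linear_combination (-wim k s) * e0 + (wre k s) * e1 - (Real.cos (rr s) * q) * hw
    rcases mul_eq_zero.mp this with h | h
    · exact hc h
    · exact hk'.ne' h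

theorem gam0_inj {k : ℝ} (hk : 0 < k) {s t : ℝ} (h : gam0 k s = gam0 k t) :
    ∃ n : ℤ, s - t = n * (2 * Real.pi) := by
  have hb : Real.cos (rr s) ^ 2 = Real.cos (rr t) ^ 2 := by
    rw [← bb_gam0 hk, ← bb_gam0 hk, h]
  have hc : Real.cos (rr s) = Real.cos (rr t) := by
    rwa [sq_eq_sq₀ (cos_rr_nonneg s) (cos_rr_nonneg t)] at hb
  have hi : ∀ i, gam0 k s i = gam0 k t i := fun i => by rw [h]
  have h0 := hi 0
  have h1 := hi 1
  have h2 := hi 2
  have h3 := hi 3
  simp only [gam0_0, gam0_1, gam0_2, gam0_3] at h0 h1 h2 h3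
  by_cases hz : Real.cos (rr s) = 0
  · have sin_eq : ∀ u, Real.cos (rr u) = 0 → Real.sin (rr u) = 1 := by
      intro u hu
      have h1 := Real.sin_sq_add_cos_sq (rr u)
      have h2 : 0 ≤ Real.sin (rr u) :=
        Real.sin_nonneg_of_nonneg_of_le_pi (rr_mem u).1
          ((rr_mem u).2.trans (by linarith [Real.pi_pos]))
      rw [hu] at h1
      nlinarith
    rw [sin_eq s hz, sin_eq t (hc ▸ hz), one_mul, one_mul] at h0 h1
    obtain ⟨n, hn⟩ := w_inj hk h0 h1
    exact ⟨n, by rw [← hn]; ring⟩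
  · rw [hc] at h2 h3 hz
    exact w_inj hk (mul_left_cancel₀ hz h2) (mul_left_cancel₀ hz h3)

theorem gam0_periodic (k s : ℝ) : gam0 k (s + 2 * Real.pi) = gam0 k s := by
  have hr : rr (s + 2 * Real.pi) = rr s := by unfold rr; rw [Real.cos_add_two_pi]
  have hs : s + 2 * Real.pi + Real.pi = (s + Real.pi) + 2 * Real.pi := by ring
  unfold gam0
  rw [hr, hs, wre_periodic, wim_periodic, wre_periodic, wim_periodic]

theorem isKnot_gam0 {k : ℝ} (hk : 0 < k) : IsKnot (range (gam0 k)) :=
  ⟨gam0 k, contDiff_gam0 hk, gam0_mem hk, gam0_periodic k, gam0_deriv hk,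
    fun _ _ h => gam0_inj hk h, rfl⟩

/-- the base point of the tail -/
def qq : E4 := WithLp.toLp 2 ![0, 0, -1, 0]

variable (d : ProfData)

theorem exists_knot : ∃ K : Set E4, IsKnot K ∧ sing d ⊆ K ∧ qq ∈ K ∧
    ∀ p ∈ K, Qs (-1) p < 1 → aa p = 0 := by
  -- the parameter
  set k := Real.sqrt (d.e / 12) with hkdef
  have hk : 0 < k := Real.sqrt_pos.mpr (by have := d.e_pos; positivity)
  have hk2 : k ^ 2 = d.e / 12 := Real.sq_sqrt (by have := d.e_pos; positivity)
  have he := d.e_le
  have key : ∀ s, wre k s ≤ 1 - d.e / 2 → Real.cos s ≤ -(1 / 2) := by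
    intro s hs
    by_contra hc
    push Not at hc
    have := one_sub_wre_lt hk hc
    rw [hk2] at this
    linarith
  refine ⟨range (gam0 k), isKnot_gam0 hk, ?_, ?_, ?_⟩
  · rintro p ⟨hp, h | h⟩
    · obtain ⟨ha, hq⟩ := h
      have hb : bb p = 1 := by have := (mem_S3 p).mp hp; linarith
      have h2 : p 2 ≤ 1 - d.e / 2 := by
        unfold Qs at hq
        rw [ha, hb, Real.sqrt_one, div_one] at hq
        linarith
      obtain ⟨s, hs1, hs2⟩ := w_surj hk (x := p 2) (y := p 3) hb
      have hr := rr_zero (key s (hs1 ▸ h2))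
      have h00 : p 0 = 0 := by unfold aa at ha; nlinarith [sq_nonneg (p 0), sq_nonneg (p 1)]
      have h01 : p 1 = 0 := by unfold aa at ha; nlinarith [sq_nonneg (p 0), sq_nonneg (p 1)]
      refine ⟨s, ?_⟩
      ext i
      fin_cases i
      · simp [hr, h00]
      · simp [hr, h01]
      · simp [hr, hs1]
      · simp [hr, hs2]
    · obtain ⟨hb, hq⟩ := h
      have ha : aa p = 1 := by have := (mem_S3 p).mp hp; linarith
      have h2 : p 0 ≤ 1 - d.e / 2 := by
        unfold Qs at hq
        rw [aa_sw, bb_sw, sw2, ha, hb, Real.sqrt_one, div_one] at hq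
        linarith
      obtain ⟨s, hs1, hs2⟩ := w_surj hk (x := p 0) (y := p 1) ha
      have hcs := key s (hs1 ▸ h2)
      have hr : rr (s - Real.pi) = Real.pi / 2 :=
        rr_half (by rw [Real.cos_sub_pi]; linarith)
      have h00 : p 2 = 0 := by unfold bb at hb; nlinarith [sq_nonneg (p 2), sq_nonneg (p 3)]
      have h01 : p 3 = 0 := by unfold bb at hb; nlinarith [sq_nonneg (p 2), sq_nonneg (p 3)]
      refine ⟨s - Real.pi, ?_⟩
      ext i
      fin_cases i
      · simp [hr, hs1]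
      · simp [hr, hs2]
      · simp [hr, h00]
      · simp [hr, h01]
  · refine ⟨Real.pi, ?_⟩
    have hr : rr Real.pi = 0 := rr_zero (by rw [Real.cos_pi]; norm_num)
    have hre : wre k Real.pi = -1 := by
      unfold wre wd; rw [Real.cos_pi]; field_simp; ring
    have him : wim k Real.pi = 0 := by unfold wim; rw [Real.sin_pi]; simp
    ext i
    fin_cases i
    · simp [hr, qq]
    · simp [hr, qq]
    · simp [hr, qq, hre]
    · simp [hr, qq, him]
  · rintro p ⟨s, rfl⟩ hq
    by_contra ha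
    have hcs : -(1 / 2) < Real.cos s := by
      by_contra hc
      push Not at hc
      apply ha
      rw [aa_gam0 hk, rr_zero hc]; simp
    have h1 := one_sub_wre_lt hk hcs
    have h2 := aa_nonneg (gam0 k s)
    have hc0 := cos_rr_nonneg s
    by_cases hc : Real.cos (rr s) = 0
    · have h3 : aa (gam0 k s) = 1 := by
        have := (mem_S3 _).mp (gam0_mem hk s)
        rw [bb_gam0 hk, hc] at this
        linarith
      have h4 := aa_le_Qs (Or.inr rfl) (gam0 k s) (s := -1)
      linarith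
    · have h3 : gam0 k s 2 / Real.sqrt (bb (gam0 k s)) = wre k s := by
        rw [bb_gam0 hk, Real.sqrt_sq hc0, gam0_2]; field_simp
      unfold Qs at hq
      rw [h3] at hq
      rw [hk2] at h1
      linarith

end
end Pool.Agent.P598
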