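import Pool.Agent.P598.Gram
import Pool.Agent.P598.Knot
open scoped ContDiff Topology ENNReal
open Set Filter MeasureTheory
namespace Pool.Agent.P598
noncomputable section

@[simp] theorem qq0 : qq 0 = 0 := rfl
@[simp] theorem qq1 : qq 1 = 0 := rfl
@[simp] theorem qq2 : qq 2 = -1 := rfl
@[simp] theorem qq3 : qq 3 = 0 := rfl

theorem contCoord (i : Fin 4) : Continuous fun p : E4 => p i :=
  (contDiff_coord4 0 i).continuous

variable (d : ProfData)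

theorem local_density {σ : ℝ × ℝ → E4} (hσ : ContDiffAt ℝ ∞ σ 0) (h0 : σ 0 = qq)
    (hS : ∀ᶠ y in 𝓝 (0 : ℝ × ℝ), σ y ∈ S3)
    (hK : ∀ᶠ y in 𝓝 (0 : ℝ × ℝ), y.2 = 0 → aa (σ y) = 0)
    (hinj : Function.Injective (fderiv ℝ σ 0))
    (hne : ∀ᶠ y in 𝓝 (0 : ℝ × ℝ), y.2 ≠ 0 → aa (σ y) ≠ 0) :
    ∃ κ, 0 < κ ∧ ∀ᶠ y in 𝓝 (0 : ℝ × ℝ), 0 < y.2 → κ / ‖y‖ ^ 2 ≤ density0 (gg d) σ y := by
  set L := fderiv ℝ σ 0 with hL
  have hs : HasStrictFDerivAt σ L 0 := hσ.hasStrictFDerivAt (by simp)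
  have hDc : ContinuousAt (fderiv ℝ σ) 0 := hσ.continuousAt_fderiv (by simp)
  have hσc : ContinuousAt σ 0 := hσ.continuousAt
  have hk : ∀ k : Fin 4, HasFDerivAt (fun y => σ y k)
      ((EuclideanSpace.proj k : E4 →L[ℝ] ℝ).comp L) 0 := fun k =>
    (EuclideanSpace.proj k : E4 →L[ℝ] ℝ).hasFDerivAt.comp 0 hs.hasFDerivAt
  -- the first coordinate vanishes along `y.2 = 0`
  have hz : ∀ k : Fin 4, k = 0 ∨ k = 1 → ∀ᶠ y in 𝓝 (0 : ℝ × ℝ), y.2 = 0 → σ y k = 0 := by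
    intro k hk'
    filter_upwards [hK] with y hy hy2
    have h1 := hy hy2
    unfold aa at h1
    rcases hk' with rfl | rfl <;> nlinarith [sq_nonneg (σ y 0), sq_nonneg (σ y 1)]
  have hL1 : ∀ k : Fin 4, k = 0 ∨ k = 1 → L (1, 0) k = 0 := by
    intro k hk'
    have hcurve : HasDerivAt (fun t : ℝ => ((t, 0) : ℝ × ℝ)) ((1, 0) : ℝ × ℝ) 0 :=
      (hasDerivAt_id' (0:ℝ)).prodMk (hasDerivAt_const (0:ℝ) (0:ℝ))
    have h1 : HasDerivAt (fun t : ℝ => σ (t, 0) k) (L (1, 0) k) 0 :=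
      HasFDerivAt.comp_hasDerivAt (0:ℝ) (f := fun t : ℝ => ((t, 0) : ℝ × ℝ))
        (l := fun y => σ y k) (hk k) hcurve
    have h2 : (fun t : ℝ => σ (t, 0) k) =ᶠ[𝓝 0] fun _ => 0 := by
      have hc : ContinuousAt (fun t : ℝ => ((t, 0) : ℝ × ℝ)) 0 := by fun_prop
      filter_upwards [hc.eventually (hz k hk')] with t ht using ht rfl
    exact (h1.congr_of_eventuallyEq h2.symm).unique (hasDerivAt_const (0:ℝ) (0:ℝ))
  -- tangency
  have hL2 : ∀ v, L v 2 = 0 := by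
    intro v
    have h1 := ((((hk 0).pow 2).add ((hk 1).pow 2)).add (((hk 2).pow 2).add ((hk 3).pow 2)))
    have h2 : (fun y => (σ y 0 ^ 2 + σ y 1 ^ 2) + (σ y 2 ^ 2 + σ y 3 ^ 2)) =ᶠ[𝓝 0]
        fun _ => (1:ℝ) := by
      filter_upwards [hS] with y hy
      exact (mem_S3 _).mp hy
    have h3 := (HasFDerivAt.congr_of_eventuallyEq h1 h2.symm).unique (hasFDerivAt_const (1:ℝ) 0)
    have h4 := congrArg (fun M : (ℝ × ℝ) →L[ℝ] ℝ => M v) h3
    simp [h0] at h4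
    exact h4
  set τ0 := L (1, 0) 3 with hτ0
  set e0 := L (0, 1) 0 with he0
  set e1 := L (0, 1) 1 with he1
  set τ1 := L (0, 1) 3 with hτ1
  have hτ : τ0 ≠ 0 := by
    intro h
    have h1 : L (1, 0) = 0 := by
      ext k
      fin_cases k
      · exact hL1 0 (Or.inl rfl)
      · exact hL1 1 (Or.inr rfl)
      · exact hL2 _
      · exact h
    have h2 := hinj (h1.trans (map_zero L).symm)
    simpa using! congrArg Prod.fst h2
  have hE : 0 < e0 ^ 2 + e1 ^ 2 := by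
    by_contra h
    push Not at h
    have h1 : e0 = 0 := by nlinarith [sq_nonneg e0, sq_nonneg e1]
    have h2 : e1 = 0 := by nlinarith [sq_nonneg e0, sq_nonneg e1]
    have h3 : L (τ1, -τ0) = 0 := by
      have h4 : ((τ1, -τ0) : ℝ × ℝ) = τ1 • ((1, 0) : ℝ × ℝ) - τ0 • ((0, 1) : ℝ × ℝ) := by
        ext <;> simp
      rw [h4, map_sub, map_smul, map_smul]
      ext k
      simp only [PiLp.sub_apply, PiLp.smul_apply, smul_eq_mul, PiLp.zero_apply]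
      fin_cases k
      · change τ1 * L (1, 0) 0 - τ0 * e0 = 0
        rw [hL1 0 (Or.inl rfl), h1]; ring
      · change τ1 * L (1, 0) 1 - τ0 * e1 = 0
        rw [hL1 1 (Or.inr rfl), h2]; ring
      · change τ1 * L (1, 0) 2 - τ0 * L (0, 1) 2 = 0
        rw [hL2, hL2]; ring
      · change τ1 * τ0 - τ0 * τ1 = 0
        ring
    have h5 := hinj (h3.trans (map_zero L).symm)
    have h6 := congrArg Prod.snd h5
    simp at h6
    exact hτ h6
  -- the filter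
  set Fl := 𝓝[{y : ℝ × ℝ | 0 < y.2}] (0 : ℝ × ℝ) with hFl
  have hFle : Fl ≤ 𝓝 0 := nhdsWithin_le_nhds
  have hpos : ∀ᶠ y in Fl, 0 < y.2 := eventually_mem_nhdsWithin
  -- the quotients
  have hquot : ∀ k : Fin 4, k = 0 ∨ k = 1 →
      Tendsto (fun y : ℝ × ℝ => σ y k / y.2) Fl (𝓝 (L (0, 1) k)) := by
    intro k hk'
    have hc : Tendsto (fun y : ℝ × ℝ => (y, ((y.1, 0) : ℝ × ℝ))) (𝓝 0)
        (𝓝 ((0 : ℝ × ℝ), (0 : ℝ × ℝ))) := by
      have : Continuous fun y : ℝ × ℝ => (y, ((y.1, 0) : ℝ × ℝ)) := by fun_prop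
      have h1 := this.tendsto 0
      simpa using! h1
    have h1 := hs.isLittleO.comp_tendsto hc
    have h2 : (fun y : ℝ × ℝ => σ y k - σ (y.1, 0) k - y.2 * L (0, 1) k) =o[𝓝 0]
        fun y : ℝ × ℝ => y.2 := by
      have h3 : (fun y : ℝ × ℝ => σ y k - σ (y.1, 0) k - y.2 * L (0, 1) k) =O[𝓝 0]
          ((fun p : (ℝ × ℝ) × (ℝ × ℝ) => σ p.1 - σ p.2 - L (p.1 - p.2)) ∘
            fun y : ℝ × ℝ => (y, ((y.1, 0) : ℝ × ℝ))) := by
        refine Asymptotics.isBigO_of_le _ fun y => ?_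
        have h4 : y - (y.1, 0) = y.2 • ((0, 1) : ℝ × ℝ) := by ext <;> simp
        have h5 : σ y k - σ (y.1, 0) k - y.2 * L (0, 1) k =
            (σ y - σ (y.1, 0) - L (y - (y.1, 0))) k := by
          rw [h4, map_smul]; simp
        rw [h5]
        exact PiLp.norm_apply_le _ k
      have h6 : ((fun p : (ℝ × ℝ) × (ℝ × ℝ) => p.1 - p.2) ∘
            fun y : ℝ × ℝ => (y, ((y.1, 0) : ℝ × ℝ))) =O[𝓝 0] fun y : ℝ × ℝ => y.2 := by
        refine Asymptotics.isBigO_of_le _ fun y => ?_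
        have h4 : y - (y.1, 0) = ((0, y.2) : ℝ × ℝ) := by ext <;> simp
        simp only [Function.comp_apply]
        rw [h4, Prod.norm_def]
        simp
      exact (h3.trans_isLittleO h1).trans_isBigO h6
    have h3 := (h2.mono hFle).tendsto_div_nhds_zero
    have h4 := h3.add_const (L (0, 1) k)
    rw [zero_add] at h4
    refine h4.congr' ?_
    have hc2 : ContinuousAt (fun y : ℝ × ℝ => ((y.1, 0) : ℝ × ℝ)) 0 := by fun_prop
    filter_upwards [hpos, hFle (hc2.eventually (hz k hk'))] with y hy1 hy2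
    rw [hy2 rfl]
    field_simp
    ring
  -- limits
  have hσF : Tendsto σ Fl (𝓝 qq) := by
    have := hσc.tendsto.mono_left hFle
    rwa [h0] at this
  have hσk : ∀ k, Tendsto (fun y => σ y k) Fl (𝓝 (qq k)) := fun k =>
    ((contCoord k).tendsto qq).comp hσF
  have hD : ∀ v k, Tendsto (fun y => fderiv ℝ σ y v k) Fl (𝓝 (L v k)) := by
    intro v k
    have h1 : Tendsto (fun y => fderiv ℝ σ y v) (𝓝 0) (𝓝 (L v)) :=
      (hDc.clm_apply continuousAt_const)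
    exact ((contCoord k).tendsto _).comp (h1.mono_left hFle)
  have hlw : ∀ v, Tendsto (fun y => lw (σ y) (fderiv ℝ σ y v)) Fl (𝓝 (-(L v 3))) := by
    intro v
    have h1 := ((hσk 2).mul (hD v 3)).sub ((hσk 3).mul (hD v 2))
    have h2 : qq 2 * L v 3 - qq 3 * L v 2 = -(L v 3) := by simp
    rw [h2] at h1
    exact h1
  have q0 := hquot 0 (Or.inl rfl)
  have q1 := hquot 1 (Or.inr rfl)
  have hkr1 : Tendsto (fun y => σ y 0 / y.2 * fderiv ℝ σ y (1, 0) 0 +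
      σ y 1 / y.2 * fderiv ℝ σ y (1, 0) 1) Fl (𝓝 0) := by
    have h1 := (q0.mul (hD (1, 0) 0)).add (q1.mul (hD (1, 0) 1))
    rw [hL1 0 (Or.inl rfl), hL1 1 (Or.inr rfl), mul_zero, mul_zero, add_zero] at h1
    exact h1
  have hkr2 : Tendsto (fun y => σ y 0 / y.2 * fderiv ℝ σ y (0, 1) 0 +
      σ y 1 / y.2 * fderiv ℝ σ y (0, 1) 1) Fl (𝓝 (e0 ^ 2 + e1 ^ 2)) := by
    have h1 := (q0.mul (hD (0, 1) 0)).add (q1.mul (hD (0, 1) 1))
    have h2 : L (0, 1) 0 * L (0, 1) 0 + L (0, 1) 1 * L (0, 1) 1 = e0 ^ 2 + e1 ^ 2 := by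
      rw [he0, he1]; ring
    rw [h2] at h1
    exact h1
  have hrt : Tendsto (fun y : ℝ × ℝ => Real.sqrt ((σ y 0 / y.2) ^ 2 + (σ y 1 / y.2) ^ 2)) Fl
      (𝓝 (Real.sqrt (e0 ^ 2 + e1 ^ 2))) :=
    (Real.continuous_sqrt.tendsto _).comp ((q0.pow 2).add (q1.pow 2))
  have hrpos : 0 < Real.sqrt (e0 ^ 2 + e1 ^ 2) := Real.sqrt_pos.mpr hE
  have hΦ := ((((hkr1.mul (hlw (0, 1))).sub ((hlw (1, 0)).mul hkr2)).abs).div hrt hrpos.ne')
  set Φ0 := |0 * -(L (0, 1) 3) - -(L (1, 0) 3) * (e0 ^ 2 + e1 ^ 2)| /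
    Real.sqrt (e0 ^ 2 + e1 ^ 2) with hΦ0def
  have hΦ0 : 0 < Φ0 := by
    rw [hΦ0def]
    refine div_pos (abs_pos.mpr ?_) hrpos
    rw [zero_mul, zero_sub, neg_mul, neg_neg]
    exact mul_ne_zero hτ hE.ne'
  have hΦev := hΦ.eventually (Ioi_mem_nhds (show Φ0 / 2 < Φ0 by linarith))
  -- the distance to the base point
  obtain ⟨C, hC0, hC⟩ := hs.hasFDerivAt.isBigO_sub.exists_pos
  have hCb := hC.bound
  have hbb : ∀ᶠ y in Fl, 1 / 2 < bb (σ y) := by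
    have h1 : Tendsto (fun y => bb (σ y)) Fl (𝓝 (bb qq)) := (continuous_bb.tendsto qq).comp hσF
    refine h1.eventually (Ioi_mem_nhds ?_)
    simp [bb]; norm_num
  have hneg : ∀ᶠ y in Fl, σ y 2 < 0 := (hσk 2).eventually (Iio_mem_nhds (by simp))
  have hc := d.c_pos
  refine ⟨d.c * (Φ0 / 2) / (4 * C ^ 2), by positivity, ?_⟩
  have main : ∀ᶠ y in Fl, d.c * (Φ0 / 2) / (4 * C ^ 2) / ‖y‖ ^ 2 ≤ density0 (gg d) σ y := by
    filter_upwards [hpos, hΦev, hFle hCb, hbb, hneg, hFle hS, hFle hne]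
      with y hy2 hyΦ hyC hyb hyn hyS hyne
    have ha : 0 < aa (σ y) := lt_of_le_of_ne (aa_nonneg _) (Ne.symm (hyne hy2.ne'))
    have hb : 0 < bb (σ y) := by linarith
    have hdl := density_lower d hyS ha hb (fderiv ℝ σ y (1, 0)) (fderiv ℝ σ y (0, 1))
    unfold density0
    refine le_trans ?_ hdl
    -- rewrite the quotient
    have hsq : Real.sqrt (aa (σ y)) =
        y.2 * Real.sqrt ((σ y 0 / y.2) ^ 2 + (σ y 1 / y.2) ^ 2) := by
      have h1 : aa (σ y) = y.2 ^ 2 * ((σ y 0 / y.2) ^ 2 + (σ y 1 / y.2) ^ 2) := by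
        unfold aa; field_simp
      rw [h1, Real.sqrt_mul (sq_nonneg _), Real.sqrt_sq hy2.le]
    have hkz : ∀ v, kz (σ y) v = y.2 * (σ y 0 / y.2 * v 0 + σ y 1 / y.2 * v 1) := by
      intro v; unfold kz; field_simp
    have hquo : |kz (σ y) (fderiv ℝ σ y (1, 0)) * lw (σ y) (fderiv ℝ σ y (0, 1)) -
        lw (σ y) (fderiv ℝ σ y (1, 0)) * kz (σ y) (fderiv ℝ σ y (0, 1))| /
        Real.sqrt (aa (σ y)) =
        |(σ y 0 / y.2 * fderiv ℝ σ y (1, 0) 0 + σ y 1 / y.2 * fderiv ℝ σ y (1, 0) 1) *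
          lw (σ y) (fderiv ℝ σ y (0, 1)) - lw (σ y) (fderiv ℝ σ y (1, 0)) *
          (σ y 0 / y.2 * fderiv ℝ σ y (0, 1) 0 + σ y 1 / y.2 * fderiv ℝ σ y (0, 1) 1)| /
          Real.sqrt ((σ y 0 / y.2) ^ 2 + (σ y 1 / y.2) ^ 2) := by
      rw [hkz, hkz, hsq]
      generalize lw (σ y) (fderiv ℝ σ y (0, 1)) = l2
      generalize lw (σ y) (fderiv ℝ σ y (1, 0)) = l1
      generalize (σ y 0 / y.2 * fderiv ℝ σ y (1, 0) 0 + σ y 1 / y.2 * fderiv ℝ σ y (1, 0) 1) = k1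
      generalize (σ y 0 / y.2 * fderiv ℝ σ y (0, 1) 0 + σ y 1 / y.2 * fderiv ℝ σ y (0, 1) 1) = k2
      have h1 : y.2 * k1 * l2 - l1 * (y.2 * k2) = y.2 * (k1 * l2 - l1 * k2) := by ring
      rw [h1, abs_mul, abs_of_pos hy2, mul_div_mul_left _ _ hy2.ne']
    rw [hquo]
    have hΦy : Φ0 / 2 ≤ |(σ y 0 / y.2 * fderiv ℝ σ y (1, 0) 0 +
          σ y 1 / y.2 * fderiv ℝ σ y (1, 0) 1) *
          lw (σ y) (fderiv ℝ σ y (0, 1)) - lw (σ y) (fderiv ℝ σ y (1, 0)) *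
          (σ y 0 / y.2 * fderiv ℝ σ y (0, 1) 0 + σ y 1 / y.2 * fderiv ℝ σ y (0, 1) 1)| /
          Real.sqrt ((σ y 0 / y.2) ^ 2 + (σ y 1 / y.2) ^ 2) := le_of_lt hyΦ
    -- the exponential factor
    have hQpos : 0 < Qs (-1) (σ y) := ha.trans_le (aa_le_Qs (Or.inr rfl) _)
    have hynorm : 0 < ‖y‖ := by
      rw [norm_pos_iff]
      intro h; rw [h] at hy2; simp at hy2
    have hQ : Qs (-1) (σ y) ≤ 4 * C ^ 2 * ‖y‖ ^ 2 := by
      have h1 := Qs_le_of_near hyS hyn hyb.le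
      have h2 : ‖σ y - qq‖ ≤ C * ‖y‖ := by
        rw [h0, sub_zero] at hyC; exact hyC
      have h3 : ‖σ y - qq‖ ^ 2 ≤ (C * ‖y‖) ^ 2 := pow_le_pow_left₀ (norm_nonneg _) h2 2
      rw [norm_sq4] at h3
      simp only [PiLp.sub_apply, qq0, qq1, qq2, qq3] at h3
      unfold aa at h1
      simp only [sub_zero] at h3
      have h4 : (C * ‖y‖) ^ 2 = C ^ 2 * ‖y‖ ^ 2 := by ring
      rw [h4] at h3
      have k0 := sq_nonneg (σ y 0)
      have k1 := sq_nonneg (σ y 1)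
      have k2 := sq_nonneg (σ y 2 - -1)
      have k3 := sq_nonneg (σ y 3)
      rw [mul_assoc]
      linarith
    have hexp : d.c / (4 * C ^ 2 * ‖y‖ ^ 2) ≤ Real.exp (2 * N1 d (σ y)) := by
      have h1 : Real.exp (2 * d.Nt (Qs (-1) (σ y))) ≤ Real.exp (2 * N1 d (σ y)) := by
        apply Real.exp_le_exp.mpr
        unfold N1
        have := (d.g_nonneg (Qs 1 (σ y))).1
        linarith
      refine le_trans ?_ ((d.t_blow _ hQpos).trans h1)
      exact div_le_div_of_nonneg_left hc.le hQpos hQ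
    have h9 : d.c * (Φ0 / 2) / (4 * C ^ 2) / ‖y‖ ^ 2 = d.c / (4 * C ^ 2 * ‖y‖ ^ 2) * (Φ0 / 2) := by
      field_simp
    rw [h9]
    exact mul_le_mul hexp hΦy (by positivity) (Real.exp_pos _).le
  have := (eventually_nhdsWithin_iff.mp main)
  exact this

end
end Pool.Agent.P598
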