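import Pool.Agent.P598.Tau
open scoped ContDiff Topology
open Set Filter
namespace Pool.Agent.P598
noncomputable section

/-- the conditions on the large parameter for the gap -/
structure GapCond (M1 M2 R : ℝ) : Prop where
  one : 1 ≤ R
  big : M2 + 2 ≤ R ^ 2
  c2 : 3 * Real.exp (2 * ((M2 + 2) / R ^ 4)) ≤ 4 - 28 * ((M2 + 2) / R ^ 4)
    - 4 * Real.exp 4 * (((M2 + 2) / R ^ 4) ^ 2 + 2 * ((M2 + 2) / R ^ 4) * M1)
  c3 : 3 * Real.exp (2 * (tau (1 / R) + 2 * (M2 + 2) / R ^ 3)) ≤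
    4 - 8 * (M1 / R ^ 2) - 28 * ((M2 + 2) / R ^ 4)
  c4 : 3 * Real.exp (2 * (1 + 3 * (M2 + 2) / R ^ 2)) ≤
    4 - 8 * (M1 / R ^ 2) - 28 * ((M2 + 2) / R ^ 4) + 4 * Real.exp (4 + R) * (1 / R ^ 4)

/-- the conditions on the large parameter for the tail -/
structure TailCond (M1 R : ℝ) : Prop where
  one : 1 ≤ R
  big : (M1 / 2 + 2) ^ 2 ≤ R ^ 2
  small : tau (1 / R) ≤ 1 / 2
  d2 : 3 ≤ 4 - 20 * ((M1 / 2 + 2) / R ^ 2)
    - 4 * Real.exp 4 * (((M1 / 2 + 2) / R ^ 2) ^ 2 + ((M1 / 2 + 2) / R ^ 2) * M1)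
  d3 : 3 * Real.exp (R * tau (1 / R)) ≤ 4 - 4 * tau (1 / R) - 20 * ((M1 / 2 + 2) / R ^ 2)
  d4 : 3 * R ^ 2 * Real.exp (-(R / 2)) + 20 * (M1 / 2 + 2) * Real.exp (-R) ≤ 4 * Real.exp 4

theorem tendsto_const_div_pow (c : ℝ) {k : ℕ} (hk : k ≠ 0) :
    Tendsto (fun R : ℝ => c / R ^ k) atTop (𝓝 0) :=
  tendsto_const_nhds.div_atTop (tendsto_pow_atTop hk)

theorem tendsto_tau_inv : Tendsto (fun R : ℝ => tau (1 / R)) atTop (𝓝 0) := by
  have h1 : Tendsto (fun R : ℝ => 1 / R) atTop (𝓝 0) := by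
    simpa using! tendsto_inv_atTop_zero (𝕜 := ℝ)
  have h2 := (tau_cont.tendsto 0).comp h1
  rw [tau_zero le_rfl] at h2
  exact h2

theorem tendsto_mul_tau_inv : Tendsto (fun R : ℝ => R * tau (1 / R)) atTop (𝓝 0) := by
  have h0 : HasDerivAt tau 0 0 := by
    have := (tau_diff 0).hasDerivAt
    rwa [dtau_le le_rfl] at this
  have h1 := hasDerivAt_iff_tendsto_slope_zero.mp h0
  have h2 : Tendsto (fun R : ℝ => R⁻¹) atTop (𝓝[≠] 0) :=
    tendsto_inv_atTop_nhdsGT_zero.mono_right (nhdsWithin_mono _ fun x hx => ne_of_gt hx)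
  have h3 := h1.comp h2
  refine h3.congr fun R => ?_
  simp [tau_zero le_rfl, one_div]

theorem exists_gapCond (M1 M2 : ℝ) : ∃ R, GapCond M1 M2 R := by
  set C := M2 + 2 with hC
  have k4 := tendsto_const_div_pow C (k := 4) (by norm_num)
  have k2 := tendsto_const_div_pow M1 (k := 2) (by norm_num)
  have k3 := tendsto_const_div_pow (2 * C) (k := 3) (by norm_num)
  have k2' := tendsto_const_div_pow (3 * C) (k := 2) (by norm_num)
  have e1 : ∀ᶠ R : ℝ in atTop, 1 ≤ R := eventually_ge_atTop 1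
  have e2 : ∀ᶠ R : ℝ in atTop, C ≤ R ^ 2 := (tendsto_pow_atTop (by norm_num)).eventually_ge_atTop C
  have e3 : ∀ᶠ R : ℝ in atTop, 3 * Real.exp (2 * (C / R ^ 4)) < 4 - 28 * (C / R ^ 4)
    - 4 * Real.exp 4 * ((C / R ^ 4) ^ 2 + 2 * (C / R ^ 4) * M1) := by
    have a1 : Tendsto (fun R : ℝ => 3 * Real.exp (2 * (C / R ^ 4))) atTop
        (𝓝 (3 * Real.exp (2 * 0))) :=
      ((Real.continuous_exp.tendsto _).comp (k4.const_mul 2)).const_mul 3
    have a2 : Tendsto (fun R : ℝ => 4 - 28 * (C / R ^ 4)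
        - 4 * Real.exp 4 * ((C / R ^ 4) ^ 2 + 2 * (C / R ^ 4) * M1)) atTop
        (𝓝 (4 - 28 * 0 - 4 * Real.exp 4 * (0 ^ 2 + 2 * 0 * M1))) :=
      (tendsto_const_nhds.sub (k4.const_mul 28)).sub
        (((k4.pow 2).add ((k4.const_mul 2).mul_const M1)).const_mul _)
    exact a1.eventually_lt a2 (by norm_num)
  have e4 : ∀ᶠ R : ℝ in atTop, 3 * Real.exp (2 * (tau (1 / R) + 2 * C / R ^ 3)) <
      4 - 8 * (M1 / R ^ 2) - 28 * (C / R ^ 4) := by
    have a1 : Tendsto (fun R : ℝ => 3 * Real.exp (2 * (tau (1 / R) + 2 * C / R ^ 3))) atTop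
        (𝓝 (3 * Real.exp (2 * (0 + 0)))) :=
      ((Real.continuous_exp.tendsto _).comp ((tendsto_tau_inv.add k3).const_mul 2)).const_mul 3
    have a2 : Tendsto (fun R : ℝ => 4 - 8 * (M1 / R ^ 2) - 28 * (C / R ^ 4)) atTop
        (𝓝 (4 - 8 * 0 - 28 * 0)) :=
      (tendsto_const_nhds.sub (k2.const_mul 8)).sub (k4.const_mul 28)
    exact a1.eventually_lt a2 (by norm_num)
  have e5 : ∀ᶠ R : ℝ in atTop, 3 * Real.exp (2 * (1 + 3 * C / R ^ 2)) ≤
      4 - 8 * (M1 / R ^ 2) - 28 * (C / R ^ 4) + 4 * Real.exp (4 + R) * (1 / R ^ 4) := by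
    have a1 : Tendsto (fun R : ℝ => 3 * Real.exp (2 * (1 + 3 * C / R ^ 2))) atTop
        (𝓝 (3 * Real.exp (2 * (1 + 0)))) :=
      ((Real.continuous_exp.tendsto _).comp ((tendsto_const_nhds.add k2').const_mul 2)).const_mul 3
    have a2 : Tendsto (fun R : ℝ => 4 - 8 * (M1 / R ^ 2) - 28 * (C / R ^ 4)) atTop
        (𝓝 (4 - 8 * 0 - 28 * 0)) :=
      (tendsto_const_nhds.sub (k2.const_mul 8)).sub (k4.const_mul 28)
    have a3 := Real.tendsto_exp_div_pow_atTop 4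
    have b1 := a1.eventually_lt (tendsto_const_nhds (x := 3 * Real.exp (2 * (1 + 0)) + 1))
      (by linarith)
    have b2 := (tendsto_const_nhds (x := (3:ℝ))).eventually_lt a2 (by norm_num)
    have b3 := a3.eventually_ge_atTop (3 * Real.exp (2 * (1 + 0)) + 1)
    filter_upwards [b1, b2, b3, e1] with R h1 h2 h3 h4
    have h5 : Real.exp R ≤ Real.exp (4 + R) := Real.exp_le_exp.mpr (by linarith)
    have h6 : 0 < 1 / R ^ 4 := by positivity
    have h7 : Real.exp R / R ^ 4 = Real.exp R * (1 / R ^ 4) := by ring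
    have h8 : Real.exp R * (1 / R ^ 4) ≤ Real.exp (4 + R) * (1 / R ^ 4) :=
      mul_le_mul_of_nonneg_right h5 h6.le
    have h9 : 0 < Real.exp (4 + R) * (1 / R ^ 4) := mul_pos (Real.exp_pos _) h6
    linarith
  obtain ⟨R, h1, h2, h3, h4, h5⟩ := (e1.and (e2.and (e3.and (e4.and e5)))).exists
  exact ⟨R, h1, h2, h3.le, h4.le, h5⟩

theorem exists_tailCond (M1 : ℝ) : ∃ R, TailCond M1 R := by
  set C := M1 / 2 + 2 with hC
  have k2 := tendsto_const_div_pow C (k := 2) (by norm_num)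
  have e1 : ∀ᶠ R : ℝ in atTop, 1 ≤ R := eventually_ge_atTop 1
  have e2 : ∀ᶠ R : ℝ in atTop, C ^ 2 ≤ R ^ 2 :=
    (tendsto_pow_atTop (by norm_num)).eventually_ge_atTop _
  have e3 : ∀ᶠ R : ℝ in atTop, tau (1 / R) < 1 / 2 :=
    tendsto_tau_inv.eventually_lt tendsto_const_nhds (by norm_num)
  have e4 : ∀ᶠ R : ℝ in atTop, 3 < 4 - 20 * (C / R ^ 2)
    - 4 * Real.exp 4 * ((C / R ^ 2) ^ 2 + (C / R ^ 2) * M1) := by
    have a2 : Tendsto (fun R : ℝ => 4 - 20 * (C / R ^ 2)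
        - 4 * Real.exp 4 * ((C / R ^ 2) ^ 2 + (C / R ^ 2) * M1)) atTop
        (𝓝 (4 - 20 * 0 - 4 * Real.exp 4 * (0 ^ 2 + 0 * M1))) :=
      (tendsto_const_nhds.sub (k2.const_mul 20)).sub
        (((k2.pow 2).add (k2.mul_const M1)).const_mul _)
    exact (tendsto_const_nhds (x := (3:ℝ))).eventually_lt a2 (by norm_num)
  have e5 : ∀ᶠ R : ℝ in atTop, 3 * Real.exp (R * tau (1 / R)) <
      4 - 4 * tau (1 / R) - 20 * (C / R ^ 2) := by
    have a1 : Tendsto (fun R : ℝ => 3 * Real.exp (R * tau (1 / R))) atTop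
        (𝓝 (3 * Real.exp 0)) :=
      ((Real.continuous_exp.tendsto _).comp tendsto_mul_tau_inv).const_mul 3
    have a2 : Tendsto (fun R : ℝ => 4 - 4 * tau (1 / R) - 20 * (C / R ^ 2)) atTop
        (𝓝 (4 - 4 * 0 - 20 * 0)) :=
      (tendsto_const_nhds.sub (tendsto_tau_inv.const_mul 4)).sub (k2.const_mul 20)
    exact a1.eventually_lt a2 (by norm_num)
  have e6 : ∀ᶠ R : ℝ in atTop, 3 * R ^ 2 * Real.exp (-(R / 2)) + 20 * C * Real.exp (-R) <
      4 * Real.exp 4 := by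
    have b1 : Tendsto (fun R : ℝ => R / 2) atTop atTop := tendsto_id.atTop_div_const (by norm_num)
    have a1 : Tendsto (fun R : ℝ => 12 * ((R / 2) ^ 2 * Real.exp (-(R / 2)))) atTop
        (𝓝 (12 * 0)) :=
      ((Real.tendsto_pow_mul_exp_neg_atTop_nhds_zero 2).comp b1).const_mul 12
    have a2 : Tendsto (fun R : ℝ => 20 * C * Real.exp (-R)) atTop (𝓝 (20 * C * 0)) :=
      Real.tendsto_exp_neg_atTop_nhds_zero.const_mul _
    have a3 := (a1.add a2).eventually_lt (tendsto_const_nhds (x := 4 * Real.exp 4))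
      (by have := Real.exp_pos 4; linarith)
    filter_upwards [a3] with R h
    have : 3 * R ^ 2 * Real.exp (-(R / 2)) = 12 * ((R / 2) ^ 2 * Real.exp (-(R / 2))) := by ring
    rw [this]; exact h
  obtain ⟨R, h1, h2, h3, h4, h5, h6⟩ := (e1.and (e2.and (e3.and (e4.and (e5.and e6))))).exists
  exact ⟨R, h1, h2, h3.le, h4.le, h5.le, h6.le⟩

end
end Pool.Agent.P598
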