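import Pool.Agent.P598.Defs0
open scoped ContDiff Topology
namespace Pool.Agent.P598
noncomputable section

/-- model space -/
abbrev V3 : Type := Fin 3 → ℝ

section aux
variable {E F G : Type*} [NormedAddCommGroup E] [NormedSpace ℝ E] [NormedAddCommGroup F]
  [NormedSpace ℝ F] [NormedAddCommGroup G] [NormedSpace ℝ G]

theorem hasFDerivAt_apply_const {f : E → F →L[ℝ] G} {f' : E →L[ℝ] F →L[ℝ] G} {x : E}
    (hf : HasFDerivAt f f' x) (b : F) : HasFDerivAt (fun y => f y b) (f'.flip b) x := by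
  have := hf.clm_apply (hasFDerivAt_const b x)
  refine this.congr_fderiv ?_
  ext z
  simp

theorem fderiv_apply_const {f : E → F →L[ℝ] G} {x : E}
    (hf : DifferentiableAt ℝ f x) (b : F) (u : E) :
    fderiv ℝ (fun y => f y b) x u = fderiv ℝ f x u b := by
  rw [(hasFDerivAt_apply_const hf.hasFDerivAt b).fderiv]
  simp

end aux

/-- Koszul identity at a point for bilinear-map valued data. -/
def IsLC (B : V3 → V3 →L[ℝ] V3 →L[ℝ] ℝ) (Γ : V3 → V3 →L[ℝ] V3 →L[ℝ] V3) (x : V3) : Prop :=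
  ∀ u v w, 2 * B x (Γ x u v) w = fderiv ℝ B x u v w + fderiv ℝ B x v u w - fderiv ℝ B x w u v

/-- curvature -/
def curv (Γ : V3 → V3 →L[ℝ] V3 →L[ℝ] V3) (x : V3) (u v w : V3) : V3 :=
  fderiv ℝ Γ x u v w - fderiv ℝ Γ x v u w + Γ x u (Γ x v w) - Γ x v (Γ x u w)

theorem lc_transform {B B' : V3 → V3 →L[ℝ] V3 →L[ℝ] ℝ} {Γ Γ' : V3 → V3 →L[ℝ] V3 →L[ℝ] V3}
    {F : V3 → V3} {x : V3}
    (hF : ContDiffAt ℝ 2 F x)
    (hB : DifferentiableAt ℝ B (F x))
    (hBsymm : ∀ u v, B (F x) u v = B (F x) v u)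
    (hBnd : ∀ u, (∀ v, B (F x) u v = 0) → u = 0)
    (hsurj : Function.Surjective (fderiv ℝ F x))
    (hBB' : ∀ᶠ y in 𝓝 x, ∀ u v, B' y u v = B (F y) (fderiv ℝ F y u) (fderiv ℝ F y v))
    (hB' : DifferentiableAt ℝ B' x)
    (hΓ : IsLC B Γ (F x)) (hΓ' : IsLC B' Γ' x) (u v : V3) :
    fderiv ℝ F x (Γ' x u v) = Γ (F x) (fderiv ℝ F x u) (fderiv ℝ F x v)
      + fderiv ℝ (fderiv ℝ F) x u v := by
  have hFd : DifferentiableAt ℝ F x := hF.differentiableAt (by norm_num)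
  have hF1 : DifferentiableAt ℝ (fderiv ℝ F) x :=
    (hF.fderiv_right (m := 1) (by norm_num)).differentiableAt (by norm_num)
  have hsymm : ∀ a b, fderiv ℝ (fderiv ℝ F) x a b = fderiv ℝ (fderiv ℝ F) x b a := by
    intro a b
    have := hF.isSymmSndFDerivAt (by simp)
    exact this a b
  -- derivative of B'
  have key : ∀ a b c, fderiv ℝ B' x a b c =
      fderiv ℝ B (F x) (fderiv ℝ F x a) (fderiv ℝ F x b) (fderiv ℝ F x c)
      + B (F x) (fderiv ℝ (fderiv ℝ F) x a b) (fderiv ℝ F x c)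
      + B (F x) (fderiv ℝ F x b) (fderiv ℝ (fderiv ℝ F) x a c) := by
    intro a b c
    have h1 : HasFDerivAt (fun y => B' y b c)
        (((fderiv ℝ B' x).flip b).flip c) x :=
      hasFDerivAt_apply_const (hasFDerivAt_apply_const hB'.hasFDerivAt b) c
    have hAb : HasFDerivAt (fun y => fderiv ℝ F y b) ((fderiv ℝ (fderiv ℝ F) x).flip b) x :=
      hasFDerivAt_apply_const hF1.hasFDerivAt b
    have hAc : HasFDerivAt (fun y => fderiv ℝ F y c) ((fderiv ℝ (fderiv ℝ F) x).flip c) x :=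
      hasFDerivAt_apply_const hF1.hasFDerivAt c
    have hBF := HasFDerivAt.comp (g := B) x hB.hasFDerivAt hFd.hasFDerivAt
    have h2 := (hBF.clm_apply hAb).clm_apply hAc
    have h3 : (fun y => B' y b c) =ᶠ[𝓝 x] fun y => (B ∘ F) y (fderiv ℝ F y b) (fderiv ℝ F y c) := by
      filter_upwards [hBB'] with y hy using hy b c
    have h4 := (h2.congr_of_eventuallyEq h3).unique h1
    have h5 := congrArg (fun L => L a) h4
    simp only [ContinuousLinearMap.flip_apply] at h5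
    rw [← h5]
    simp
    ring
  -- conclude
  have hz : fderiv ℝ F x (Γ' x u v) - (Γ (F x) (fderiv ℝ F x u) (fderiv ℝ F x v)
      + fderiv ℝ (fderiv ℝ F) x u v) = 0 := by
    apply hBnd
    intro w'
    obtain ⟨w, rfl⟩ := hsurj w'
    have e1 := hΓ' u v w
    have e2 := hΓ (fderiv ℝ F x u) (fderiv ℝ F x v) (fderiv ℝ F x w)
    rw [key, key, key, hBB'.self_of_nhds] at e1
    simp only [map_sub, map_add, sub_apply, add_apply]
    rw [hsymm v u, hsymm w u, hsymm w v] at e1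
    rw [hBsymm (fderiv ℝ (fderiv ℝ F) x u w) (fderiv ℝ F x v)] at e1
    linarith
  exact sub_eq_zero.mp hz


theorem curv_transform {Γ Γ' : V3 → V3 →L[ℝ] V3 →L[ℝ] V3} {F : V3 → V3} {x : V3}
    (hF : ContDiffAt ℝ 3 F x)
    (hΓ : DifferentiableAt ℝ Γ (F x)) (hΓ' : DifferentiableAt ℝ Γ' x)
    (hid : ∀ᶠ y in 𝓝 x, ∀ v w, fderiv ℝ F y (Γ' y v w) =
      Γ (F y) (fderiv ℝ F y v) (fderiv ℝ F y w) + fderiv ℝ (fderiv ℝ F) y v w)
    (u v w : V3) :
    fderiv ℝ F x (curv Γ' x u v w) =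
      curv Γ (F x) (fderiv ℝ F x u) (fderiv ℝ F x v) (fderiv ℝ F x w) := by
  have hFd : DifferentiableAt ℝ F x := hF.differentiableAt (by norm_num)
  have hA : ContDiffAt ℝ 2 (fderiv ℝ F) x := hF.fderiv_right (m := 2) (by norm_num)
  have hF1 : DifferentiableAt ℝ (fderiv ℝ F) x := hA.differentiableAt (by norm_num)
  have hF2 : DifferentiableAt ℝ (fderiv ℝ (fderiv ℝ F)) x :=
    (hA.fderiv_right (m := 1) (by norm_num)).differentiableAt (by norm_num)
  have hsymm : ∀ a b, fderiv ℝ (fderiv ℝ F) x a b = fderiv ℝ (fderiv ℝ F) x b a := by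
    intro a b
    have := (hF.of_le (m := 2) (by norm_num)).isSymmSndFDerivAt (by simp)
    exact this a b
  have hsymm3 : ∀ a b c, fderiv ℝ (fderiv ℝ (fderiv ℝ F)) x a b c =
      fderiv ℝ (fderiv ℝ (fderiv ℝ F)) x b a c := by
    intro a b c
    have := hA.isSymmSndFDerivAt (by simp)
    rw [this a b]
  have key : ∀ a b c, fderiv ℝ (fderiv ℝ F) x a (Γ' x b c) + fderiv ℝ F x (fderiv ℝ Γ' x a b c) =
      fderiv ℝ Γ (F x) (fderiv ℝ F x a) (fderiv ℝ F x b) (fderiv ℝ F x c)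
      + Γ (F x) (fderiv ℝ (fderiv ℝ F) x a b) (fderiv ℝ F x c)
      + Γ (F x) (fderiv ℝ F x b) (fderiv ℝ (fderiv ℝ F) x a c)
      + fderiv ℝ (fderiv ℝ (fderiv ℝ F)) x a b c := by
    intro a b c
    have h1 : HasFDerivAt (fun y => Γ' y b c)
        (((fderiv ℝ Γ' x).flip b).flip c) x :=
      hasFDerivAt_apply_const (hasFDerivAt_apply_const hΓ'.hasFDerivAt b) c
    have hL := hF1.hasFDerivAt.clm_apply h1
    have hAb : HasFDerivAt (fun y => fderiv ℝ F y b) ((fderiv ℝ (fderiv ℝ F) x).flip b) x :=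
      hasFDerivAt_apply_const hF1.hasFDerivAt b
    have hAc : HasFDerivAt (fun y => fderiv ℝ F y c) ((fderiv ℝ (fderiv ℝ F) x).flip c) x :=
      hasFDerivAt_apply_const hF1.hasFDerivAt c
    have hΓF := HasFDerivAt.comp (g := Γ) x hΓ.hasFDerivAt hFd.hasFDerivAt
    have hAA : HasFDerivAt (fun y => fderiv ℝ (fderiv ℝ F) y b c)
        (((fderiv ℝ (fderiv ℝ (fderiv ℝ F)) x).flip b).flip c) x :=
      hasFDerivAt_apply_const (hasFDerivAt_apply_const hF2.hasFDerivAt b) c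
    have hR := ((hΓF.clm_apply hAb).clm_apply hAc).add hAA
    have h3 : (fun y => fderiv ℝ F y (Γ' y b c)) =ᶠ[𝓝 x]
        fun y => (Γ ∘ F) y (fderiv ℝ F y b) (fderiv ℝ F y c) + fderiv ℝ (fderiv ℝ F) y b c := by
      filter_upwards [hid] with y hy using hy b c
    have h4 := (hR.congr_of_eventuallyEq h3).unique hL
    have h5 := congrArg (fun L => L a) h4
    simp at h5
    rw [add_comm (fderiv ℝ F x (fderiv ℝ Γ' x a b c))] at h5
    rw [← h5]
    abel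
  have id1 := hid.self_of_nhds
  simp only [curv, map_add, map_sub]
  have k1 := key u v w
  have k2 := key v u w
  have i1 := id1 u (Γ' x v w)
  have i2 := id1 v (Γ' x u w)
  rw [i1, i2, id1 v w, id1 u w]
  simp only [map_add]
  rw [hsymm3 v u w, hsymm v u] at k2
  have e1 : fderiv ℝ F x (fderiv ℝ Γ' x u v w) =
      fderiv ℝ Γ (F x) (fderiv ℝ F x u) (fderiv ℝ F x v) (fderiv ℝ F x w)
      + Γ (F x) (fderiv ℝ (fderiv ℝ F) x u v) (fderiv ℝ F x w)
      + Γ (F x) (fderiv ℝ F x v) (fderiv ℝ (fderiv ℝ F) x u w)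
      + fderiv ℝ (fderiv ℝ (fderiv ℝ F)) x u v w - fderiv ℝ (fderiv ℝ F) x u (Γ' x v w) := by
    rw [← k1]; abel
  have e2 : fderiv ℝ F x (fderiv ℝ Γ' x v u w) =
      fderiv ℝ Γ (F x) (fderiv ℝ F x v) (fderiv ℝ F x u) (fderiv ℝ F x w)
      + Γ (F x) (fderiv ℝ (fderiv ℝ F) x u v) (fderiv ℝ F x w)
      + Γ (F x) (fderiv ℝ F x u) (fderiv ℝ (fderiv ℝ F) x v w)
      + fderiv ℝ (fderiv ℝ (fderiv ℝ F)) x u v w - fderiv ℝ (fderiv ℝ F) x v (Γ' x u w) := by
    rw [← k2]; abel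
  rw [e1, e2]
  abel

end
end Pool.Agent.P598
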