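import Pool.Agent.P598.Curv1
open scoped ContDiff Topology
namespace Pool.Agent.P598
noncomputable section

section aux
variable {E F G : Type*} [NormedAddCommGroup E] [NormedSpace ℝ E] [NormedAddCommGroup F]
  [NormedSpace ℝ F] [NormedAddCommGroup G] [NormedSpace ℝ G]

theorem hasFDerivAt_clm_comp (L : F →L[ℝ] G) {f : E → F} {f' : E →L[ℝ] F} {x : E}
    (hf : HasFDerivAt f f' x) : HasFDerivAt (fun y => L (f y)) (L.comp f') x :=
  L.hasFDerivAt.comp x hf

end aux

/-- the `i`-th standard basis vector -/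
abbrev bv (i : Fin 3) : V3 := Pi.single i 1

theorem eq_sum_bv (u : V3) : u = ∑ k, u k • bv k := by
  ext j
  simp [Pi.single_apply]

theorem fderiv_eq_sum (f : V3 → ℝ) (x u : V3) : fderiv ℝ f x u = ∑ k, u k * pd k f x := by
  conv_lhs => rw [eq_sum_bv u]
  simp [pd, map_sum]

/-- bilinear form of a matrix -/
def bil (M : Fin 3 → Fin 3 → ℝ) : V3 →L[ℝ] V3 →L[ℝ] ℝ :=
  ∑ i, ∑ j, M i j • ((ContinuousLinearMap.proj i : V3 →L[ℝ] ℝ).smulRight
    (ContinuousLinearMap.proj j : V3 →L[ℝ] ℝ))

theorem bil_apply (M : Fin 3 → Fin 3 → ℝ) (u v : V3) :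
    bil M u v = ∑ i, ∑ j, M i j * (u i * v j) := by
  simp [bil, Fin.sum_univ_three]

theorem bil_bv (M : Fin 3 → Fin 3 → ℝ) (i j : Fin 3) : bil M (bv i) (bv j) = M i j := by
  rw [bil_apply]
  fin_cases i <;> fin_cases j <;> simp [Fin.sum_univ_three]

/-- `bil` as a continuous linear map -/
def bilL : (Fin 3 → Fin 3 → ℝ) →L[ℝ] (V3 →L[ℝ] V3 →L[ℝ] ℝ) :=
  LinearMap.toContinuousLinearMap
    { toFun := fun M => bil M
      map_add' := by
        intro M N
        ext u v
        simp only [bil_apply, add_apply, Pi.add_apply, Fin.sum_univ_three]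
        ring
      map_smul' := by
        intro c M
        ext u v
        simp only [bil_apply, smul_apply, Pi.smul_apply, Fin.sum_univ_three, smul_eq_mul,
          RingHom.id_apply]
        ring }

theorem bilL_apply (M : Fin 3 → Fin 3 → ℝ) : bilL M = bil M := rfl

theorem bil_hasFDerivAt {G : V3 → Fin 3 → Fin 3 → ℝ} {x : V3}
    (hG : ∀ i j, DifferentiableAt ℝ (fun y => G y i j) x) :
    HasFDerivAt (fun y => bil (G y)) (bilL.comp (ContinuousLinearMap.pi fun i =>
      ContinuousLinearMap.pi fun j => fderiv ℝ (fun y => G y i j) x)) x := by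
  have h1 : HasFDerivAt (fun y => (fun i j => G y i j : Fin 3 → Fin 3 → ℝ))
      (ContinuousLinearMap.pi fun i =>
      ContinuousLinearMap.pi fun j => fderiv ℝ (fun y => G y i j) x) x := by
    rw [hasFDerivAt_pi]
    intro i
    rw [hasFDerivAt_pi]
    intro j
    exact (hG i j).hasFDerivAt
  exact hasFDerivAt_clm_comp (G := V3 →L[ℝ] V3 →L[ℝ] ℝ) bilL h1

theorem bil_fderiv {G : V3 → Fin 3 → Fin 3 → ℝ} {x : V3}
    (hG : ∀ i j, DifferentiableAt ℝ (fun y => G y i j) x) (u v w : V3) :
    fderiv ℝ (fun y => bil (G y)) x u v w =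
      ∑ k, ∑ i, ∑ j, pd k (fun y => G y i j) x * (u k * (v i * w j)) := by
  rw [(bil_hasFDerivAt hG).fderiv]
  simp only [ContinuousLinearMap.comp_apply, bilL_apply, bil_apply, ContinuousLinearMap.pi_apply,
    fderiv_eq_sum]
  simp only [Fin.sum_univ_three]
  ring

/-- vector valued bilinear map -/
def gam (C : Fin 3 → Fin 3 → Fin 3 → ℝ) : V3 →L[ℝ] V3 →L[ℝ] V3 :=
  ∑ k, ∑ i, ∑ j, C k i j • ((ContinuousLinearMap.proj i : V3 →L[ℝ] ℝ).smulRight
    ((ContinuousLinearMap.proj j : V3 →L[ℝ] ℝ).smulRight (bv k)))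

theorem gam_apply (C : Fin 3 → Fin 3 → Fin 3 → ℝ) (u v : V3) (k : Fin 3) :
    gam C u v k = ∑ i, ∑ j, C k i j * (u i * v j) := by
  simp only [gam, sum_apply, smul_apply,
    ContinuousLinearMap.smulRight_apply, ContinuousLinearMap.proj_apply, Finset.sum_apply,
    Pi.smul_apply, smul_eq_mul, Pi.single_apply]
  fin_cases k <;> simp [Fin.sum_univ_three]

theorem gam_bv (C : Fin 3 → Fin 3 → Fin 3 → ℝ) (i j k : Fin 3) :
    gam C (bv i) (bv j) k = C k i j := by
  rw [gam_apply]
  fin_cases i <;> fin_cases j <;> simp [Fin.sum_univ_three]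

/-- `gam` as a continuous linear map -/
def gamL : (Fin 3 → Fin 3 → Fin 3 → ℝ) →L[ℝ] (V3 →L[ℝ] V3 →L[ℝ] V3) :=
  LinearMap.toContinuousLinearMap
    { toFun := fun M => gam M
      map_add' := by
        intro M N
        ext u v k
        simp only [gam_apply, add_apply, Pi.add_apply, Fin.sum_univ_three]
        ring
      map_smul' := by
        intro c M
        ext u v k
        simp only [gam_apply, smul_apply, Pi.smul_apply, Fin.sum_univ_three, smul_eq_mul,
          RingHom.id_apply]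
        ring }

theorem gamL_apply (M : Fin 3 → Fin 3 → Fin 3 → ℝ) : gamL M = gam M := rfl

theorem gam_hasFDerivAt {C : Fin 3 → Fin 3 → Fin 3 → V3 → ℝ} {x : V3}
    (hC : ∀ k i j, DifferentiableAt ℝ (C k i j) x) :
    HasFDerivAt (fun y => gam (fun k i j => C k i j y))
      (gamL.comp (ContinuousLinearMap.pi fun k => ContinuousLinearMap.pi fun i =>
      ContinuousLinearMap.pi fun j => fderiv ℝ (C k i j) x)) x := by
  have h1 : HasFDerivAt (fun y => (fun k i j => C k i j y : Fin 3 → Fin 3 → Fin 3 → ℝ))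
      (ContinuousLinearMap.pi fun k => ContinuousLinearMap.pi fun i =>
      ContinuousLinearMap.pi fun j => fderiv ℝ (C k i j) x) x := by
    rw [hasFDerivAt_pi]
    intro k
    rw [hasFDerivAt_pi]
    intro i
    rw [hasFDerivAt_pi]
    intro j
    exact (hC k i j).hasFDerivAt
  exact hasFDerivAt_clm_comp (G := V3 →L[ℝ] V3 →L[ℝ] V3) gamL h1

theorem gam_fderiv {C : Fin 3 → Fin 3 → Fin 3 → V3 → ℝ} {x : V3}
    (hC : ∀ k i j, DifferentiableAt ℝ (C k i j) x) (u v w : V3) (k : Fin 3) :
    fderiv ℝ (fun y => gam (fun k i j => C k i j y)) x u v w k =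
      ∑ m, ∑ i, ∑ j, pd m (C k i j) x * (u m * (v i * w j)) := by
  rw [(gam_hasFDerivAt hC).fderiv]
  simp only [ContinuousLinearMap.comp_apply, gamL_apply, gam_apply, ContinuousLinearMap.pi_apply,
    fderiv_eq_sum]
  simp only [Fin.sum_univ_three]
  ring

/-- symmetric at a point -/
theorem christoffel_symm {G : V3 → Matrix (Fin 3) (Fin 3) ℝ} {x : V3}
    (hs : ∀ᶠ y in 𝓝 x, ∀ i j, G y i j = G y j i) (k i j : Fin 3) :
    christoffel G k i j x = christoffel G k j i x := by
  unfold christoffel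
  congr 1
  refine Finset.sum_congr rfl fun l _ => ?_
  have : pd l (fun y => G y i j) x = pd l (fun y => G y j i) x := by
    unfold pd
    rw [Filter.EventuallyEq.fderiv_eq]
    filter_upwards [hs] with y hy using hy i j
  rw [this]
  ring

theorem christoffel_lower {G : V3 → Matrix (Fin 3) (Fin 3) ℝ} {x : V3}
    (hdet : IsUnit (G x).det) (hs : ∀ i j, G x i j = G x j i) (l i j : Fin 3) :
    2 * ∑ k, G x k l * christoffel G k i j x =
      pd i (fun y => G y j l) x + pd j (fun y => G y i l) x - pd l (fun y => G y i j) x := by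
  have h1 : G x * (G x)⁻¹ = 1 := Matrix.mul_nonsing_inv _ hdet
  set K : Fin 3 → ℝ := fun m =>
    pd i (fun y => G y j m) x + pd j (fun y => G y i m) x - pd m (fun y => G y i j) x with hK
  have h2 : ∀ m, ∑ k, G x k l * (G x)⁻¹ k m = (1 : Matrix (Fin 3) (Fin 3) ℝ) l m := by
    intro m
    rw [← h1, Matrix.mul_apply]
    refine Finset.sum_congr rfl fun k _ => ?_
    rw [hs k l]
  have h3 : 2 * ∑ k, G x k l * christoffel G k i j x =
      ∑ m, (∑ k, G x k l * (G x)⁻¹ k m) * K m := by
    simp only [christoffel, Fin.sum_univ_three, hK]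
    ring
  rw [h3]
  simp only [h2]
  simp [Matrix.one_apply, hK]

theorem isLC_christoffel {G : V3 → Matrix (Fin 3) (Fin 3) ℝ} {x : V3}
    (hG : ∀ i j, DifferentiableAt ℝ (fun y => G y i j) x)
    (hdet : IsUnit (G x).det) (hs : ∀ i j, G x i j = G x j i) :
    IsLC (fun y => bil (G y)) (fun y => gam (fun k i j => christoffel G k i j y)) x := by
  intro u v w
  rw [bil_fderiv hG, bil_fderiv hG, bil_fderiv hG]
  have h1 : 2 * bil (G x) (gam (fun k i j => christoffel G k i j x) u v) w =
      ∑ a, ∑ b, ∑ l, (2 * ∑ k, G x k l * christoffel G k a b x) * (u a * v b * w l) := by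
    simp only [bil_apply, gam_apply]
    simp only [Fin.sum_univ_three]
    ring
  rw [h1]
  simp only [christoffel_lower hdet hs]
  simp only [Fin.sum_univ_three]
  ring

end
end Pool.Agent.P598
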