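import Pool.Agent.P598.Curv2
open scoped ContDiff Topology
namespace Pool.Agent.P598
noncomputable section

theorem contDiffAt_inv_entry {n : WithTop ℕ∞} {G : V3 → Matrix (Fin 3) (Fin 3) ℝ} {x : V3}
    (hG : ∀ i j, ContDiffAt ℝ n (fun y => G y i j) x) (hdet : (G x).det ≠ 0) (i j : Fin 3) :
    ContDiffAt ℝ n (fun y => (G y)⁻¹ i j) x := by
  have hd : ContDiffAt ℝ n (fun y => (G y).det) x := by
    simp only [Matrix.det_fin_three]
    exact ((((((hG 0 0).mul (hG 1 1)).mul (hG 2 2)).sub (((hG 0 0).mul (hG 1 2)).mul (hG 2 1))).sub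
      (((hG 0 1).mul (hG 1 0)).mul (hG 2 2))).add (((hG 0 1).mul (hG 1 2)).mul (hG 2 0))).add
      (((hG 0 2).mul (hG 1 0)).mul (hG 2 1)) |>.sub (((hG 0 2).mul (hG 1 1)).mul (hG 2 0))
  have ha : ContDiffAt ℝ n (fun y => (G y).adjugate i j) x := by
    simp only [Matrix.adjugate_fin_three]
    fin_cases i <;> fin_cases j <;> simp <;> fun_prop (disch := assumption)
  have : (fun y => (G y)⁻¹ i j) = fun y => ((G y).det)⁻¹ * (G y).adjugate i j := by
    funext y
    rw [Matrix.inv_def]
    simp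
  rw [this]
  exact (hd.inv hdet).mul ha

theorem contDiffAt_pd {n : WithTop ℕ∞} {f : V3 → ℝ} {x : V3} (i : Fin 3)
    (hf : ContDiffAt ℝ (n + 1) f x) : ContDiffAt ℝ n (pd i f) x := by
  unfold pd
  exact (hf.fderiv_right (m := n) le_rfl).clm_apply contDiffAt_const

theorem contDiffAt_christoffel {n : WithTop ℕ∞} {G : V3 → Matrix (Fin 3) (Fin 3) ℝ} {x : V3}
    (hG : ∀ i j, ContDiffAt ℝ (n + 1) (fun y => G y i j) x) (hdet : (G x).det ≠ 0)
    (k i j : Fin 3) : ContDiffAt ℝ n (christoffel G k i j) x := by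
  unfold christoffel
  refine contDiffAt_const.mul (ContDiffAt.sum fun l _ => ?_)
  refine (contDiffAt_inv_entry (fun i j => (hG i j).of_le le_self_add) hdet k l).mul ?_
  exact ((contDiffAt_pd i (hG j l)).add (contDiffAt_pd j (hG i l))).sub (contDiffAt_pd l (hG i j))

theorem contDiffAt_ricci {n : WithTop ℕ∞} {G : V3 → Matrix (Fin 3) (Fin 3) ℝ} {x : V3}
    (hG : ∀ i j, ContDiffAt ℝ (n + 1 + 1) (fun y => G y i j) x) (hdet : (G x).det ≠ 0)
    (i j : Fin 3) : ContDiffAt ℝ n (ricci G i j) x := by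
  have h1 := fun k i j => contDiffAt_christoffel (n := n + 1) hG hdet k i j
  have h0 := fun k i j => (h1 k i j).of_le (m := n) le_self_add
  unfold ricci
  refine ContDiffAt.add (ContDiffAt.sum fun k _ => ?_)
    (ContDiffAt.sum fun k _ => ContDiffAt.sum fun l _ => ?_)
  · exact (contDiffAt_pd k (h1 k i j)).sub (contDiffAt_pd j (h1 k i k))
  · exact ((h0 k k l).mul (h0 l i j)).sub ((h0 k j l).mul (h0 l i k))

theorem contDiffAt_scalarCurvature {n : WithTop ℕ∞} {G : V3 → Matrix (Fin 3) (Fin 3) ℝ} {x : V3}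
    (hG : ∀ i j, ContDiffAt ℝ (n + 1 + 1) (fun y => G y i j) x) (hdet : (G x).det ≠ 0) :
    ContDiffAt ℝ n (scalarCurvature G) x := by
  unfold scalarCurvature
  refine ContDiffAt.sum fun i _ => ContDiffAt.sum fun j _ => ?_
  exact (contDiffAt_inv_entry (fun i j => (hG i j).of_le (le_self_add.trans le_self_add))
    hdet i j).mul (contDiffAt_ricci hG hdet i j)

theorem eventually_christoffel_symm {G : V3 → Matrix (Fin 3) (Fin 3) ℝ} {x : V3}
    (hs : ∀ᶠ y in 𝓝 x, ∀ i j, G y i j = G y j i) :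
    ∀ᶠ y in 𝓝 x, ∀ k i j, christoffel G k i j y = christoffel G k j i y := by
  filter_upwards [hs.eventually_nhds] with y hy k i j
  exact christoffel_symm hy k i j

theorem ricci_eq_sum_curv {G : V3 → Matrix (Fin 3) (Fin 3) ℝ} {x : V3}
    (hs : ∀ᶠ y in 𝓝 x, ∀ i j, G y i j = G y j i)
    (hd : ∀ k i j, DifferentiableAt ℝ (christoffel G k i j) x) (i j : Fin 3) :
    ricci G i j x =
      ∑ k, curv (fun y => gam (fun k i j => christoffel G k i j y)) x (bv k) (bv j) (bv i) k := by
  have hsy := (eventually_christoffel_symm hs)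
  have hs0 := hsy.self_of_nhds
  have hpd : ∀ m k i j, pd m (christoffel G k i j) x = pd m (christoffel G k j i) x := by
    intro m k i j
    unfold pd
    rw [Filter.EventuallyEq.fderiv_eq]
    filter_upwards [hsy] with y hy using hy k i j
  have h1 : ∀ k, curv (fun y => gam (fun k i j => christoffel G k i j y)) x (bv k) (bv j) (bv i) k
      = pd k (christoffel G k j i) x - pd j (christoffel G k k i) x +
        ∑ l, (christoffel G k k l x * christoffel G l j i x -
          christoffel G k j l x * christoffel G l k i x) := by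
    intro k
    have e1 : fderiv ℝ (fun y => gam (fun k i j => christoffel G k i j y)) x (bv k) (bv j) (bv i) k
        = pd k (christoffel G k j i) x := by
      rw [gam_fderiv hd]
      fin_cases k <;> fin_cases j <;> fin_cases i <;> simp [Fin.sum_univ_three]
    have e2 : fderiv ℝ (fun y => gam (fun k i j => christoffel G k i j y)) x (bv j) (bv k) (bv i) k
        = pd j (christoffel G k k i) x := by
      rw [gam_fderiv hd]
      fin_cases k <;> fin_cases j <;> fin_cases i <;> simp [Fin.sum_univ_three]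
    have e3 : gam (fun k i j => christoffel G k i j x) (bv k)
        (gam (fun k i j => christoffel G k i j x) (bv j) (bv i)) k
        = ∑ l, christoffel G k k l x * christoffel G l j i x := by
      rw [gam_apply]
      simp only [gam_bv]
      fin_cases k <;> simp [Fin.sum_univ_three]
    have e4 : gam (fun k i j => christoffel G k i j x) (bv j)
        (gam (fun k i j => christoffel G k i j x) (bv k) (bv i)) k
        = ∑ l, christoffel G k j l x * christoffel G l k i x := by
      rw [gam_apply]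
      simp only [gam_bv]
      fin_cases j <;> simp [Fin.sum_univ_three]
    simp only [curv, Pi.add_apply, Pi.sub_apply, e1, e2, e3, e4, Finset.sum_sub_distrib]
    ring
  simp only [h1]
  unfold ricci
  rw [← Finset.sum_add_distrib]
  refine Finset.sum_congr rfl fun k _ => ?_
  rw [hpd k k j i, hpd j k k i]
  congr 1
  refine Finset.sum_congr rfl fun l _ => ?_
  rw [hs0 l j i, hs0 l k i]

theorem eq_sum_bv3 (u : V3) : u = u 0 • bv 0 + u 1 • bv 1 + u 2 • bv 2 := by
  conv_lhs => rw [eq_sum_bv u, Fin.sum_univ_three]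

theorem curv_lin1 (Γ : V3 → V3 →L[ℝ] V3 →L[ℝ] V3) (x u v w : V3) (k : Fin 3) :
    curv Γ x u v w k = ∑ l, u l * curv Γ x (bv l) v w k := by
  conv_lhs => rw [eq_sum_bv3 u]
  simp only [curv, map_add, map_smul, sum_apply, smul_apply, Finset.sum_apply, Pi.add_apply,
    Pi.sub_apply, Pi.smul_apply, smul_eq_mul, Fin.sum_univ_three, add_apply]
  ring

theorem curv_lin2 (Γ : V3 → V3 →L[ℝ] V3 →L[ℝ] V3) (x u v w : V3) (k : Fin 3) :
    curv Γ x u v w k = ∑ l, v l * curv Γ x u (bv l) w k := by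
  conv_lhs => rw [eq_sum_bv3 v]
  simp only [curv, map_add, map_smul, sum_apply, smul_apply, Finset.sum_apply, Pi.add_apply,
    Pi.sub_apply, Pi.smul_apply, smul_eq_mul, Fin.sum_univ_three, add_apply]
  ring

theorem curv_lin3 (Γ : V3 → V3 →L[ℝ] V3 →L[ℝ] V3) (x u v w : V3) (k : Fin 3) :
    curv Γ x u v w k = ∑ l, w l * curv Γ x u v (bv l) k := by
  conv_lhs => rw [eq_sum_bv3 w]
  simp only [curv, map_add, map_smul, sum_apply, smul_apply, Finset.sum_apply, Pi.add_apply,
    Pi.sub_apply, Pi.smul_apply, smul_eq_mul, Fin.sum_univ_three, add_apply]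
  ring

theorem trace_inv_mul_transform (J G R : Matrix (Fin 3) (Fin 3) ℝ) (hJ : IsUnit J.det) :
    Matrix.trace ((J.transpose * G * J)⁻¹ * (J.transpose * R * J)) = Matrix.trace (G⁻¹ * R) := by
  have hJt : IsUnit J.transpose.det := by rwa [Matrix.det_transpose]
  rw [Matrix.mul_inv_rev, Matrix.mul_inv_rev]
  have h1 : J⁻¹ * (G⁻¹ * J.transpose⁻¹) * (J.transpose * R * J) = J⁻¹ * (G⁻¹ * R * J) := by
    simp only [Matrix.mul_assoc]
    rw [Matrix.nonsing_inv_mul_cancel_left _ _ hJt]
  rw [h1, Matrix.trace_mul_comm, Matrix.mul_assoc, Matrix.mul_nonsing_inv _ hJ, Matrix.mul_one]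

theorem trace_conj_eq (J A A' : Matrix (Fin 3) (Fin 3) ℝ) (hJ : IsUnit J.det)
    (h : J * A' = A * J) : Matrix.trace A' = Matrix.trace A := by
  have h1 : A' = J⁻¹ * (A * J) := by
    rw [← h, Matrix.nonsing_inv_mul_cancel_left _ _ hJ]
  rw [h1, Matrix.trace_mul_comm, Matrix.mul_assoc, Matrix.mul_nonsing_inv _ hJ, Matrix.mul_one]

/-- the matrix of a linear map -/
def jac (L : V3 →L[ℝ] V3) : Matrix (Fin 3) (Fin 3) ℝ := fun i j => L (bv j) i

theorem jac_mulVec (L : V3 →L[ℝ] V3) (u : V3) (k : Fin 3) : L u k = ∑ l, jac L k l * u l := by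
  conv_lhs => rw [eq_sum_bv u]
  simp only [map_sum, map_smul, Finset.sum_apply, Pi.smul_apply, smul_eq_mul, jac]
  exact Finset.sum_congr rfl fun _ _ => mul_comm _ _

theorem jac_isUnit (L : V3 →L[ℝ] V3) (h : Function.Surjective L) : IsUnit (jac L).det := by
  rw [← Matrix.isUnit_iff_isUnit_det, ← Matrix.mulVec_surjective_iff_isUnit]
  intro y
  obtain ⟨x, hx⟩ := h y
  refine ⟨x, ?_⟩
  ext k
  rw [← hx, jac_mulVec]
  rfl

theorem bil_jac (M : Matrix (Fin 3) (Fin 3) ℝ) (L : V3 →L[ℝ] V3) (i j : Fin 3) :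
    bil M (L (bv i)) (L (bv j)) = ((jac L).transpose * M * jac L) i j := by
  rw [bil_apply]
  simp only [Matrix.mul_apply, Matrix.transpose_apply, jac, Fin.sum_univ_three]
  ring

theorem bil_ext_bv {B B' : V3 →L[ℝ] V3 →L[ℝ] ℝ} (h : ∀ i j, B (bv i) (bv j) = B' (bv i) (bv j))
    (u v : V3) : B u v = B' u v := by
  rw [eq_sum_bv u, eq_sum_bv v]
  simp only [map_sum, map_smul, sum_apply, smul_apply, h]

theorem bil_nondeg {M : Matrix (Fin 3) (Fin 3) ℝ} (h : M.det ≠ 0) (u : V3)
    (hu : ∀ v, bil M u v = 0) : u = 0 := by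
  have h1 : Matrix.vecMul u M = 0 := by
    ext j
    have := hu (bv j)
    rw [bil_apply] at this
    simp only [Matrix.vecMul, dotProduct, Pi.zero_apply]
    rw [← this]
    refine Finset.sum_congr rfl fun i _ => ?_
    fin_cases j <;> simp [Fin.sum_univ_three] <;> ring
  by_contra hne
  exact h (Matrix.exists_vecMul_eq_zero_iff.mp ⟨u, hne, h1⟩)

end
end Pool.Agent.P598
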