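import Pool.Agent.P598.Curv3
open scoped ContDiff Topology
namespace Pool.Agent.P598
noncomputable section

theorem isUnit_of_det_ne {M : Matrix (Fin 3) (Fin 3) ℝ} (h : M.det ≠ 0) : IsUnit M.det :=
  isUnit_iff_ne_zero.mpr h

theorem continuousAt_det {G : V3 → Matrix (Fin 3) (Fin 3) ℝ} {x : V3}
    (hG : ∀ i j, ContinuousAt (fun y => G y i j) x) : ContinuousAt (fun y => (G y).det) x := by
  simp only [Matrix.det_fin_three]
  exact ((((((hG 0 0).mul (hG 1 1)).mul (hG 2 2)).sub (((hG 0 0).mul (hG 1 2)).mul (hG 2 1))).sub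
      (((hG 0 1).mul (hG 1 0)).mul (hG 2 2))).add (((hG 0 1).mul (hG 1 2)).mul (hG 2 0))).add
      (((hG 0 2).mul (hG 1 0)).mul (hG 2 1)) |>.sub (((hG 0 2).mul (hG 1 1)).mul (hG 2 0))

/-- Invariance of the scalar curvature under a change of coordinates. -/
theorem scalarCurvature_transform {G G' : V3 → Matrix (Fin 3) (Fin 3) ℝ} {F : V3 → V3} {x : V3}
    (hF : ContDiffAt ℝ 3 F x)
    (hG : ∀ i j, ContDiffAt ℝ 2 (fun y => G y i j) (F x))
    (hs : ∀ᶠ y in 𝓝 (F x), ∀ i j, G y i j = G y j i)
    (hdet : (G (F x)).det ≠ 0)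
    (hsurj : ∀ᶠ y in 𝓝 x, Function.Surjective (fderiv ℝ F y))
    (hGG' : ∀ᶠ y in 𝓝 x, ∀ i j,
      G' y i j = bil (G (F y)) (fderiv ℝ F y (bv i)) (fderiv ℝ F y (bv j))) :
    scalarCurvature G' x = scalarCurvature G (F x) := by
  have hFc : ContinuousAt F x := hF.continuousAt
  have hA : ContDiffAt ℝ 2 (fderiv ℝ F) x := hF.fderiv_right (m := 2) (by norm_num)
  have hJc : ∀ i j, ContDiffAt ℝ 2 (fun y => fderiv ℝ F y (bv j) i) x := by
    intro i j
    have h1 : ContDiffAt ℝ 2 (fun y => fderiv ℝ F y (bv j)) x := hA.clm_apply contDiffAt_const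
    exact contDiffAt_pi.mp h1 i
  have hGF : ∀ i j, ContDiffAt ℝ 2 (fun y => G (F y) i j) x := by
    intro i j
    exact ContDiffAt.comp x (g := fun z => G z i j) (hG i j) (hF.of_le (by norm_num))
  -- smoothness of `G'`
  have hG' : ∀ i j, ContDiffAt ℝ 2 (fun y => G' y i j) x := by
    intro i j
    have h1 : (fun y => G' y i j) =ᶠ[𝓝 x]
        fun y => bil (G (F y)) (fderiv ℝ F y (bv i)) (fderiv ℝ F y (bv j)) := by
      filter_upwards [hGG'] with y hy using hy i j
    refine ContDiffAt.congr_of_eventuallyEq ?_ h1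
    simp only [bil_apply]
    refine ContDiffAt.sum fun a _ => ContDiffAt.sum fun b _ => ?_
    exact (hGF a b).mul ((hJc a i).mul (hJc b j))
  have hs' : ∀ᶠ y in 𝓝 x, ∀ i j, G' y i j = G' y j i := by
    filter_upwards [hGG', hFc.eventually hs] with y hy hy2 i j
    rw [hy i j, hy j i, bil_apply, bil_apply, Finset.sum_comm]
    refine Finset.sum_congr rfl fun a _ => Finset.sum_congr rfl fun b _ => ?_
    rw [hy2 b a]; ring
  have hJdet : ∀ᶠ y in 𝓝 x, IsUnit (jac (fderiv ℝ F y)).det := by
    filter_upwards [hsurj] with y hy using jac_isUnit _ hy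
  have hG'J : ∀ᶠ y in 𝓝 x, G' y = (jac (fderiv ℝ F y)).transpose * G (F y) * jac (fderiv ℝ F y) := by
    filter_upwards [hGG'] with y hy
    ext i j
    rw [hy, bil_jac]
  have hdetev : ∀ᶠ z in 𝓝 (F x), (G z).det ≠ 0 :=
    (continuousAt_det fun i j => (hG i j).continuousAt).eventually_ne hdet
  have hdet'ev : ∀ᶠ y in 𝓝 x, (G' y).det ≠ 0 := by
    filter_upwards [hG'J, hJdet, hFc.eventually hdetev] with y h1 h2 h3
    rw [h1, Matrix.det_mul, Matrix.det_mul, Matrix.det_transpose]
    exact mul_ne_zero (mul_ne_zero h2.ne_zero h3) h2.ne_zero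
  have hdet' := hdet'ev.self_of_nhds
  -- Christoffel symbols
  have hC : ∀ k i j, ContDiffAt ℝ 1 (christoffel G k i j) (F x) := fun k i j =>
    contDiffAt_christoffel (n := 1) (fun i j => by simpa using! hG i j) hdet k i j
  have hC' : ∀ k i j, ContDiffAt ℝ 1 (christoffel G' k i j) x := fun k i j =>
    contDiffAt_christoffel (n := 1) (fun i j => by simpa using! hG' i j) hdet' k i j
  have hCd : ∀ k i j, DifferentiableAt ℝ (christoffel G k i j) (F x) := fun k i j =>
    (hC k i j).differentiableAt (by norm_num)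
  have hCd' : ∀ k i j, DifferentiableAt ℝ (christoffel G' k i j) x := fun k i j =>
    (hC' k i j).differentiableAt (by norm_num)
  have hGev : ∀ᶠ z in 𝓝 (F x), ∀ i j, DifferentiableAt ℝ (fun y => G y i j) z := by
    rw [Filter.eventually_all]; intro i
    rw [Filter.eventually_all]; intro j
    filter_upwards [(hG i j).eventually (by norm_num)] with y hy using
      hy.differentiableAt (by norm_num)
  have hG'ev : ∀ᶠ z in 𝓝 x, ∀ i j, DifferentiableAt ℝ (fun y => G' y i j) z := by
    rw [Filter.eventually_all]; intro i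
    rw [Filter.eventually_all]; intro j
    filter_upwards [(hG' i j).eventually (by norm_num)] with y hy using
      hy.differentiableAt (by norm_num)
  set Γ : V3 → V3 →L[ℝ] V3 →L[ℝ] V3 := fun y => gam (fun k i j => christoffel G k i j y) with hΓdef
  set Γ' : V3 → V3 →L[ℝ] V3 →L[ℝ] V3 := fun y => gam (fun k i j => christoffel G' k i j y)
    with hΓ'def
  have hΓ : DifferentiableAt ℝ Γ (F x) := (gam_hasFDerivAt hCd).differentiableAt
  have hΓ' : DifferentiableAt ℝ Γ' x := (gam_hasFDerivAt hCd').differentiableAt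
  -- the transformation rule of the Christoffel symbols, near `x`
  have hid : ∀ᶠ y in 𝓝 x, ∀ v w, fderiv ℝ F y (Γ' y v w) =
      Γ (F y) (fderiv ℝ F y v) (fderiv ℝ F y w) + fderiv ℝ (fderiv ℝ F) y v w := by
    filter_upwards [hF.eventually (by norm_num), hFc.eventually hGev, hG'ev,
      hFc.eventually hs, hs', hFc.eventually hdetev, hdet'ev, hsurj, hGG'.eventually_nhds]
      with y h1 h2 h3 h4 h5 h6 h7 h8 h9 v w
    refine lc_transform (B := fun z => bil (G z)) (B' := fun z => bil (G' z))
      (h1.of_le (by norm_num)) (bil_hasFDerivAt h2).differentiableAt ?_ ?_ h8 ?_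
      (bil_hasFDerivAt h3).differentiableAt ?_ ?_ v w
    · intro u v
      simp only [bil_apply]
      rw [Finset.sum_comm]
      refine Finset.sum_congr rfl fun a _ => Finset.sum_congr rfl fun b _ => ?_
      rw [h4 b a]; ring
    · intro u hu
      exact bil_nondeg h6 u hu
    · filter_upwards [h9] with z hz u v
      have h10 : ∀ i j, bil (G' z) (bv i) (bv j) =
          (((bil (G (F z))).comp (fderiv ℝ F z)).flip.comp (fderiv ℝ F z)).flip
            (bv i) (bv j) := by
        intro i j
        rw [bil_bv, hz i j]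
        rfl
      exact bil_ext_bv h10 u v
    · exact isLC_christoffel h2 (isUnit_of_det_ne h6) h4
    · exact isLC_christoffel h3 (isUnit_of_det_ne h7) h5
  have hcurv := fun u v w => curv_transform hF hΓ hΓ' hid u v w
  -- Ricci curvature
  have hJ := hJdet.self_of_nhds
  have hric : ∀ i j, ricci G' i j x =
      ∑ k, curv Γ (F x) (bv k) (fderiv ℝ F x (bv j)) (fderiv ℝ F x (bv i)) k := by
    intro i j
    rw [ricci_eq_sum_curv hs' hCd']
    set A' : Matrix (Fin 3) (Fin 3) ℝ := fun k m => curv Γ' x (bv m) (bv j) (bv i) k with hA'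
    set A : Matrix (Fin 3) (Fin 3) ℝ := fun k m =>
      curv Γ (F x) (bv m) (fderiv ℝ F x (bv j)) (fderiv ℝ F x (bv i)) k with hAA
    have h1 : jac (fderiv ℝ F x) * A' = A * jac (fderiv ℝ F x) := by
      ext k m
      have h2 := congrFun (hcurv (bv m) (bv j) (bv i)) k
      rw [jac_mulVec, curv_lin1] at h2
      rw [Matrix.mul_apply, Matrix.mul_apply]
      simp only [hA', hAA]
      rw [h2]
      exact Finset.sum_congr rfl fun l _ => mul_comm _ _
    have h3 := trace_conj_eq _ A A' hJ h1
    simpa [Matrix.trace, Matrix.diag, hA', hAA] using! h3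
  have hricT : ∀ i j, ricci G' i j x =
      ((jac (fderiv ℝ F x)).transpose * (Matrix.of fun i j => ricci G i j (F x)) *
        jac (fderiv ℝ F x)) i j := by
    intro i j
    rw [hric]
    have h1 : ∀ a b, ricci G a b (F x) = ∑ k, curv Γ (F x) (bv k) (bv b) (bv a) k := fun a b =>
      ricci_eq_sum_curv hs hCd a b
    simp only [Matrix.mul_apply, Matrix.transpose_apply, Matrix.of_apply, h1, jac]
    simp only [fun k => curv_lin2 Γ (F x) (bv k) (fderiv ℝ F x (bv j)) (fderiv ℝ F x (bv i)) k]
    simp only [fun k l => curv_lin3 Γ (F x) (bv k) (bv l) (fderiv ℝ F x (bv i)) k]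
    simp only [Fin.sum_univ_three]
    ring
  -- scalar curvature
  have hsc : ∀ (H : V3 → Matrix (Fin 3) (Fin 3) ℝ) (z : V3), scalarCurvature H z =
      Matrix.trace ((H z)⁻¹ * (Matrix.of fun i j => ricci H i j z).transpose) := by
    intro H z
    simp [scalarCurvature, Matrix.trace, Matrix.mul_apply]
  rw [hsc, hsc, hG'J.self_of_nhds]
  have h2 : (Matrix.of fun i j => ricci G' i j x).transpose = (jac (fderiv ℝ F x)).transpose *
      (Matrix.of fun i j => ricci G i j (F x)).transpose * jac (fderiv ℝ F x) := by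
    ext i j
    rw [Matrix.transpose_apply, Matrix.of_apply, hricT]
    simp only [Matrix.mul_apply, Matrix.transpose_apply, Matrix.of_apply, Fin.sum_univ_three]
    ring
  rw [h2, trace_inv_mul_transform _ _ _ hJ]

end
end Pool.Agent.P598
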