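import Pool.Agent.P598.Prof2
open scoped ContDiff Topology
open Set Filter
namespace Pool.Agent.P598
noncomputable section

/-- the profile functions and their properties -/
structure ProfData where
  Ng : ℝ → ℝ
  Pg : ℝ → ℝ
  Nt : ℝ → ℝ
  Pt : ℝ → ℝ
  e : ℝ
  c : ℝ
  e_pos : 0 < e
  c_pos : 0 < c
  g_smooth : ∀ Q, -e < Q → ContDiffAt ℝ ∞ Ng Q ∧ ContDiffAt ℝ ∞ Pg Q
  g_zero : ∀ Q, 1 / 16 ≤ Q → Ng Q = 0 ∧ Pg Q = 0
  g_gap : ∀ Q, 0 ≤ Q → Q < e → Ng Q = Pg Q + 1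
  g_nonneg : ∀ Q, 0 ≤ Ng Q ∧ 0 ≤ Pg Q
  g_good : ∀ Q, 0 ≤ Q → Good Ng Pg Q
  t_smooth : ∀ Q, 0 < Q → ContDiffAt ℝ ∞ Nt Q ∧ ContDiffAt ℝ ∞ Pt Q
  t_zero : ∀ Q, 1 / 16 ≤ Q → Nt Q = 0 ∧ Pt Q = 0
  t_nonneg : ∀ Q, 0 ≤ Nt Q ∧ 0 ≤ Pt Q
  t_good : ∀ Q, 0 < Q → Good Nt Pt Q
  t_blow : ∀ Q, 0 < Q → c / Q ≤ Real.exp (2 * Nt Q)

theorem exists_profData : Nonempty ProfData := by
  obtain ⟨Ng, Pg, e, h1, h2, h3, h4, h5, h6⟩ := exists_gap
  obtain ⟨Nt, Pt, k1, k2, k3, k4, c, k5, k6⟩ := exists_tail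
  exact ⟨⟨Ng, Pg, Nt, Pt, e, c, h1, k5, h2, h3, h4, h5, h6, k1, k2, k3, k4, k6⟩⟩

theorem ProfData.e_le (d : ProfData) : d.e ≤ 1 / 16 := by
  by_contra h
  push Not at h
  have h1 := d.g_gap (1 / 16) (by norm_num) h
  have h2 := d.g_zero (1 / 16) le_rfl
  rw [h2.1, h2.2] at h1
  norm_num at h1

/-- squared norm of the first complex coordinate -/
def aa (p : E4) : ℝ := p 0 ^ 2 + p 1 ^ 2

/-- squared norm of the second complex coordinate -/
def bb (p : E4) : ℝ := p 2 ^ 2 + p 3 ^ 2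

/-- the functions `Q` -/
def Qs (s : ℝ) (p : E4) : ℝ := aa p + 2 - 2 * s * (p 2 / Real.sqrt (bb p))

/-- the permutation exchanging `0, 1` and `2, 3` -/
def swE : Fin 4 ≃ Fin 4 where
  toFun := ![2, 3, 0, 1]
  invFun := ![2, 3, 0, 1]
  left_inv := by intro i; fin_cases i <;> rfl
  right_inv := by intro i; fin_cases i <;> rfl

/-- exchange of the two complex coordinates -/
def sw : E4 ≃ₗᵢ[ℝ] E4 := LinearIsometryEquiv.piLpCongrLeft 2 ℝ ℝ swE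

theorem sw_apply (p : E4) (i : Fin 4) : sw p i = p (swE.symm i) := by
  unfold sw
  rw [LinearIsometryEquiv.piLpCongrLeft_apply]
  rfl

@[simp] theorem sw0 (p : E4) : sw p 0 = p 2 := sw_apply p 0
@[simp] theorem sw1 (p : E4) : sw p 1 = p 3 := sw_apply p 1
@[simp] theorem sw2 (p : E4) : sw p 2 = p 0 := sw_apply p 2
@[simp] theorem sw3 (p : E4) : sw p 3 = p 1 := sw_apply p 3

@[simp] theorem sw_sw (p : E4) : sw (sw p) = p := by
  ext i; fin_cases i <;> simp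

@[simp] theorem aa_sw (p : E4) : aa (sw p) = bb p := by simp [aa, bb]
@[simp] theorem bb_sw (p : E4) : bb (sw p) = aa p := by simp [aa, bb]

theorem mem_S3 (p : E4) : p ∈ S3 ↔ aa p + bb p = 1 := by
  unfold S3 aa bb
  rw [Set.mem_ofPred_eq, EuclideanSpace.norm_eq, Real.sqrt_eq_one, Fin.sum_univ_four]
  simp only [Real.norm_eq_abs, sq_abs]
  constructor <;> intro h <;> linarith

theorem sw_mem_S3 {p : E4} (h : p ∈ S3) : sw p ∈ S3 := by
  rw [mem_S3] at *; simp; linarith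

theorem aa_nonneg (p : E4) : 0 ≤ aa p := by unfold aa; positivity
theorem bb_nonneg (p : E4) : 0 ≤ bb p := by unfold bb; positivity

theorem contDiff_coord4 (n : WithTop ℕ∞) (i : Fin 4) : ContDiff ℝ n (fun p : E4 => p i) :=
  (EuclideanSpace.proj (𝕜 := ℝ) i).contDiff

theorem contDiff_aa (n : WithTop ℕ∞) : ContDiff ℝ n aa :=
  ((contDiff_coord4 n 0).pow 2).add ((contDiff_coord4 n 1).pow 2)

theorem contDiff_bb (n : WithTop ℕ∞) : ContDiff ℝ n bb :=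
  ((contDiff_coord4 n 2).pow 2).add ((contDiff_coord4 n 3).pow 2)

theorem abs_ratio_le (p : E4) : |p 2 / Real.sqrt (bb p)| ≤ 1 := by
  rw [abs_div, abs_of_nonneg (Real.sqrt_nonneg _)]
  refine div_le_one_of_le₀ ?_ (Real.sqrt_nonneg _)
  apply Real.abs_le_sqrt
  unfold bb
  nlinarith [sq_nonneg (p 3)]

theorem aa_le_Qs {s : ℝ} (hs : s = 1 ∨ s = -1) (p : E4) : aa p ≤ Qs s p := by
  have h := abs_le.mp (abs_ratio_le p)
  unfold Qs
  rcases hs with rfl | rfl <;> linarith [h.1, h.2]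

theorem Qs_nonneg {s : ℝ} (hs : s = 1 ∨ s = -1) (p : E4) : 0 ≤ Qs s p :=
  (aa_nonneg p).trans (aa_le_Qs hs p)

theorem Qs_add (p : E4) : Qs 1 p + Qs (-1) p = 2 * aa p + 4 := by unfold Qs; ring

theorem contDiffAt_Qs (s : ℝ) {p : E4} (h : bb p ≠ 0) (n : WithTop ℕ∞) :
    ContDiffAt ℝ n (Qs s) p := by
  have h0 : 0 < bb p := lt_of_le_of_ne (bb_nonneg p) (Ne.symm h)
  unfold Qs
  refine (((contDiff_aa n).contDiffAt).add contDiffAt_const).sub (contDiffAt_const.mul ?_)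
  exact (contDiff_coord4 n 2).contDiffAt.div ((contDiff_bb n).contDiffAt.sqrt h)
    (Real.sqrt_ne_zero'.mpr h0)

theorem continuousAt_Qs (s : ℝ) {p : E4} (h : bb p ≠ 0) : ContinuousAt (Qs s) p :=
  (contDiffAt_Qs s h 0).continuousAt

theorem continuous_aa : Continuous aa := (contDiff_aa 0).continuous
theorem continuous_bb : Continuous bb := (contDiff_bb 0).continuous

variable (d : ProfData)

/-- the function `N₁` -/
def N1 (p : E4) : ℝ := d.Ng (Qs 1 p) + d.Nt (Qs (-1) p)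

/-- the function `Ψ₁` -/
def P1 (p : E4) : ℝ := d.Pg (Qs 1 p) + d.Pt (Qs (-1) p)

theorem N1_nonneg (p : E4) : 0 ≤ N1 d p := add_nonneg (d.g_nonneg _).1 (d.t_nonneg _).1
theorem P1_nonneg (p : E4) : 0 ≤ P1 d p := add_nonneg (d.g_nonneg _).2 (d.t_nonneg _).2

theorem N1_zero {p : E4} (h : 1 / 16 ≤ aa p) : N1 d p = 0 := by
  unfold N1
  rw [(d.g_zero _ (h.trans (aa_le_Qs (Or.inl rfl) p))).1,
    (d.t_zero _ (h.trans (aa_le_Qs (Or.inr rfl) p))).1]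
  norm_num

theorem P1_zero {p : E4} (h : 1 / 16 ≤ aa p) : P1 d p = 0 := by
  unfold P1
  rw [(d.g_zero _ (h.trans (aa_le_Qs (Or.inl rfl) p))).2,
    (d.t_zero _ (h.trans (aa_le_Qs (Or.inr rfl) p))).2]
  norm_num

theorem smooth_N1P1_of_aa {p : E4} (h : 1 / 16 < aa p) :
    ContDiffAt ℝ ∞ (N1 d) p ∧ ContDiffAt ℝ ∞ (P1 d) p := by
  have hev : ∀ᶠ q in 𝓝 p, 1 / 16 < aa q :=
    continuous_aa.continuousAt.eventually (Ioi_mem_nhds h)
  constructor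
  · refine (contDiffAt_const (c := (0:ℝ))).congr_of_eventuallyEq ?_
    filter_upwards [hev] with q hq using N1_zero d hq.le
  · refine (contDiffAt_const (c := (0:ℝ))).congr_of_eventuallyEq ?_
    filter_upwards [hev] with q hq using P1_zero d hq.le

theorem smooth_N1P1 {p : E4} (hb : bb p ≠ 0) (hq : Qs (-1) p ≠ 0) :
    ContDiffAt ℝ ∞ (N1 d) p ∧ ContDiffAt ℝ ∞ (P1 d) p := by
  have h1 : -d.e < Qs 1 p := by
    have := Qs_nonneg (Or.inl rfl) p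
    have := d.e_pos
    linarith
  have h2 : 0 < Qs (-1) p := lt_of_le_of_ne (Qs_nonneg (Or.inr rfl) p) (Ne.symm hq)
  have k1 := d.g_smooth _ h1
  have k2 := d.t_smooth _ h2
  constructor
  · exact (k1.1.comp p (contDiffAt_Qs 1 hb _)).add (k2.1.comp p (contDiffAt_Qs (-1) hb _))
  · exact (k1.2.comp p (contDiffAt_Qs 1 hb _)).add (k2.2.comp p (contDiffAt_Qs (-1) hb _))

/-- The conformal factor. -/
def mm (p : E4) : ℝ := Real.exp (2 * (N1 d p + N1 d (sw p)))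

/-- The coefficient of the square of `p₀ u₁ - p₁ u₀`. -/
def cz (p : E4) : ℝ :=
  (Real.exp (2 * (1 - aa p + P1 d p + N1 d (sw p))) - mm d p) / aa p

theorem mm_sw (p : E4) : mm d (sw p) = mm d p := by
  unfold mm; rw [sw_sw, add_comm]

/-- elementary bilinear forms -/
def EE (i j : Fin 4) : E4 →L[ℝ] E4 →L[ℝ] ℝ :=
  (EuclideanSpace.proj i : E4 →L[ℝ] ℝ).smulRight (EuclideanSpace.proj j : E4 →L[ℝ] ℝ)

theorem EE_apply (i j : Fin 4) (u v : E4) : EE i j u v = u i * v j := by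
  simp [EE]

/-- The metric. -/
def gg (p : E4) : E4 →L[ℝ] E4 →L[ℝ] ℝ :=
  mm d p • (EE 0 0 + EE 1 1 + EE 2 2 + EE 3 3)
    + ((cz d p * (p 0 * p 0)) • EE 1 1 - (cz d p * (p 0 * p 1)) • (EE 0 1 + EE 1 0)
      + (cz d p * (p 1 * p 1)) • EE 0 0)
    + ((cz d (sw p) * (sw p 0 * sw p 0)) • EE 3 3
      - (cz d (sw p) * (sw p 0 * sw p 1)) • (EE 2 3 + EE 3 2)
      + (cz d (sw p) * (sw p 1 * sw p 1)) • EE 2 2)

theorem gg_apply (p u v : E4) : gg d p u v =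
    mm d p * (u 0 * v 0 + u 1 * v 1 + u 2 * v 2 + u 3 * v 3)
      + cz d p * ((p 0 * u 1 - p 1 * u 0) * (p 0 * v 1 - p 1 * v 0))
      + cz d (sw p) * ((p 2 * u 3 - p 3 * u 2) * (p 2 * v 3 - p 3 * v 2)) := by
  simp only [gg, add_apply, sub_apply, smul_apply, EE_apply, sw0, sw1, smul_eq_mul]
  ring

theorem gg_sw (p u v : E4) : gg d (sw p) (sw u) (sw v) = gg d p u v := by
  rw [gg_apply, gg_apply, mm_sw, sw_sw]
  simp only [sw0, sw1, sw2, sw3]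
  ring

theorem gg_symm (p u v : E4) : gg d p u v = gg d p v u := by
  rw [gg_apply, gg_apply]; ring

end
end Pool.Agent.P598
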