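import Mathlib

/-!
# Definitions: knots, Riemannian metrics, scalar curvature and Seifert surfaces in the 3-sphere

Everything lives in Euclidean `ℝ⁴`; the 3-sphere is the unit sphere and the tangent space of the
sphere at `p` is the orthogonal complement of `p`.
-/

namespace Pool.Agent.P598

open scoped ContDiff ENNReal
open MeasureTheory

noncomputable section

/-- Euclidean 4-space. -/
abbrev E4 : Type := EuclideanSpace ℝ (Fin 4)

/-- The unit sphere of `ℝ⁴`. -/
def S3 : Set E4 := {p | ‖p‖ = 1}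

/-- A knot: the image of a smooth embedding of the circle `ℝ / 2πℤ` in the 3-sphere. -/
def IsKnot (K : Set E4) : Prop :=
  ∃ γ : ℝ → E4, ContDiff ℝ ∞ γ ∧ (∀ s, γ s ∈ S3) ∧ (∀ s, γ (s + 2 * Real.pi) = γ s) ∧
    (∀ s, deriv γ s ≠ 0) ∧ (∀ s t, γ s = γ t → ∃ n : ℤ, s - t = n * (2 * Real.pi)) ∧
    K = Set.range γ

/-- A field of `4 × 4` matrices on the ambient space `ℝ⁴`.  It is used to represent a metric on an
open subset of the 3-sphere: only the values of its bilinear form `form g p` at points `p` of that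
subset, on vectors tangent to the sphere, matter. -/
abbrev BilinField : Type := E4 → Fin 4 → Fin 4 → ℝ

/-- The bilinear form `(u, v) ↦ ∑ i j, g_{ij}(p) u_i v_j` of the field `g` at the point `p`. -/
def form (g : BilinField) (p u v : E4) : ℝ := ∑ i, ∑ j, g p i j * u i * v j

/-- `g` is a smooth Riemannian metric on the (relatively open) subset `U` of the 3-sphere. -/
structure IsRiemannianMetricOn (U : Set E4) (g : BilinField) : Prop where
  /-- the entries of `g` are smooth in a neighbourhood of every point of `U`. -/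
  smooth : ∀ p ∈ U, ∃ O : Set E4, IsOpen O ∧ p ∈ O ∧ ∀ i j, ContDiffOn ℝ ∞ (fun q => g q i j) O
  /-- `g` is symmetric on tangent vectors. -/
  symm : ∀ p ∈ U, ∀ u v : E4, inner ℝ p u = 0 → inner ℝ p v = 0 → form g p u v = form g p v u
  /-- `g` is positive definite on tangent vectors. -/
  pos : ∀ p ∈ U, ∀ v : E4, inner ℝ p v = 0 → v ≠ 0 → 0 < form g p v v

/-- `φ`, restricted to the open set `V` of `ℝ³`, is a smooth local parametrisation of the
3-sphere (an immersion of `V` in the sphere; both have dimension three). -/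
structure IsParamOn (V : Set (Fin 3 → ℝ)) (φ : (Fin 3 → ℝ) → E4) : Prop where
  isOpen : IsOpen V
  smooth : ContDiffOn ℝ ∞ φ V
  mem_sphere : ∀ x ∈ V, φ x ∈ S3
  immersion : ∀ x ∈ V, Function.Injective (fderiv ℝ φ x)

/-- The `i`-th coordinate vector field `∂ φ / ∂ x_i` of the parametrisation `φ`. -/
def coordVec (φ : (Fin 3 → ℝ) → E4) (x : Fin 3 → ℝ) (i : Fin 3) : E4 :=
  fderiv ℝ φ x (Pi.single i 1)

/-- The matrix `g_{ij}` of the pulled back form `φ^* g` in the coordinates of `ℝ³`. -/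
def pullbackMatrix (g : BilinField) (φ : (Fin 3 → ℝ) → E4) (x : Fin 3 → ℝ) :
    Matrix (Fin 3) (Fin 3) ℝ :=
  fun i j => form g (φ x) (coordVec φ x i) (coordVec φ x j)

/-- The partial derivative `∂ f / ∂ x_i`. -/
def pd (i : Fin 3) (f : (Fin 3 → ℝ) → ℝ) (x : Fin 3 → ℝ) : ℝ :=
  fderiv ℝ f x (Pi.single i 1)

/-- The Christoffel symbol `Γ^k_{ij}` of the metric with matrix `G`. -/
def christoffel (G : (Fin 3 → ℝ) → Matrix (Fin 3) (Fin 3) ℝ) (k i j : Fin 3)
    (x : Fin 3 → ℝ) : ℝ :=
  (1 / 2) * ∑ l, (G x)⁻¹ k l *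
    (pd i (fun y => G y j l) x + pd j (fun y => G y i l) x - pd l (fun y => G y i j) x)

/-- The Ricci curvature `R_{ij}` of the metric with matrix `G`, by the classical formula
`R_{ij} = ∂_k Γ^k_{ij} - ∂_j Γ^k_{ik} + Γ^k_{kl} Γ^l_{ij} - Γ^k_{jl} Γ^l_{ik}`. -/
def ricci (G : (Fin 3 → ℝ) → Matrix (Fin 3) (Fin 3) ℝ) (i j : Fin 3) (x : Fin 3 → ℝ) : ℝ :=
  ∑ k, (pd k (christoffel G k i j) x - pd j (christoffel G k i k) x) +
    ∑ k, ∑ l, (christoffel G k k l x * christoffel G l i j x -
      christoffel G k j l x * christoffel G l i k x)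

/-- The scalar curvature `g^{ij} R_{ij}` of the metric with matrix `G`.  The unit 3-sphere has
scalar curvature `6`. -/
def scalarCurvature (G : (Fin 3 → ℝ) → Matrix (Fin 3) (Fin 3) ℝ) (x : Fin 3 → ℝ) : ℝ :=
  ∑ i, ∑ j, (G x)⁻¹ i j * ricci G i j x

/-- The scalar curvature of `g` at the point `p` of the 3-sphere is at least `c`: this holds in
every smooth local parametrisation of the sphere around `p`. -/
def ScalarCurvatureGE (g : BilinField) (p : E4) (c : ℝ) : Prop :=
  ∀ (V : Set (Fin 3 → ℝ)) (φ : (Fin 3 → ℝ) → E4), IsParamOn V φ → ∀ x ∈ V, φ x = p →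
    c ≤ scalarCurvature (pullbackMatrix g φ) x

/-- `S` is a Seifert surface of `K`: a compact, connected, oriented surface smoothly embedded in
the 3-sphere with boundary `K`.  Around each point there are smooth local coordinates of the
sphere in which `S` is a coordinate plane (interior points), respectively in which `S` is a
coordinate half-plane with boundary line `K` (boundary points); the orientation is given by a
continuous field `ν` of unit normal vectors of `S`. -/
structure IsSeifertSurface (K S : Set E4) : Prop where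
  subset_sphere : S ⊆ S3
  isCompact : IsCompact S
  isConnected : IsConnected S
  boundary_subset : K ⊆ S
  interior_chart : ∀ p ∈ S \ K, ∃ (V : Set (Fin 3 → ℝ)) (φ : (Fin 3 → ℝ) → E4),
    IsParamOn V φ ∧ Set.InjOn φ V ∧ (∃ x ∈ V, φ x = p) ∧
      ∀ x ∈ V, φ x ∉ K ∧ (φ x ∈ S ↔ x 2 = 0)
  boundary_chart : ∀ p ∈ K, ∃ (V : Set (Fin 3 → ℝ)) (φ : (Fin 3 → ℝ) → E4),
    IsParamOn V φ ∧ Set.InjOn φ V ∧ (∃ x ∈ V, φ x = p) ∧
      ∀ x ∈ V, (φ x ∈ S ↔ x 2 = 0 ∧ 0 ≤ x 1) ∧ (φ x ∈ K ↔ x 2 = 0 ∧ x 1 = 0)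
  oriented : ∃ ν : E4 → E4, ContinuousOn ν S ∧ ∀ p ∈ S, ‖ν p‖ = 1 ∧ inner ℝ p (ν p) = 0 ∧
    ∀ v ∈ tangentConeAt ℝ S p, inner ℝ v (ν p) = 0

/-- The derivative of the parametrised surface `σ` at `y` in the direction `v`. -/
def dirVec (σ : ℝ × ℝ → E4) (y v : ℝ × ℝ) : E4 := fderiv ℝ σ y v

/-- The area density of the parametrised surface `σ` with respect to `g`, i.e. the square root of
the Gram determinant of the two partial derivatives of `σ`. -/
def areaDensity (g : BilinField) (σ : ℝ × ℝ → E4) (y : ℝ × ℝ) : ℝ :=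
  Real.sqrt (form g (σ y) (dirVec σ y (1, 0)) (dirVec σ y (1, 0)) *
      form g (σ y) (dirVec σ y (0, 1)) (dirVec σ y (0, 1)) -
    form g (σ y) (dirVec σ y (1, 0)) (dirVec σ y (0, 1)) ^ 2)

/-- `σ`, restricted to the open set `A` of `ℝ²`, is a smooth injectively immersed patch of the
set `T`. -/
structure IsPatch (T : Set E4) (A : Set (ℝ × ℝ)) (σ : ℝ × ℝ → E4) : Prop where
  isOpen : IsOpen A
  smooth : ContDiffOn ℝ ∞ σ A
  injOn : Set.InjOn σ A
  immersion : ∀ y ∈ A, Function.Injective (fderiv ℝ σ y)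
  mapsTo : Set.MapsTo σ A T

/-- The area, with respect to `g`, of a smooth surface `T` (without boundary): the supremum of the
total areas of finite families of pairwise disjoint patches of `T`. -/
def surfaceArea (g : BilinField) (T : Set E4) : ℝ≥0∞ :=
  ⨆ (n : ℕ) (A : Fin n → Set (ℝ × ℝ)) (σ : Fin n → ℝ × ℝ → E4)
    (_ : (∀ i, IsPatch T (A i) (σ i)) ∧ ∀ i j, i ≠ j → Disjoint (σ i '' A i) (σ j '' A j)),
    ∑ i, ∫⁻ y in A i, ENNReal.ofReal (areaDensity g (σ i) y)

end

end Pool.Agent.P598
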