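import Pool.Agent.P598.Defs

/-!
# Auxiliary versions of the definitions, for fields of continuous bilinear maps
-/

namespace Pool.Agent.P598

open scoped ContDiff ENNReal
open MeasureTheory

noncomputable section

/-- A field of continuous bilinear forms. -/
abbrev Bil0 : Type := E4 → E4 →L[ℝ] E4 →L[ℝ] ℝ

/-- version of `IsRiemannianMetricOn` -/
structure IsRiem0 (U : Set E4) (g : Bil0) : Prop where
  smooth : ∀ p ∈ U, ∃ O : Set E4, IsOpen O ∧ p ∈ O ∧ ContDiffOn ℝ ∞ g O
  symm : ∀ p ∈ U, ∀ u v : E4, inner ℝ p u = 0 → inner ℝ p v = 0 → g p u v = g p v u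
  pos : ∀ p ∈ U, ∀ v : E4, inner ℝ p v = 0 → v ≠ 0 → 0 < g p v v

/-- version of `pullbackMatrix` -/
def pullback0 (g : Bil0) (φ : (Fin 3 → ℝ) → E4) (x : Fin 3 → ℝ) :
    Matrix (Fin 3) (Fin 3) ℝ :=
  fun i j => g (φ x) (fderiv ℝ φ x (Pi.single i 1)) (fderiv ℝ φ x (Pi.single j 1))

/-- version of `ScalarCurvatureGE` -/
def ScalGE0 (g : Bil0) (p : E4) (c : ℝ) : Prop :=
  ∀ (V : Set (Fin 3 → ℝ)) (φ : (Fin 3 → ℝ) → E4), IsParamOn V φ → ∀ x ∈ V, φ x = p →
    c ≤ scalarCurvature (pullback0 g φ) x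

/-- version of `areaDensity` -/
def density0 (g : Bil0) (σ : ℝ × ℝ → E4) (y : ℝ × ℝ) : ℝ :=
  Real.sqrt (g (σ y) (fderiv ℝ σ y (1, 0)) (fderiv ℝ σ y (1, 0)) *
      g (σ y) (fderiv ℝ σ y (0, 1)) (fderiv ℝ σ y (0, 1)) -
    g (σ y) (fderiv ℝ σ y (1, 0)) (fderiv ℝ σ y (0, 1)) ^ 2)

/-- version of `surfaceArea` -/
def area0 (g : Bil0) (T : Set E4) : ℝ≥0∞ :=
  ⨆ (n : ℕ) (A : Fin n → Set (ℝ × ℝ)) (σ : Fin n → ℝ × ℝ → E4)
    (_ : (∀ i, IsPatch T (A i) (σ i)) ∧ ∀ i j, i ≠ j → Disjoint (σ i '' A i) (σ j '' A j)),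
    ∑ i, ∫⁻ y in A i, ENNReal.ofReal (density0 g (σ i) y)

/-- the matrix field of a field of bilinear maps -/
def toM (B : Bil0) : BilinField := fun p i j =>
  B p (EuclideanSpace.single i 1) (EuclideanSpace.single j 1)

theorem form_toM (B : Bil0) (p u v : E4) : form (toM B) p u v = B p u v := by
  have h : ∀ u : E4, u = ∑ i, u i • EuclideanSpace.single i (1:ℝ) := by
    intro u
    ext k
    fin_cases k <;> simp [Fin.sum_univ_four]
  conv_rhs => rw [h u, h v]
  unfold form toM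
  simp only [map_sum, map_smul, sum_apply, smul_apply, smul_eq_mul, Finset.sum_apply,
    Finset.mul_sum]
  rw [Finset.sum_comm]
  refine Finset.sum_congr rfl fun i _ => Finset.sum_congr rfl fun j _ => ?_
  ring

theorem pullback_toM (B : Bil0) (φ : (Fin 3 → ℝ) → E4) :
    pullbackMatrix (toM B) φ = pullback0 B φ := by
  funext x i j
  unfold pullbackMatrix pullback0 coordVec
  rw [form_toM]

theorem areaDensity_toM (B : Bil0) (σ : ℝ × ℝ → E4) : areaDensity (toM B) σ = density0 B σ := by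
  funext y
  unfold areaDensity density0 dirVec
  rw [form_toM, form_toM, form_toM]

theorem surfaceArea_toM (B : Bil0) (T : Set E4) : surfaceArea (toM B) T = area0 B T := by
  unfold surfaceArea area0
  simp only [areaDensity_toM]

theorem scal_toM {B : Bil0} {p : E4} {c : ℝ} (h : ScalGE0 B p c) :
    ScalarCurvatureGE (toM B) p c := by
  intro V φ hφ x hx hxp
  rw [pullback_toM]
  exact h V φ hφ x hx hxp

theorem isRiem_toM {U : Set E4} {B : Bil0} (h : IsRiem0 U B) : IsRiemannianMetricOn U (toM B) where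
  smooth := by
    intro p hp
    obtain ⟨O, h1, h2, h3⟩ := h.smooth p hp
    refine ⟨O, h1, h2, fun i j => ?_⟩
    exact (h3.clm_apply contDiffOn_const).clm_apply contDiffOn_const
  symm := by
    intro p hp u v hu hv
    rw [form_toM, form_toM]
    exact h.symm p hp u v hu hv
  pos := by
    intro p hp v hv hv0
    rw [form_toM]
    exact h.pos p hp v hv hv0

end

end Pool.Agent.P598
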