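import Pool.Agent.P598.Curv4
open scoped ContDiff Topology
namespace Pool.Agent.P598
noncomputable section

/-- diagonal metric with entries `exp (2 f_i)` -/
def dg (f : Fin 3 → V3 → ℝ) (y : V3) : Matrix (Fin 3) (Fin 3) ℝ :=
  Matrix.diagonal fun i => Real.exp (2 * f i y)

theorem dg_apply (f : Fin 3 → V3 → ℝ) (y : V3) (i j : Fin 3) :
    dg f y i j = if i = j then Real.exp (2 * f i y) else 0 := by
  simp [dg, Matrix.diagonal_apply]

theorem dg_inv_apply (f : Fin 3 → V3 → ℝ) (y : V3) (i j : Fin 3) :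
    (dg f y)⁻¹ i j = if i = j then Real.exp (-(2 * f i y)) else 0 := by
  have h : (dg f y)⁻¹ = Matrix.diagonal fun i => Real.exp (-(2 * f i y)) := by
    apply Matrix.inv_eq_right_inv
    rw [dg, Matrix.diagonal_mul_diagonal]
    simp [← Real.exp_add]
  rw [h, Matrix.diagonal_apply]

theorem pd_congr {f g : V3 → ℝ} {x : V3} (h : f =ᶠ[𝓝 x] g) (i : Fin 3) : pd i f x = pd i g x := by
  unfold pd; rw [h.fderiv_eq]

theorem pd_const (i : Fin 3) (c : ℝ) (x : V3) : pd i (fun _ => c) x = 0 := by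
  simp [pd]

theorem pd_add {f g : V3 → ℝ} {x : V3} (i : Fin 3) (hf : DifferentiableAt ℝ f x)
    (hg : DifferentiableAt ℝ g x) : pd i (fun y => f y + g y) x = pd i f x + pd i g x := by
  unfold pd; rw [fderiv_fun_add hf hg]; rfl

theorem pd_sub {f g : V3 → ℝ} {x : V3} (i : Fin 3) (hf : DifferentiableAt ℝ f x)
    (hg : DifferentiableAt ℝ g x) : pd i (fun y => f y - g y) x = pd i f x - pd i g x := by
  unfold pd; rw [fderiv_fun_sub hf hg]; rfl

theorem pd_mul {f g : V3 → ℝ} {x : V3} (i : Fin 3) (hf : DifferentiableAt ℝ f x)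
    (hg : DifferentiableAt ℝ g x) :
    pd i (fun y => f y * g y) x = pd i f x * g x + f x * pd i g x := by
  unfold pd; rw [fderiv_fun_mul hf hg]
  simp only [add_apply, smul_apply, smul_eq_mul]
  ring

theorem pd_const_mul {g : V3 → ℝ} {x : V3} (i : Fin 3) (c : ℝ)
    (hg : DifferentiableAt ℝ g x) :
    pd i (fun y => c * g y) x = c * pd i g x := by
  rw [pd_mul i (differentiableAt_const c) hg, pd_const]; ring

/-- chain rule -/
theorem pd_comp {h : ℝ → ℝ} {f : V3 → ℝ} {x : V3} (i : Fin 3) (hh : DifferentiableAt ℝ h (f x))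
    (hf : DifferentiableAt ℝ f x) : pd i (fun y => h (f y)) x = deriv h (f x) * pd i f x := by
  unfold pd
  have := (hh.hasDerivAt.comp_hasFDerivAt x hf.hasFDerivAt)
  have h2 := this.fderiv
  simp only [Function.comp_def] at h2
  rw [h2]
  simp

theorem pd_exp {f : V3 → ℝ} {x : V3} (i : Fin 3) (hf : DifferentiableAt ℝ f x) :
    pd i (fun y => Real.exp (f y)) x = Real.exp (f x) * pd i f x := by
  rw [pd_comp i Real.differentiableAt_exp hf]; simp

theorem pd_dg {f : Fin 3 → V3 → ℝ} {x : V3} (hf : ∀ i, DifferentiableAt ℝ (f i) x)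
    (m i j : Fin 3) : pd m (fun y => dg f y i j) x =
      if i = j then Real.exp (2 * f i x) * (2 * pd m (f i) x) else 0 := by
  simp only [dg_apply]
  by_cases h : i = j
  · simp only [h, if_true]
    rw [pd_exp m ((hf j).const_mul 2), pd_const_mul m 2 (hf j)]
  · simp only [h, if_false]
    exact pd_const m 0 x

theorem christoffel_dg {f : Fin 3 → V3 → ℝ} {x : V3} (hf : ∀ i, DifferentiableAt ℝ (f i) x)
    (k i j : Fin 3) : christoffel (dg f) k i j x =
      (if j = k then pd i (f k) x else 0) + (if i = k then pd j (f k) x else 0) -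
      (if i = j then Real.exp (2 * f i x - 2 * f k x) * pd k (f i) x else 0) := by
  unfold christoffel
  simp only [pd_dg hf, dg_inv_apply]
  have h1 : ∀ i, Real.exp (-(2 * f i x)) = (Real.exp (2 * f i x))⁻¹ := fun i => Real.exp_neg _
  have h2 : ∀ i k, Real.exp (2 * f i x - 2 * f k x) = Real.exp (2 * f i x) *
    (Real.exp (2 * f k x))⁻¹ := fun i k => by rw [Real.exp_sub, div_eq_mul_inv]
  simp only [h1, h2]
  have h3 : ∀ i, Real.exp (2 * f i x) ≠ 0 := fun i => (Real.exp_pos _).ne'
  have h30 := h3 0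
  have h31 := h3 1
  have h32 := h3 2
  generalize Real.exp (2 * f 0 x) = e0 at *
  fin_cases k <;> fin_cases i <;> fin_cases j <;> simp [Fin.sum_univ_three] <;> field_simp <;> ring


theorem contDiffAt_dg {n : WithTop ℕ∞} {f : Fin 3 → V3 → ℝ} {x : V3}
    (hf : ∀ i, ContDiffAt ℝ n (f i) x) (i j : Fin 3) :
    ContDiffAt ℝ n (fun y => dg f y i j) x := by
  simp only [dg_apply]
  by_cases h : i = j
  · simp only [h, if_true]
    exact (contDiffAt_const.mul (hf j)).exp
  · simp only [h, if_false]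
    exact contDiffAt_const

theorem dg_det_ne (f : Fin 3 → V3 → ℝ) (x : V3) : (dg f x).det ≠ 0 := by
  unfold dg
  rw [Matrix.det_diagonal]
  exact Finset.prod_ne_zero_iff.mpr fun i _ => (Real.exp_pos _).ne'

theorem dg_symm (f : Fin 3 → V3 → ℝ) (x : V3) (i j : Fin 3) : dg f x i j = dg f x j i := by
  simp only [dg_apply]
  by_cases h : i = j
  · subst h; rfl
  · simp [h, Ne.symm h]

theorem pd_christoffel_dg {f : Fin 3 → V3 → ℝ} {x : V3} (hf : ∀ i, ContDiffAt ℝ 2 (f i) x)
    (m k i j : Fin 3) : pd m (christoffel (dg f) k i j) x =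
      (if j = k then pd m (pd i (f k)) x else 0) + (if i = k then pd m (pd j (f k)) x else 0) -
      (if i = j then Real.exp (2 * f i x - 2 * f k x) *
        ((2 * pd m (f i) x - 2 * pd m (f k) x) * pd k (f i) x + pd m (pd k (f i)) x) else 0) := by
  have hev : ∀ᶠ y in 𝓝 x, ∀ i, DifferentiableAt ℝ (f i) y := by
    rw [Filter.eventually_all]; intro i
    filter_upwards [(hf i).eventually (by norm_num)] with y hy using
      hy.differentiableAt (by norm_num)
  have h0 : ∀ i, DifferentiableAt ℝ (f i) x := hev.self_of_nhds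
  have h1 : ∀ i j, DifferentiableAt ℝ (pd j (f i)) x := fun i j =>
    (contDiffAt_pd (n := 1) j (by simpa using! hf i)).differentiableAt (by norm_num)
  have h2 : christoffel (dg f) k i j =ᶠ[𝓝 x] fun y =>
      ((if j = k then pd i (f k) y else 0) + (if i = k then pd j (f k) y else 0)) -
      (if i = j then Real.exp (2 * f i y - 2 * f k y) * pd k (f i) y else 0) := by
    filter_upwards [hev] with y hy using christoffel_dg hy k i j
  rw [pd_congr h2]
  have hA : DifferentiableAt ℝ (fun y => if j = k then pd i (f k) y else 0) x := by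
    by_cases h : j = k
    · simp only [h, if_true]; exact h1 k i
    · simp only [h, if_false]; exact differentiableAt_const _
  have hB : DifferentiableAt ℝ (fun y => if i = k then pd j (f k) y else 0) x := by
    by_cases h : i = k
    · simp only [h, if_true]; exact h1 k j
    · simp only [h, if_false]; exact differentiableAt_const _
  have hE : DifferentiableAt ℝ (fun y => 2 * f i y - 2 * f k y) x :=
    ((h0 i).const_mul 2).sub ((h0 k).const_mul 2)
  have hC : DifferentiableAt ℝ (fun y => if i = j then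
      Real.exp (2 * f i y - 2 * f k y) * pd k (f i) y else 0) x := by
    by_cases h : i = j
    · simp only [h, if_true]; subst h; exact hE.exp.mul (h1 i k)
    · simp only [h, if_false]; exact differentiableAt_const _
  rw [pd_sub m (hA.fun_add hB) hC, pd_add m hA hB]
  congr 1
  · congr 1
    · by_cases h : j = k
      · simp only [h, if_true]
      · simp only [h, if_false]; exact pd_const _ _ _
    · by_cases h : i = k
      · simp only [h, if_true]
      · simp only [h, if_false]; exact pd_const _ _ _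
  · by_cases h : i = j
    · simp only [h, if_true]; subst h
      rw [pd_mul m hE.exp (h1 i k), pd_exp m hE, pd_sub m ((h0 i).const_mul 2) ((h0 k).const_mul 2),
        pd_const_mul m 2 (h0 i), pd_const_mul m 2 (h0 k)]
      change _ + _ * pd m (pd k (f i)) x = _
      ring
    · simp only [h, if_false]; exact pd_const _ _ _

/-- scalar curvature of a diagonal metric whose coefficients do not depend on the last
coordinate -/
theorem scalarCurvature_dg {f : Fin 3 → V3 → ℝ} {x : V3} (hf : ∀ i, ContDiffAt ℝ 2 (f i) x)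
    (h2 : ∀ i, ∀ᶠ y in 𝓝 x, pd 2 (f i) y = 0) :
    scalarCurvature (dg f) x =
      -2 * (Real.exp (-(2 * f 0 x)) * (pd 0 (pd 0 (f 1)) x + pd 0 (f 1) x ^ 2
          - pd 0 (f 1) x * pd 0 (f 0) x + pd 0 (pd 0 (f 2)) x + pd 0 (f 2) x ^ 2
          + pd 0 (f 2) x * (pd 0 (f 1) x - pd 0 (f 0) x))
        + Real.exp (-(2 * f 1 x)) * (pd 1 (pd 1 (f 0)) x + pd 1 (f 0) x ^ 2
          - pd 1 (f 0) x * pd 1 (f 1) x + pd 1 (pd 1 (f 2)) x + pd 1 (f 2) x ^ 2
          + pd 1 (f 2) x * (pd 1 (f 0) x - pd 1 (f 1) x))) := by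
  have hev : ∀ᶠ y in 𝓝 x, ∀ i, DifferentiableAt ℝ (f i) y := by
    rw [Filter.eventually_all]; intro i
    filter_upwards [(hf i).eventually (by norm_num)] with y hy using
      hy.differentiableAt (by norm_num)
  have h0 : ∀ i, DifferentiableAt ℝ (f i) x := hev.self_of_nhds
  have e2 : ∀ i, pd 2 (f i) x = 0 := fun i => (h2 i).self_of_nhds
  have e22 : ∀ i, pd 2 (pd 2 (f i)) x = 0 := by
    intro i
    rw [pd_congr (g := fun _ => 0) (h2 i), pd_const]
  unfold scalarCurvature
  simp only [dg_inv_apply]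
  have hsum : ∑ i, ∑ j, (if i = j then Real.exp (-(2 * f i x)) else 0) * ricci (dg f) i j x =
      ∑ i, Real.exp (-(2 * f i x)) * ricci (dg f) i i x := by
    refine Finset.sum_congr rfl fun i _ => ?_
    simp
  rw [hsum]
  have hE1 : ∀ i, Real.exp (-(2 * f i x)) = (Real.exp (2 * f i x))⁻¹ := fun i => Real.exp_neg _
  have hE2 : ∀ i k, Real.exp (2 * f i x - 2 * f k x) = Real.exp (2 * f i x) *
    (Real.exp (2 * f k x))⁻¹ := fun i k => by rw [Real.exp_sub, div_eq_mul_inv]
  have h30 : Real.exp (2 * f 0 x) ≠ 0 := (Real.exp_pos _).ne'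
  have h31 : Real.exp (2 * f 1 x) ≠ 0 := (Real.exp_pos _).ne'
  have h32 : Real.exp (2 * f 2 x) ≠ 0 := (Real.exp_pos _).ne'
  have r0 : ricci (dg f) 0 0 x = - (pd 0 (pd 0 (f 1)) x + pd 0 (pd 0 (f 2)) x
      + pd 0 (f 1) x ^ 2 + pd 0 (f 2) x ^ 2 - pd 0 (f 0) x * (pd 0 (f 1) x + pd 0 (f 2) x)) -
      Real.exp (2 * f 0 x - 2 * f 1 x) * (pd 1 (pd 1 (f 0)) x + pd 1 (f 0) x *
        (pd 1 (f 0) x - pd 1 (f 1) x + pd 1 (f 2) x)) := by
    unfold ricci
    simp only [pd_christoffel_dg hf, christoffel_dg h0, hE2, Fin.sum_univ_three, e2, e22]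
    simp
    field_simp
    ring
  have r1 : ricci (dg f) 1 1 x = - (pd 1 (pd 1 (f 0)) x + pd 1 (pd 1 (f 2)) x
      + pd 1 (f 0) x ^ 2 + pd 1 (f 2) x ^ 2 - pd 1 (f 1) x * (pd 1 (f 0) x + pd 1 (f 2) x)) -
      Real.exp (2 * f 1 x - 2 * f 0 x) * (pd 0 (pd 0 (f 1)) x + pd 0 (f 1) x *
        (pd 0 (f 1) x - pd 0 (f 0) x + pd 0 (f 2) x)) := by
    unfold ricci
    simp only [pd_christoffel_dg hf, christoffel_dg h0, hE2, Fin.sum_univ_three, e2, e22]
    simp
    field_simp
    ring
  have r2 : ricci (dg f) 2 2 x =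
      - Real.exp (2 * f 2 x - 2 * f 0 x) * (pd 0 (pd 0 (f 2)) x + pd 0 (f 2) x *
        (pd 0 (f 2) x - pd 0 (f 0) x + pd 0 (f 1) x))
      - Real.exp (2 * f 2 x - 2 * f 1 x) * (pd 1 (pd 1 (f 2)) x + pd 1 (f 2) x *
        (pd 1 (f 2) x - pd 1 (f 1) x + pd 1 (f 0) x)) := by
    unfold ricci
    simp only [pd_christoffel_dg hf, christoffel_dg h0, hE2, Fin.sum_univ_three, e2, e22]
    simp
    field_simp
    ring
  rw [Fin.sum_univ_three, r0, r1, r2]
  simp only [hE1, hE2]
  field_simp
  ring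

end
end Pool.Agent.P598
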