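import Pool.Agent.P598.Data
open scoped ContDiff Topology
open Set Filter
namespace Pool.Agent.P598
noncomputable section

/-- the smooth function `(exp (-2x) - 1) / x` -/
def hh (x : ℝ) : ℝ := dslope (fun x : ℝ => Real.exp (-2 * x)) 0 x

theorem hh_of_ne {x : ℝ} (h : x ≠ 0) : hh x = (Real.exp (-2 * x) - 1) / x := by
  unfold hh
  rw [dslope_of_ne _ h, slope_def_field]
  simp

theorem hh_contDiffAt (x : ℝ) : ContDiffAt ℝ ∞ hh x := by
  by_cases h : x = 0
  · subst h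
    have h1 : AnalyticAt ℝ (fun x : ℝ => Real.exp (-2 * x)) 0 := by fun_prop
    obtain ⟨p, hp⟩ := h1
    have h2 := hp.has_fpower_series_dslope_fslope
    exact h2.analyticAt.contDiffAt
  · have h1 : hh =ᶠ[𝓝 x] fun x => (Real.exp (-2 * x) - 1) / x := by
      filter_upwards [isOpen_ne.mem_nhds h] with y hy using hh_of_ne hy
    refine ContDiffAt.congr_of_eventuallyEq ?_ h1
    exact (((contDiffAt_const.mul contDiffAt_id).exp).sub contDiffAt_const).div contDiffAt_id h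

theorem smul_const_smooth {E G : Type*} [NormedAddCommGroup E] [NormedSpace ℝ E]
    [NormedAddCommGroup G] [NormedSpace ℝ G] {n : WithTop ℕ∞} {f : E → ℝ} {p : E}
    (hf : ContDiffAt ℝ n f p) (B : G) : ContDiffAt ℝ n (fun q => f q • B) p :=
  hf.smul contDiffAt_const

theorem smul_const_smooth4 {n : WithTop ℕ∞} {f : E4 → ℝ} {p : E4}
    (hf : ContDiffAt ℝ n f p) (B : E4 →L[ℝ] E4 →L[ℝ] ℝ) : ContDiffAt ℝ n (fun q => f q • B) p :=
  smul_const_smooth (G := E4 →L[ℝ] E4 →L[ℝ] ℝ) hf B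

variable (d : ProfData)

theorem contDiff_sw (n : WithTop ℕ∞) : ContDiff ℝ n (fun p : E4 => sw p) :=
  sw.toContinuousLinearEquiv.contDiff

theorem smooth_sw {f : E4 → ℝ} {p : E4} (h : ContDiffAt ℝ ∞ f (sw p)) :
    ContDiffAt ℝ ∞ (fun q => f (sw q)) p :=
  ContDiffAt.comp p (g := f) h (contDiff_sw _).contDiffAt

theorem smooth_mm {p : E4} (h1 : ContDiffAt ℝ ∞ (N1 d) p) (h2 : ContDiffAt ℝ ∞ (N1 d) (sw p)) :
    ContDiffAt ℝ ∞ (mm d) p :=
  (contDiffAt_const.mul (h1.add (smooth_sw h2))).exp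

theorem smooth_cz {p : E4} (h1 : ContDiffAt ℝ ∞ (N1 d) p) (h2 : ContDiffAt ℝ ∞ (N1 d) (sw p))
    (h3 : ContDiffAt ℝ ∞ (P1 d) p) (ha : aa p ≠ 0) : ContDiffAt ℝ ∞ (cz d) p := by
  refine ContDiffAt.div ?_ (contDiff_aa _).contDiffAt ha
  refine ContDiffAt.sub ?_ (smooth_mm d h1 h2)
  exact (contDiffAt_const.mul (((contDiffAt_const.sub (contDiff_aa _).contDiffAt).add h3).add
    (smooth_sw h2))).exp

/-- generic points -/
def regA : Set E4 := {p | aa p ≠ 0 ∧ bb p ≠ 0}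

/-- points near the gap of the first circle -/
def regB : Set E4 := {p | 1 / 16 < bb p ∧ Qs 1 p < d.e}

theorem isOpen_regA : IsOpen regA :=
  (isOpen_ne_fun continuous_aa continuous_const).inter
    (isOpen_ne_fun continuous_bb continuous_const)

theorem isOpen_regB : IsOpen (regB d) := by
  rw [isOpen_iff_mem_nhds]
  rintro p ⟨h1, h2⟩
  have h3 : bb p ≠ 0 := by linarith
  filter_upwards [continuous_bb.continuousAt.eventually (Ioi_mem_nhds h1),
    (continuousAt_Qs 1 h3).eventually (Iio_mem_nhds h2)] with q h4 h5 using ⟨h4, h5⟩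

theorem regA_sw {p : E4} (h : p ∈ regA) : sw p ∈ regA := by
  obtain ⟨h1, h2⟩ := h
  exact ⟨by simpa using! h2, by simpa using! h1⟩

theorem regA_N1 {p : E4} (h : p ∈ regA) :
    ContDiffAt ℝ ∞ (N1 d) p ∧ ContDiffAt ℝ ∞ (P1 d) p := by
  obtain ⟨h1, h2⟩ := h
  refine smooth_N1P1 d h2 ?_
  have h3 := aa_le_Qs (Or.inr rfl) p
  have h4 : 0 < aa p := lt_of_le_of_ne (aa_nonneg p) (Ne.symm h1)
  linarith

theorem regB_N1 {p : E4} (h : p ∈ regB d) :
    ContDiffAt ℝ ∞ (N1 d) p ∧ ContDiffAt ℝ ∞ (P1 d) p := by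
  obtain ⟨h1, h2⟩ := h
  refine smooth_N1P1 d (by linarith) ?_
  have h3 := Qs_add p
  have h4 := aa_nonneg p
  have h5 := d.e_le
  linarith

theorem regB_N1' {p : E4} (h : p ∈ regB d) :
    ContDiffAt ℝ ∞ (N1 d) (sw p) ∧ ContDiffAt ℝ ∞ (P1 d) (sw p) :=
  smooth_N1P1_of_aa d (by simpa using! h.1)

theorem regB_eq {p : E4} (h : p ∈ regB d) : N1 d p = P1 d p + 1 ∧ N1 d (sw p) = 0 ∧
    P1 d (sw p) = 0 := by
  obtain ⟨h1, h2⟩ := h
  have h3 := Qs_add p
  have h4 := aa_nonneg p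
  have h5 := d.e_le
  have h6 := d.t_zero (Qs (-1) p) (by linarith)
  refine ⟨?_, N1_zero d (by simpa using! h1.le), P1_zero d (by simpa using! h1.le)⟩
  unfold N1 P1
  rw [h6.1, h6.2, d.g_gap _ (Qs_nonneg (Or.inl rfl) p) h2]
  ring

theorem regB_cz {p : E4} (h : p ∈ regB d) {i j : Fin 4} (hi : i = 0 ∨ i = 1) (hj : j = 0 ∨ j = 1) :
    cz d p * (p i * p j) = mm d p * hh (aa p) * (p i * p j) := by
  by_cases ha : aa p = 0
  · have h0 : p i = 0 := by
      unfold aa at ha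
      rcases hi with rfl | rfl <;> nlinarith [sq_nonneg (p 0), sq_nonneg (p 1)]
    rw [h0]; ring
  · obtain ⟨e1, e2, e3⟩ := regB_eq d h
    congr 1
    unfold cz
    rw [hh_of_ne ha]
    have e4 : Real.exp (2 * (1 - aa p + P1 d p + N1 d (sw p))) =
        mm d p * Real.exp (-2 * aa p) := by
      unfold mm
      rw [← Real.exp_add, e1, e2]; ring_nf
    rw [e4]; ring

theorem smooth_czij {p : E4} (h : p ∈ regA ∪ regB d) {i j : Fin 4} (hi : i = 0 ∨ i = 1)
    (hj : j = 0 ∨ j = 1) : ContDiffAt ℝ ∞ (fun q => cz d q * (q i * q j)) p := by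
  have hc : ContDiffAt ℝ ∞ (fun q : E4 => q i * q j) p :=
    ((contDiff_coord4 _ i).mul (contDiff_coord4 _ j)).contDiffAt
  rcases h with h | h
  · exact (smooth_cz d (regA_N1 d h).1 (regA_N1 d (regA_sw h)).1 (regA_N1 d h).2 h.1).mul hc
  · have h1 : (fun q : E4 => cz d q * (q i * q j)) =ᶠ[𝓝 p]
        fun q => mm d q * hh (aa q) * (q i * q j) := by
      filter_upwards [(isOpen_regB d).mem_nhds h] with q hq using regB_cz d hq hi hj
    refine ContDiffAt.congr_of_eventuallyEq ?_ h1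
    exact ((smooth_mm d (regB_N1 d h).1 (regB_N1' d h).1).mul
      (ContDiffAt.comp p (g := hh) (hh_contDiffAt _) (contDiff_aa _).contDiffAt)).mul hc

theorem smooth_cz_sw {p : E4} (h : p ∈ regB d) :
    ContDiffAt ℝ ∞ (cz d) (sw p) := by
  refine smooth_cz d (regB_N1' d h).1 ?_ (regB_N1' d h).2 ?_
  · rw [sw_sw]; exact (regB_N1 d h).1
  · have := h.1; simp; linarith

/-- the regular set of the metric -/
def reg : Set E4 := regA ∪ regB d ∪ (fun p => sw p) ⁻¹' regB d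

theorem isOpen_reg : IsOpen (reg d) :=
  (isOpen_regA.union (isOpen_regB d)).union
    ((isOpen_regB d).preimage (contDiff_sw 0).continuous)

theorem smooth_czij' {p : E4} (h : p ∈ reg d) {i j : Fin 4} (hi : i = 0 ∨ i = 1)
    (hj : j = 0 ∨ j = 1) : ContDiffAt ℝ ∞ (fun q => cz d q * (q i * q j)) p := by
  rcases h with h | h
  · exact smooth_czij d h hi hj
  · have hc : ContDiffAt ℝ ∞ (fun q : E4 => q i * q j) p :=
      ((contDiff_coord4 _ i).mul (contDiff_coord4 _ j)).contDiffAt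
    have := smooth_cz_sw d (p := sw p) h
    rw [sw_sw] at this
    exact this.mul hc

theorem reg_sw {p : E4} (h : p ∈ reg d) : sw p ∈ reg d := by
  rcases h with (h | h) | h
  · exact Or.inl (Or.inl (regA_sw h))
  · right; show sw (sw p) ∈ regB d; rwa [sw_sw]
  · exact Or.inl (Or.inr h)

theorem reg_N1 {p : E4} (h : p ∈ reg d) :
    ContDiffAt ℝ ∞ (N1 d) p ∧ ContDiffAt ℝ ∞ (P1 d) p := by
  rcases h with (h | h) | h
  · exact regA_N1 d h
  · exact regB_N1 d h
  · have := regB_N1' d (p := sw p) h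
    rwa [sw_sw] at this

theorem contDiffAt_gg {p : E4} (h : p ∈ reg d) : ContDiffAt ℝ ∞ (gg d) p := by
  have k := fun (i j : Fin 4) (hi : i = 0 ∨ i = 1) (hj : j = 0 ∨ j = 1) =>
    smooth_czij' d h hi hj
  have k' := fun (i j : Fin 4) (hi : i = 0 ∨ i = 1) (hj : j = 0 ∨ j = 1) =>
    smooth_sw (f := fun q => cz d q * (q i * q j)) (smooth_czij' d (reg_sw d h) hi hj)
  have hm := smooth_mm d (reg_N1 d h).1 (reg_N1 d (reg_sw d h)).1
  unfold gg
  refine ContDiffAt.add (ContDiffAt.add (smul_const_smooth4 hm _) ?_) ?_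
  · refine ContDiffAt.add (ContDiffAt.sub ?_ ?_) ?_
    · exact smul_const_smooth4 (k 0 0 (by simp) (by simp)) _
    · exact smul_const_smooth4 (k 0 1 (by simp) (by simp)) _
    · exact smul_const_smooth4 (k 1 1 (by simp) (by simp)) _
  · refine ContDiffAt.add (ContDiffAt.sub ?_ ?_) ?_
    · exact smul_const_smooth4 (k' 0 0 (by simp) (by simp)) _
    · exact smul_const_smooth4 (k' 0 1 (by simp) (by simp)) _
    · exact smul_const_smooth4 (k' 1 1 (by simp) (by simp)) _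

/-- the singular points of the metric on the sphere -/
def sing : Set E4 := {p | p ∈ S3 ∧ ((aa p = 0 ∧ d.e ≤ Qs 1 p) ∨ (bb p = 0 ∧ d.e ≤ Qs 1 (sw p)))}

theorem mem_reg_of_not_sing {p : E4} (hp : p ∈ S3) (h : p ∉ sing d) : p ∈ reg d := by
  have h1 := (mem_S3 p).mp hp
  by_cases ha : aa p = 0
  · left; right
    refine ⟨by linarith, ?_⟩
    by_contra hc
    push Not at hc
    exact h ⟨hp, Or.inl ⟨ha, hc⟩⟩
  by_cases hb : bb p = 0
  · right
    refine ⟨by simp; linarith, ?_⟩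
    by_contra hc
    push Not at hc
    exact h ⟨hp, Or.inr ⟨hb, hc⟩⟩
  · exact Or.inl (Or.inl ⟨ha, hb⟩)

theorem one_le_mm (p : E4) : 1 ≤ mm d p := by
  unfold mm
  rw [Real.one_le_exp_iff]
  have := N1_nonneg d p
  have := N1_nonneg d (sw p)
  linarith

/-- bound used for the domination of the round metric -/
theorem dom_aux {p : E4} (ha : aa p ≤ 1) (u : E4) :
    u 0 ^ 2 + u 1 ^ 2 ≤ mm d p * (u 0 ^ 2 + u 1 ^ 2) + cz d p * (p 0 * u 1 - p 1 * u 0) ^ 2 := by
  have hm := one_le_mm d p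
  by_cases h0 : aa p = 0
  · have h00 : p 0 = 0 := by unfold aa at h0; nlinarith [sq_nonneg (p 0), sq_nonneg (p 1)]
    have h01 : p 1 = 0 := by unfold aa at h0; nlinarith [sq_nonneg (p 0), sq_nonneg (p 1)]
    rw [h00, h01]
    nlinarith [sq_nonneg (u 0), sq_nonneg (u 1)]
  · have hpos : 0 < aa p := lt_of_le_of_ne (aa_nonneg p) (Ne.symm h0)
    have hX : 1 ≤ Real.exp (2 * (1 - aa p + P1 d p + N1 d (sw p))) := by
      rw [Real.one_le_exp_iff]
      have := N1_nonneg d (sw p)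
      have := P1_nonneg d p
      linarith
    have hid : (p 0 * u 1 - p 1 * u 0) ^ 2 + (p 0 * u 0 + p 1 * u 1) ^ 2 =
        aa p * (u 0 ^ 2 + u 1 ^ 2) := by unfold aa; ring
    set X := Real.exp (2 * (1 - aa p + P1 d p + N1 d (sw p))) with hXdef
    have hcz : cz d p = (X - mm d p) / aa p := rfl
    set l := (p 0 * u 1 - p 1 * u 0) ^ 2 with hl
    set k := (p 0 * u 0 + p 1 * u 1) ^ 2 with hk
    have hl0 : 0 ≤ l := sq_nonneg _
    have hk0 : 0 ≤ k := sq_nonneg _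
    have hu : u 0 ^ 2 + u 1 ^ 2 = (l + k) / aa p := by rw [hid]; field_simp
    rw [hcz, hu]
    have e1 : mm d p * ((l + k) / aa p) + (X - mm d p) / aa p * l =
        (mm d p * k + X * l) / aa p := by ring
    rw [e1]
    refine div_le_div_of_nonneg_right ?_ hpos.le
    nlinarith

theorem norm_sq4 (u : E4) : ‖u‖ ^ 2 = u 0 ^ 2 + u 1 ^ 2 + u 2 ^ 2 + u 3 ^ 2 := by
  rw [EuclideanSpace.norm_sq_eq, Fin.sum_univ_four]
  simp

theorem gg_dom {p : E4} (hp : p ∈ S3) (u : E4) : ‖u‖ ^ 2 ≤ gg d p u u := by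
  have h1 := (mem_S3 p).mp hp
  have ha := aa_nonneg p
  have hb := bb_nonneg p
  have k1 := dom_aux d (p := p) (by linarith) u
  have k2 := dom_aux d (p := sw p) (by rw [aa_sw]; linarith) (sw u)
  rw [mm_sw] at k2
  simp only [sw0, sw1] at k2
  rw [gg_apply, norm_sq4]
  nlinarith [k1, k2]

theorem gg_isRiem0 {K : Set E4} (hK : sing d ⊆ K) :
    IsRiem0 (S3 \ K) (gg d) where
  smooth := by
    intro p hp
    refine ⟨reg d, isOpen_reg d, mem_reg_of_not_sing d hp.1 (fun h => hp.2 (hK h)), ?_⟩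
    intro q hq
    exact (contDiffAt_gg d hq).contDiffWithinAt
  symm := fun p _ u v _ _ => gg_symm d p u v
  pos := by
    intro p hp v _ hv
    have := gg_dom d hp.1 v
    have h2 : 0 < ‖v‖ ^ 2 := by positivity
    linarith

end
end Pool.Agent.P598
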