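import Pool.Agent.P598.Lift
open scoped ContDiff Topology
open Set Filter
namespace Pool.Agent.P598
noncomputable section

theorem two_le_inf : (2 : WithTop ℕ∞) ≤ ∞ := 
  WithTop.coe_le_coe.mpr (le_top : (2 : ℕ∞) ≤ ⊤)

theorem three_le_inf : (3 : WithTop ℕ∞) ≤ ∞ := 
  WithTop.coe_le_coe.mpr (le_top : (3 : ℕ∞) ≤ ⊤)

theorem bil_lin (B : E4 →L[ℝ] E4 →L[ℝ] ℝ) (L : V3 →L[ℝ] E4) (u v : V3) :
    B (L u) (L v) = bil (fun i j => B (L (bv i)) (L (bv j))) u v := by
  rw [bil_apply]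
  conv_lhs => rw [eq_sum_bv u, eq_sum_bv v]
  simp only [map_sum, map_smul, sum_apply, smul_apply, smul_eq_mul, Finset.sum_apply,
    Finset.mul_sum]
  rw [Finset.sum_comm]
  refine Finset.sum_congr rfl fun i _ => Finset.sum_congr rfl fun j _ => ?_
  ring

variable (d : ProfData)

/-- the profile functions near a point with `aa < 15/16` -/
theorem local_profile {p : E4} (ha : 0 < aa p) (hb : 1 / 16 < bb p) (hb0 : bb p ≠ 0) :
    ∃ (N Ψ : ℝ → ℝ) (s : ℝ), (s = 1 ∨ s = -1) ∧ ContDiffAt ℝ ∞ N (Qs s p) ∧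
      ContDiffAt ℝ ∞ Ψ (Qs s p) ∧ Good N Ψ (Qs s p) ∧
      ∀ᶠ q in 𝓝 p, N1 d q = N (Qs s q) ∧ P1 d q = Ψ (Qs s q) ∧ N1 d (sw q) = 0 ∧
        P1 d (sw q) = 0 := by
  have hsw : ∀ᶠ q in 𝓝 p, N1 d (sw q) = 0 ∧ P1 d (sw q) = 0 := by
    filter_upwards [continuous_bb.continuousAt.eventually (Ioi_mem_nhds hb)] with q hq
    exact ⟨N1_zero d (by simpa using! (le_of_lt hq)), P1_zero d (by simpa using! (le_of_lt hq))⟩
  have hadd := Qs_add p
  by_cases h : Qs 1 p < 1
  · have h2 : 1 / 16 < Qs (-1) p := by linarith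
    have h3 := Qs_nonneg (Or.inl rfl) p
    have hk := d.g_smooth (Qs 1 p) (by have := d.e_pos; linarith)
    refine ⟨d.Ng, d.Pg, 1, Or.inl rfl, hk.1, hk.2, d.g_good _ h3, ?_⟩
    filter_upwards [hsw, (continuousAt_Qs (-1) hb0).eventually (Ioi_mem_nhds h2)] with q hq h4
    have h5 := d.t_zero _ (le_of_lt h4)
    refine ⟨?_, ?_, hq.1, hq.2⟩
    · unfold N1; rw [h5.1, add_zero]
    · unfold P1; rw [h5.2, add_zero]
  · push Not at h
    have h2 : 1 / 16 < Qs 1 p := by linarith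
    have h3 : 0 < Qs (-1) p := ha.trans_le (aa_le_Qs (Or.inr rfl) p)
    have hk := d.t_smooth (Qs (-1) p) h3
    refine ⟨d.Nt, d.Pt, -1, Or.inr rfl, hk.1, hk.2, d.t_good _ h3, ?_⟩
    filter_upwards [hsw, (continuousAt_Qs 1 hb0).eventually (Ioi_mem_nhds h2)] with q hq h4
    have h5 := d.g_zero _ (le_of_lt h4)
    refine ⟨?_, ?_, hq.1, hq.2⟩
    · unfold N1; rw [h5.1, zero_add]
    · unfold P1; rw [h5.2, zero_add]

/-- generic points of the first half -/
theorem sc_generic {V : Set V3} {φ : V3 → E4} (hφ : IsParamOn V φ) {x : V3} (hx : x ∈ V)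
    (ha : aa (φ x) ≠ 0) (hb : bb (φ x) ≠ 0) (hle : aa (φ x) ≤ 1 / 2) :
    6 ≤ scalarCurvature (pullback0 (gg d) φ) x := by
  have hS := hφ.mem_sphere x hx
  have h1 := (mem_S3 _).mp hS
  have hbig : 1 / 16 < bb (φ x) := by linarith
  have ha0 : 0 < aa (φ x) := lt_of_le_of_ne (aa_nonneg _) (Ne.symm ha)
  obtain ⟨N, Ψ, s, hs, hN, hΨ, hgood, hev⟩ := local_profile d ha0 hbig hb
  obtain ⟨y, hy, hsin, hcos⟩ := exists_HH hS ha hb
  have hVx : V ∈ 𝓝 x := hφ.isOpen.mem_nhds hx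
  have hφx : ContDiffAt ℝ ∞ φ x := hφ.smooth.contDiffAt hVx
  obtain ⟨F, hF, hFx, hFev⟩ := exists_lift hφx
    (by filter_upwards [hVx] with z hz using hφ.mem_sphere z hz) hy.symm hsin hcos
  have hQ : Qs s (φ x) = QH s y := by rw [← hy]; exact Qs_HH s hcos
  rw [hQ] at hN hΨ hgood
  have hN2 : ContDiffAt ℝ 2 N (QH s y) := hN.of_le two_le_inf
  have hΨ2 : ContDiffAt ℝ 2 Ψ (QH s y) := hΨ.of_le two_le_inf
  have key := sc_fH_ge (N := N) (Ψ := Ψ) (s := s) (x := y) hsin hcos hN2 hΨ2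
    (by rcases hs with rfl | rfl <;> norm_num)
    (by rw [← aa_HH, hy]; exact hle) hgood
  have hFs : ContDiffAt ℝ 3 F x := hF.of_le three_le_inf
  have hFd : ∀ᶠ z in 𝓝 x, DifferentiableAt ℝ F z := by
    filter_upwards [hFs.eventually (by norm_num)] with z hz using
      hz.differentiableAt (by norm_num)
  have hHd : ∀ z, DifferentiableAt ℝ HH z := (contDiff_HH 1).differentiable (by norm_num)
  -- the derivative of `φ = H ∘ F`
  have hD : ∀ᶠ z in 𝓝 x, ∀ u, fderiv ℝ φ z u = fderiv ℝ HH (F z) (fderiv ℝ F z u) := by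
    filter_upwards [hFev.eventually_nhds, hFd] with z h2 h3 u
    have h4 : φ =ᶠ[𝓝 z] HH ∘ F := by
      filter_upwards [h2] with w hw using hw.symm
    rw [h4.fderiv_eq, fderiv_comp z (hHd _) h3]
    rfl
  have hFc : ContinuousAt F x := hF.continuousAt
  rw [← hFx] at key hsin hcos hN2 hΨ2
  rw [scalarCurvature_transform (G := dg (fH N Ψ s)) (F := F) hFs
    (fun i j => contDiffAt_dg (contDiffAt_fH hsin.ne' hcos.ne' hN2 hΨ2) i j)
    (Eventually.of_forall fun z i j => dg_symm _ _ i j) (dg_det_ne _ _) ?_ ?_]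
  · exact key
  · filter_upwards [hD, hVx] with z h2 h3
    have hinj : Function.Injective (fderiv ℝ F z) := by
      intro u v huv
      apply hφ.immersion z h3
      rw [h2, h2, huv]
    exact (LinearMap.injective_iff_surjective (f := (fderiv ℝ F z).toLinearMap)).mp hinj
  · have hcs : ∀ᶠ z in 𝓝 x, 0 < Real.sin (F z 0) ∧ 0 < Real.cos (F z 0) := by
      have c1 : ContinuousAt (fun z => Real.sin (F z 0)) x :=
        (contDiff_sinc 0 0).continuous.continuousAt.comp hFc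
      have c2 : ContinuousAt (fun z => Real.cos (F z 0)) x :=
        (contDiff_cosc 0 0).continuous.continuousAt.comp hFc
      exact (c1.eventually (Ioi_mem_nhds hsin)).and (c2.eventually (Ioi_mem_nhds hcos))
    filter_upwards [hD, hFev, hφx.continuousAt.eventually hev, hcs] with z h2 h3 h4 h5 i j
    unfold pullback0
    rw [h2, h2, ← h3, bil_lin]
    rw [← h3, Qs_HH s h5.2] at h4
    have hM : (fun i j => gg d (HH (F z)) (fderiv ℝ HH (F z) (bv i)) (fderiv ℝ HH (F z) (bv j)))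
        = dg (fH N Ψ s) (F z) := by
      funext i j
      exact pull_HH d h5.1 h5.2 h4.1 h4.2.1 h4.2.2.1 h4.2.2.2 i j
    rw [hM]

/-- swapping the two coordinates of a parametrisation -/
theorem isParamOn_sw {V : Set V3} {φ : V3 → E4} (hφ : IsParamOn V φ) :
    IsParamOn V (fun z => sw (φ z)) where
  isOpen := hφ.isOpen
  smooth := (contDiff_sw ∞).comp_contDiffOn hφ.smooth
  mem_sphere := fun x hx => sw_mem_S3 (hφ.mem_sphere x hx)
  immersion := by
    intro x hx
    have hd : DifferentiableAt ℝ φ x :=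
      (hφ.smooth.contDiffAt (hφ.isOpen.mem_nhds hx)).differentiableAt (by simp)
    have h1 : fderiv ℝ (fun z => sw (φ z)) x =
        (sw.toContinuousLinearEquiv : E4 →L[ℝ] E4).comp (fderiv ℝ φ x) :=
      ((sw.toContinuousLinearEquiv : E4 →L[ℝ] E4).hasFDerivAt.comp x hd.hasFDerivAt).fderiv
    rw [h1]
    intro u v huv
    apply hφ.immersion x hx
    exact sw.injective huv

theorem fderiv_sw {V : Set V3} {φ : V3 → E4} (hφ : IsParamOn V φ) {x : V3} (hx : x ∈ V) (u : V3) :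
    fderiv ℝ (fun z => sw (φ z)) x u = sw (fderiv ℝ φ x u) := by
  have hd : DifferentiableAt ℝ φ x :=
    (hφ.smooth.contDiffAt (hφ.isOpen.mem_nhds hx)).differentiableAt (by simp)
  have h1 : fderiv ℝ (fun z => sw (φ z)) x =
      (sw.toContinuousLinearEquiv : E4 →L[ℝ] E4).comp (fderiv ℝ φ x) :=
    ((sw.toContinuousLinearEquiv : E4 →L[ℝ] E4).hasFDerivAt.comp x hd.hasFDerivAt).fderiv
  rw [h1]; rfl

theorem christoffel_congr {G G' : V3 → Matrix (Fin 3) (Fin 3) ℝ} {x : V3} (h : G =ᶠ[𝓝 x] G')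
    (k i j : Fin 3) : christoffel G k i j x = christoffel G' k i j x := by
  unfold christoffel
  rw [h.eq_of_nhds]
  congr 1
  refine Finset.sum_congr rfl fun l _ => ?_
  have e : ∀ a b c, pd a (fun y => G y b c) x = pd a (fun y => G' y b c) x := by
    intro a b c
    apply pd_congr
    filter_upwards [h] with y hy
    rw [hy]
  rw [e, e, e]

theorem scalarCurvature_congr {G G' : V3 → Matrix (Fin 3) (Fin 3) ℝ} {x : V3}
    (h : G =ᶠ[𝓝 x] G') : scalarCurvature G x = scalarCurvature G' x := by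
  have hc : ∀ k i j, christoffel G k i j =ᶠ[𝓝 x] christoffel G' k i j := by
    intro k i j
    filter_upwards [h.eventuallyEq_nhds] with y hy using christoffel_congr hy k i j
  have hc0 : ∀ k i j, christoffel G k i j x = christoffel G' k i j x := fun k i j =>
    (hc k i j).eq_of_nhds
  have hp : ∀ m k i j, pd m (christoffel G k i j) x = pd m (christoffel G' k i j) x :=
    fun m k i j => pd_congr (hc k i j) m
  unfold scalarCurvature ricci
  simp only [hp, hc0, h.eq_of_nhds]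

theorem sc_sw {V : Set V3} {φ : V3 → E4} (hφ : IsParamOn V φ) {x : V3} (hx : x ∈ V) :
    scalarCurvature (pullback0 (gg d) (fun z => sw (φ z))) x =
      scalarCurvature (pullback0 (gg d) φ) x := by
  apply scalarCurvature_congr
  filter_upwards [hφ.isOpen.mem_nhds hx] with z hz
  funext i j
  unfold pullback0
  rw [fderiv_sw hφ hz, fderiv_sw hφ hz, gg_sw]

/-- generic points -/
theorem sc_generic' {V : Set V3} {φ : V3 → E4} (hφ : IsParamOn V φ) {x : V3} (hx : x ∈ V)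
    (ha : aa (φ x) ≠ 0) (hb : bb (φ x) ≠ 0) :
    6 ≤ scalarCurvature (pullback0 (gg d) φ) x := by
  have h1 := (mem_S3 _).mp (hφ.mem_sphere x hx)
  rcases le_total (aa (φ x)) (1 / 2) with h | h
  · exact sc_generic d hφ hx ha hb h
  · rw [← sc_sw d hφ hx]
    refine sc_generic d (isParamOn_sw hφ) hx ?_ ?_ ?_
    · rwa [aa_sw]
    · rwa [bb_sw]
    · rw [aa_sw]; linarith

theorem pullback_smooth {V : Set V3} {φ : V3 → E4} (hφ : IsParamOn V φ) {x : V3} (hx : x ∈ V)
    (hreg : φ x ∈ reg d) (i j : Fin 3) :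
    ContDiffAt ℝ 2 (fun y => pullback0 (gg d) φ y i j) x := by
  have hφx : ContDiffAt ℝ ∞ φ x := hφ.smooth.contDiffAt (hφ.isOpen.mem_nhds hx)
  have hg : ContDiffAt ℝ 2 (fun y => gg d (φ y)) x :=
    (ContDiffAt.comp (F := E4) x (g := gg d) (contDiffAt_gg d hreg) hφx).of_le two_le_inf
  have hD : ContDiffAt ℝ 2 (fderiv ℝ φ) x :=
    (hφx.of_le three_le_inf).fderiv_right (m := 2) (by norm_num)
  have hDi : ∀ i, ContDiffAt ℝ 2 (fun y => fderiv ℝ φ y (Pi.single i 1)) x := fun i =>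
    hD.clm_apply contDiffAt_const
  unfold pullback0
  exact (hg.clm_apply (hDi i)).clm_apply (hDi j)

theorem pullback_det {V : Set V3} {φ : V3 → E4} (hφ : IsParamOn V φ) {x : V3} (hx : x ∈ V) :
    (pullback0 (gg d) φ x).det ≠ 0 := by
  intro h
  obtain ⟨v, hv0, hv⟩ := Matrix.exists_mulVec_eq_zero_iff.mpr h
  have h1 : gg d (φ x) (fderiv ℝ φ x v) (fderiv ℝ φ x v) = 0 := by
    rw [bil_lin, bil_apply]
    have h2 : ∀ i, ∑ j, gg d (φ x) (fderiv ℝ φ x (bv i)) (fderiv ℝ φ x (bv j)) * v j = 0 := by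
      intro i
      exact congrFun hv i
    calc _ = ∑ i, v i * ∑ j, gg d (φ x) (fderiv ℝ φ x (bv i)) (fderiv ℝ φ x (bv j)) * v j := by
          refine Finset.sum_congr rfl fun i _ => ?_
          rw [Finset.mul_sum]
          refine Finset.sum_congr rfl fun j _ => by ring
      _ = 0 := by simp only [h2, mul_zero, Finset.sum_const_zero]
  have h3 := gg_dom d (hφ.mem_sphere x hx) (fderiv ℝ φ x v)
  rw [h1] at h3
  have h4 : fderiv ℝ φ x v ≠ 0 := by
    intro h5
    apply hv0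
    apply hφ.immersion x hx
    rw [h5, map_zero]
  have h5 : 0 < ‖fderiv ℝ φ x v‖ ^ 2 := by positivity
  linarith

/-- generic points are dense -/
theorem frequently_generic {V : Set V3} {φ : V3 → E4} (hφ : IsParamOn V φ) {x : V3} (hx : x ∈ V) :
    ∃ᶠ y in 𝓝 x, aa (φ y) ≠ 0 ∧ bb (φ y) ≠ 0 := by
  have main : ∀ {ψ : V3 → E4}, IsParamOn V ψ → bb (ψ x) ≠ 0 →
      ∃ᶠ y in 𝓝 x, aa (ψ y) ≠ 0 ∧ bb (ψ y) ≠ 0 := by
    intro ψ hψ hb hcon
    have hψx : ContDiffAt ℝ ∞ ψ x := hψ.smooth.contDiffAt (hψ.isOpen.mem_nhds hx)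
    have hd : DifferentiableAt ℝ ψ x := hψx.differentiableAt (by simp)
    have hbe : ∀ᶠ y in 𝓝 x, bb (ψ y) ≠ 0 :=
      (continuous_bb.continuousAt.comp hψx.continuousAt).eventually_ne hb
    have hae : ∀ᶠ y in 𝓝 x, aa (ψ y) = 0 := by
      filter_upwards [hcon, hbe] with y h1 h2
      by_contra h3
      exact h1 ⟨h3, h2⟩
    have hz : ∀ k : Fin 4, k = 0 ∨ k = 1 → ∀ u, fderiv ℝ ψ x u k = 0 := by
      intro k hk u
      have h1 : HasFDerivAt (fun y => ψ y k)
          ((EuclideanSpace.proj k : E4 →L[ℝ] ℝ).comp (fderiv ℝ ψ x)) x :=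
        (EuclideanSpace.proj k : E4 →L[ℝ] ℝ).hasFDerivAt.comp x hd.hasFDerivAt
      have h2 : (fun y => ψ y k) =ᶠ[𝓝 x] fun _ => (0:ℝ) := by
        filter_upwards [hae] with y hy
        unfold aa at hy
        rcases hk with rfl | rfl <;> nlinarith [sq_nonneg (ψ y 0), sq_nonneg (ψ y 1)]
      have h3 := (h1.congr_of_eventuallyEq h2.symm).unique (hasFDerivAt_const (0:ℝ) x)
      have h4 := congrArg (fun L : V3 →L[ℝ] ℝ => L u) h3
      simpa using! h4
    -- the kernel of the other two coordinates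
    let L : V3 →ₗ[ℝ] (Fin 2 → ℝ) :=
      LinearMap.pi ![((EuclideanSpace.proj 2 : E4 →L[ℝ] ℝ).comp (fderiv ℝ ψ x)).toLinearMap,
        ((EuclideanSpace.proj 3 : E4 →L[ℝ] ℝ).comp (fderiv ℝ ψ x)).toLinearMap]
    have hker : LinearMap.ker L ≠ ⊥ := LinearMap.ker_ne_bot_of_finrank_lt (by simp)
    obtain ⟨u, hu, hu0⟩ := (Submodule.ne_bot_iff _).mp hker
    apply hu0
    apply hψ.immersion x hx
    rw [map_zero]
    rw [LinearMap.mem_ker] at hu
    have e2 : fderiv ℝ ψ x u 2 = 0 := congrFun hu 0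
    have e3 : fderiv ℝ ψ x u 3 = 0 := congrFun hu 1
    ext k
    fin_cases k
    · exact hz 0 (Or.inl rfl) u
    · exact hz 1 (Or.inr rfl) u
    · exact e2
    · exact e3
  have h1 := (mem_S3 _).mp (hφ.mem_sphere x hx)
  by_cases hb : bb (φ x) = 0
  · have h2 := main (isParamOn_sw hφ) (by rw [bb_sw]; linarith)
    refine h2.mono ?_
    intro y hy
    rw [aa_sw, bb_sw] at hy
    exact ⟨hy.2, hy.1⟩
  · exact main hφ hb

/-- The scalar curvature of the metric is at least `6`. -/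
theorem gg_scalarCurvatureGE {p : E4} (hp : p ∈ S3) (h : p ∉ sing d) :
    ScalGE0 (gg d) p 6 := by
  intro V φ hφ x hx hxp
  have hreg : φ x ∈ reg d := by rw [hxp]; exact mem_reg_of_not_sing d hp h
  have hc : ContinuousAt (scalarCurvature (pullback0 (gg d) φ)) x :=
    (contDiffAt_scalarCurvature (n := 0) (fun i j => by
      simpa using! pullback_smooth d hφ hx hreg i j) (pullback_det d hφ hx)).continuousAt
  by_contra hlt
  push Not at hlt
  have h1 := hc.eventually (Iio_mem_nhds hlt)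
  have h2 := frequently_generic hφ hx
  have h3 : ∀ᶠ y in 𝓝 x, y ∈ V := hφ.isOpen.mem_nhds hx
  obtain ⟨y, ⟨hy1, hy2⟩, hy3, hy4⟩ := (h2.and_eventually (h1.and h3)).exists
  have := sc_generic' d hφ hy4 hy1 hy2
  exact absurd hy3 (not_lt.mpr this)

end
end Pool.Agent.P598
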