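import Pool.Agent.P598.Area
import Pool.Agent.P598.Sc6
open scoped ContDiff Topology ENNReal
open Set Filter MeasureTheory
namespace Pool.Agent.P598
noncomputable section

/-- the inclusion of the plane -/
def iL : (ℝ × ℝ) →L[ℝ] V3 :=
  (ContinuousLinearMap.fst ℝ ℝ ℝ).smulRight (bv 0) + (ContinuousLinearMap.snd ℝ ℝ ℝ).smulRight (bv 1)

theorem iL_apply (y : ℝ × ℝ) : iL y = y.1 • bv 0 + y.2 • bv 1 := rfl

@[simp] theorem iL_0 (y : ℝ × ℝ) : iL y 0 = y.1 := by simp [iL_apply]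
@[simp] theorem iL_1 (y : ℝ × ℝ) : iL y 1 = y.2 := by simp [iL_apply]
@[simp] theorem iL_2 (y : ℝ × ℝ) : iL y 2 = 0 := by simp [iL_apply]

theorem iL_injective : Function.Injective iL := by
  intro y z h
  ext
  · have := congrFun h 0; simpa using! this
  · have := congrFun h 1; simpa using! this

variable (d : ProfData)

theorem Qs_qq (s : ℝ) : Qs s qq = 2 + 2 * s := by
  unfold Qs aa bb
  simp

theorem infinite_area {K S : Set E4} (hsing : sing d ⊆ K) (hq : qq ∈ K)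
    (hKa : ∀ p ∈ K, Qs (-1) p < 1 → aa p = 0) (hS : IsSeifertSurface K S) :
    area0 (gg d) (S \ K) = ⊤ := by
  obtain ⟨V, φ, hφ, hinjφ, ⟨x, hxV, hxq⟩, hch⟩ := hS.boundary_chart qq hq
  obtain ⟨hx2, hx1⟩ := (hch x hxV).2.mp (by rw [hxq]; exact hq)
  set ι : ℝ × ℝ → V3 := fun y => x + iL y with hι
  have hι0 : ι 0 = x := by simp [hι]
  have hιd : ∀ y, HasFDerivAt ι iL y := fun y => iL.hasFDerivAt.const_add x
  have hιs : ContDiff ℝ ∞ ι := contDiff_const.add iL.contDiff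
  have hι1 : ∀ y, ι y 1 = y.2 := by intro y; simp [hι, hx1]
  have hι2 : ∀ y, ι y 2 = 0 := by intro y; simp [hι, hx2]
  have hιinj : Function.Injective ι := fun y z h => iL_injective (add_left_cancel h)
  set σ : ℝ × ℝ → E4 := fun y => φ (ι y) with hσdef
  have hφat : ∀ z ∈ V, ContDiffAt ℝ ∞ φ z := fun z hz =>
    hφ.smooth.contDiffAt (hφ.isOpen.mem_nhds hz)
  have hσs : ∀ y, ι y ∈ V → ContDiffAt ℝ ∞ σ y := fun y hy =>
    ContDiffAt.comp y (g := φ) (hφat _ hy) hιs.contDiffAt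
  have hσd : ∀ y, ι y ∈ V → fderiv ℝ σ y = (fderiv ℝ φ (ι y)).comp iL := by
    intro y hy
    have h1 : HasFDerivAt φ (fderiv ℝ φ (ι y)) (ι y) :=
      ((hφat _ hy).differentiableAt (by simp)).hasFDerivAt
    exact (h1.comp y (hιd y)).fderiv
  have hσinj : ∀ y, ι y ∈ V → Function.Injective (fderiv ℝ σ y) := by
    intro y hy
    rw [hσd y hy]
    exact (hφ.immersion _ hy).comp iL_injective
  have hVopen : IsOpen (ι ⁻¹' V) := hφ.isOpen.preimage hιs.continuous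
  have hV0 : ∀ᶠ y in 𝓝 (0 : ℝ × ℝ), ι y ∈ V :=
    hVopen.mem_nhds (by rw [mem_preimage, hι0]; exact hxV)
  have hσ0 : σ 0 = qq := by rw [hσdef]; simp only; rw [hι0, hxq]
  have h0V : ι 0 ∈ V := by rw [hι0]; exact hxV
  have hσc : ContinuousAt σ 0 := (hσs 0 h0V).continuousAt
  have hbq : bb qq ≠ 0 := by simp [bb]
  have hQ1 : ∀ᶠ y in 𝓝 (0 : ℝ × ℝ), Qs (-1) (σ y) < 1 := by
    have h1 : ContinuousAt (fun y => Qs (-1) (σ y)) 0 :=
      ContinuousAt.comp (g := Qs (-1)) (by rw [hσ0]; exact continuousAt_Qs (-1) hbq) hσc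
    refine h1.eventually (Iio_mem_nhds ?_)
    change Qs (-1) (σ 0) < 1
    rw [hσ0, Qs_qq]; norm_num
  have hQ2 : ∀ᶠ y in 𝓝 (0 : ℝ × ℝ), d.e < Qs 1 (σ y) := by
    have h1 : ContinuousAt (fun y => Qs 1 (σ y)) 0 :=
      ContinuousAt.comp (g := Qs 1) (by rw [hσ0]; exact continuousAt_Qs 1 hbq) hσc
    refine h1.eventually (Ioi_mem_nhds ?_)
    change d.e < Qs 1 (σ 0)
    rw [hσ0, Qs_qq]
    have := d.e_le
    linarith
  have hS3 : ∀ᶠ y in 𝓝 (0 : ℝ × ℝ), σ y ∈ S3 := by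
    filter_upwards [hV0] with y hy using hφ.mem_sphere _ hy
  have hK : ∀ᶠ y in 𝓝 (0 : ℝ × ℝ), y.2 = 0 → aa (σ y) = 0 := by
    filter_upwards [hV0, hQ1] with y hy h1 h2
    refine hKa _ ((hch _ hy).2.mpr ⟨hι2 y, ?_⟩) h1
    rw [hι1, h2]
  have hne : ∀ᶠ y in 𝓝 (0 : ℝ × ℝ), y.2 ≠ 0 → aa (σ y) ≠ 0 := by
    filter_upwards [hV0, hQ2] with y hy h1 h2 h3
    apply h2
    have h4 : σ y ∈ sing d := ⟨hφ.mem_sphere _ hy, Or.inl ⟨h3, h1.le⟩⟩
    have h5 := ((hch _ hy).2.mp (hsing h4)).2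
    rwa [hι1] at h5
  obtain ⟨κ, hκ, hdens⟩ := local_density d (hσs 0 h0V) hσ0 hS3 hK (hσinj 0 h0V) hne
  obtain ⟨δ, hδ, hball⟩ := Metric.eventually_nhds_iff.mp (hdens.and hV0)
  set A : Set (ℝ × ℝ) := Ioo 0 δ ×ˢ Ioo 0 δ with hA
  have hAball : ∀ y ∈ A, dist y 0 < δ := by
    intro y hy
    rw [dist_zero_right, Prod.norm_def]
    have h1 := hy.1
    have h2 := hy.2
    rw [Real.norm_eq_abs, Real.norm_eq_abs, abs_of_pos h1.1, abs_of_pos h2.1]
    exact max_lt h1.2 h2.2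
  have hAV : ∀ y ∈ A, ι y ∈ V := fun y hy => (hball (hAball y hy)).2
  have hpatch : IsPatch (S \ K) A σ := by
    refine ⟨isOpen_Ioo.prod isOpen_Ioo, ?_, ?_, ?_, ?_⟩
    · intro y hy
      exact (hσs y (hAV y hy)).contDiffWithinAt
    · intro y hy z hz h
      exact hιinj (hinjφ (hAV y hy) (hAV z hz) h)
    · intro y hy
      exact hσinj y (hAV y hy)
    · intro y hy
      have h1 := hch _ (hAV y hy)
      have h2 : 0 < y.2 := hy.2.1
      refine ⟨h1.1.mpr ⟨hι2 y, ?_⟩, ?_⟩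
      · rw [hι1]; exact h2.le
      · intro h3
        have h4 := (h1.2.mp h3).2
        rw [hι1] at h4
        exact h2.ne' h4
  have hint : ∫⁻ y in A, ENNReal.ofReal (density0 (gg d) σ y) = ⊤ := by
    refine lint_top hδ hκ _ fun y hy => ?_
    exact ENNReal.ofReal_le_ofReal ((hball (hAball y hy)).1 hy.2.1)
  rw [eq_top_iff, ← hint]
  unfold area0
  refine le_iSup_of_le 1 (le_iSup_of_le (fun _ => A) (le_iSup_of_le (fun _ => σ)
    (le_iSup_of_le ⟨fun _ => hpatch, ?_⟩ ?_)))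
  · intro i j hij
    exact absurd (Subsingleton.elim i j) hij
  · simp

/-- The counterexample. -/
theorem main : ∃ K : Set E4, IsKnot K ∧ ∃ g : BilinField, IsRiemannianMetricOn (S3 \ K) g ∧
    (∀ p ∈ S3 \ K, ∀ v : E4, inner ℝ p v = 0 → ‖v‖ ^ 2 ≤ form g p v v) ∧
    (∀ p ∈ S3 \ K, ScalarCurvatureGE g p 6) ∧
    ∀ S : Set E4, IsSeifertSurface K S → surfaceArea g (S \ K) = ⊤ := by
  obtain ⟨d⟩ := exists_profData
  obtain ⟨K, h1, h2, h3, h4⟩ := exists_knot d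
  refine ⟨K, h1, toM (gg d), isRiem_toM (gg_isRiem0 d h2), ?_, ?_, ?_⟩
  · intro p hp v _
    rw [form_toM]
    exact gg_dom d hp.1 v
  · intro p hp
    exact scal_toM (gg_scalarCurvatureGE d hp.1 (fun h => hp.2 (h2 h)))
  · intro S hS
    rw [surfaceArea_toM]
    exact infinite_area d h2 h3 h4 hS

end
end Pool.Agent.P598
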