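import Pool.Agent.P598.Field
open scoped ContDiff Topology ENNReal
open Set Filter MeasureTheory
namespace Pool.Agent.P598
noncomputable section

/-- radial form of the first coordinate -/
def kz (p u : E4) : ℝ := p 0 * u 0 + p 1 * u 1

/-- angular form of the second coordinate -/
def lw (p u : E4) : ℝ := p 2 * u 3 - p 3 * u 2

theorem sum_sq_ineq (A B C D x1 x2 x3 x4 y1 y2 y3 y4 : ℝ) (hA : 0 ≤ A) (hB : 0 ≤ B) (hC : 0 ≤ C)
    (hD : 0 ≤ D) : A * B * (x1 * y2 - x2 * y1) ^ 2 ≤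
      (A * (x1 * x1) + B * (x2 * x2) + C * (x3 * x3) + D * (x4 * x4)) *
        (A * (y1 * y1) + B * (y2 * y2) + C * (y3 * y3) + D * (y4 * y4)) -
      (A * (x1 * y1) + B * (x2 * y2) + C * (x3 * y3) + D * (x4 * y4)) ^ 2 := by
  have h : (A * (x1 * x1) + B * (x2 * x2) + C * (x3 * x3) + D * (x4 * x4)) *
        (A * (y1 * y1) + B * (y2 * y2) + C * (y3 * y3) + D * (y4 * y4)) -
      (A * (x1 * y1) + B * (x2 * y2) + C * (x3 * y3) + D * (x4 * y4)) ^ 2 =
      A * B * (x1 * y2 - x2 * y1) ^ 2 + (A * C * (x1 * y3 - x3 * y1) ^ 2 +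
      A * D * (x1 * y4 - x4 * y1) ^ 2 + B * C * (x2 * y3 - x3 * y2) ^ 2 +
      B * D * (x2 * y4 - x4 * y2) ^ 2 + C * D * (x3 * y4 - x4 * y3) ^ 2) := by ring
  rw [h]
  have : 0 ≤ A * C * (x1 * y3 - x3 * y1) ^ 2 +
      A * D * (x1 * y4 - x4 * y1) ^ 2 + B * C * (x2 * y3 - x3 * y2) ^ 2 +
      B * D * (x2 * y4 - x4 * y2) ^ 2 + C * D * (x3 * y4 - x4 * y3) ^ 2 := by positivity
  linarith

variable (d : ProfData)

theorem density_lower {p : E4} (hp : p ∈ S3) (ha : 0 < aa p) (hb : 0 < bb p) (u v : E4) :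
    Real.exp (2 * N1 d p) * (|kz p u * lw p v - lw p u * kz p v| / Real.sqrt (aa p)) ≤
      Real.sqrt (gg d p u u * gg d p v v - gg d p u v ^ 2) := by
  have hS := (mem_S3 p).mp hp
  set X := Real.exp (2 * (1 - aa p + P1 d p + N1 d (sw p))) with hX
  set Y := Real.exp (2 * (1 - bb p + P1 d (sw p) + N1 d p)) with hY
  set T := Real.exp (2 * N1 d p) with hT
  have hT0 : 0 < T := Real.exp_pos _
  have hX0 : 0 < X := Real.exp_pos _
  have hY0 : 0 < Y := Real.exp_pos _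
  have hM0 : 0 < mm d p := Real.exp_pos _
  have hMT : T ≤ mm d p := by
    unfold mm; rw [hT]
    apply Real.exp_le_exp.mpr
    have := N1_nonneg d (sw p)
    linarith
  have hYT : T ≤ Y := by
    rw [hT, hY]
    apply Real.exp_le_exp.mpr
    have := P1_nonneg d (sw p)
    linarith
  have hcz : cz d p = (X - mm d p) / aa p := rfl
  have hcw : cz d (sw p) = (Y - mm d p) / bb p := by
    unfold cz
    rw [aa_sw, sw_sw, mm_sw]
  have hg : ∀ u v : E4, gg d p u v = mm d p / aa p * (kz p u * kz p v) +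
      Y / bb p * (lw p u * lw p v) + mm d p / bb p * ((p 2 * u 2 + p 3 * u 3) *
        (p 2 * v 2 + p 3 * v 3)) + X / aa p * ((p 0 * u 1 - p 1 * u 0) *
        (p 0 * v 1 - p 1 * v 0)) := by
    intro u v
    rw [gg_apply, hcz, hcw]
    have e1 : u 0 * v 0 + u 1 * v 1 = (kz p u * kz p v + (p 0 * u 1 - p 1 * u 0) *
        (p 0 * v 1 - p 1 * v 0)) / aa p := by
      rw [eq_div_iff ha.ne']; unfold aa kz; ring
    have e2 : u 2 * v 2 + u 3 * v 3 = ((p 2 * u 2 + p 3 * u 3) *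
        (p 2 * v 2 + p 3 * v 3) + lw p u * lw p v) / bb p := by
      rw [eq_div_iff hb.ne']; unfold bb lw; ring
    have e3 : u 0 * v 0 + u 1 * v 1 + u 2 * v 2 + u 3 * v 3 =
      (u 0 * v 0 + u 1 * v 1) + (u 2 * v 2 + u 3 * v 3) := by ring
    rw [e3, e1, e2]
    unfold lw
    ring
  have key := sum_sq_ineq (mm d p / aa p) (Y / bb p) (mm d p / bb p) (X / aa p)
    (kz p u) (lw p u) (p 2 * u 2 + p 3 * u 3) (p 0 * u 1 - p 1 * u 0)
    (kz p v) (lw p v) (p 2 * v 2 + p 3 * v 3) (p 0 * v 1 - p 1 * v 0)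
    (by positivity) (by positivity) (by positivity) (by positivity)
  rw [hg u u, hg v v, hg u v]
  apply Real.le_sqrt_of_sq_le
  refine le_trans ?_ key
  rw [mul_pow, div_pow, sq_abs, Real.sq_sqrt ha.le]
  have h1 : T ^ 2 / aa p ≤ mm d p / aa p * (Y / bb p) := by
    have h2 : T * T ≤ mm d p * Y := mul_le_mul hMT hYT hT0.le hM0.le
    have h3 : mm d p / aa p * (Y / bb p) = (mm d p * Y) / bb p / aa p := by field_simp
    rw [h3, pow_two]
    refine div_le_div_of_nonneg_right ?_ ha.le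
    rw [le_div_iff₀ hb]
    have h4 : bb p ≤ 1 := by linarith
    have h6 : T * T * bb p ≤ T * T * 1 := mul_le_mul_of_nonneg_left h4 (mul_pos hT0 hT0).le
    linarith
  have h5 : T ^ 2 * ((kz p u * lw p v - lw p u * kz p v) ^ 2 / aa p) =
      T ^ 2 / aa p * (kz p u * lw p v - lw p u * kz p v) ^ 2 := by ring
  rw [h5]
  exact mul_le_mul_of_nonneg_right h1 (sq_nonneg _)

/-- `Q` is small near the base point -/
theorem Qs_le_of_near {p : E4} (hp : p ∈ S3) (h2 : p 2 < 0) (hb : 1 / 2 ≤ bb p) :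
    Qs (-1) p ≤ aa p + 4 * p 3 ^ 2 := by
  have hb0 : 0 < bb p := by linarith
  have hsb : 0 < Real.sqrt (bb p) := Real.sqrt_pos.mpr hb0
  have hss : Real.sqrt (bb p) ^ 2 = bb p := Real.sq_sqrt hb0.le
  set q := Real.sqrt (bb p) with hq
  have h1 : q ^ 2 = p 2 ^ 2 + p 3 ^ 2 := hss
  have h3 : -(p 2) ≤ q := by
    have h : (p 2) ^ 2 ≤ q ^ 2 := by rw [h1]; linarith [sq_nonneg (p 3)]
    exact (neg_le_abs _).trans (abs_le_of_sq_le_sq h hsb.le)
  unfold Qs
  rw [← hq]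
  have h4 : 2 + 2 * (p 2 / q) ≤ 4 * p 3 ^ 2 := by
    have h5 : 2 + 2 * (p 2 / q) = 2 * (q + p 2) / q := by field_simp
    rw [h5, div_le_iff₀ hsb]
    have h6 : (q + p 2) * q ≤ p 3 ^ 2 := by
      have e : (q + p 2) * q = q ^ 2 - p 2 ^ 2 + p 2 * (q + p 2) := by ring
      have h : p 2 * (q + p 2) ≤ 0 := mul_nonpos_of_nonpos_of_nonneg h2.le (by linarith)
      rw [e, h1]; linarith
    have h7 : 1 / 2 ≤ q ^ 2 := by rw [hss]; exact hb
    have h8 : 0 ≤ q + p 2 := by linarith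
    -- `(q + p2) * 2 ≤ 4 p3² q`: multiply by `q`
    have h10 : p 3 ^ 2 * (1 / 2) ≤ p 3 ^ 2 * q ^ 2 := mul_le_mul_of_nonneg_left h7 (sq_nonneg _)
    have h9 : 2 * (q + p 2) * q ≤ 4 * p 3 ^ 2 * q * q := by
      have e1 : 2 * (q + p 2) * q = 2 * ((q + p 2) * q) := by ring
      have e2 : 4 * p 3 ^ 2 * q * q = 4 * (p 3 ^ 2 * q ^ 2) := by ring
      rw [e1, e2]; linarith
    exact le_of_mul_le_mul_right h9 hsb
  linarith

/-- divergence of the integral of `1 / |y|²` -/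
theorem lint_top {δ κ : ℝ} (hδ : 0 < δ) (hκ : 0 < κ) (f : ℝ × ℝ → ℝ≥0∞)
    (hf : ∀ y ∈ Ioo 0 δ ×ˢ Ioo 0 δ, ENNReal.ofReal (κ / ‖y‖ ^ 2) ≤ f y) :
    ∫⁻ y in Ioo 0 δ ×ˢ Ioo 0 δ, f y = ⊤ := by
  set I : ℕ → Set ℝ := fun n => Ioo (δ / 2 ^ (n + 1)) (δ / 2 ^ n) with hI
  set B : ℕ → Set (ℝ × ℝ) := fun n => I n ×ˢ I n with hB
  have hBm : ∀ n, MeasurableSet (B n) := fun n => measurableSet_Ioo.prod measurableSet_Ioo
  have hBsub : ∀ n, B n ⊆ Ioo 0 δ ×ˢ Ioo 0 δ := by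
    intro n y hy
    have h1 : 0 < δ / 2 ^ (n + 1) := by positivity
    have h2 : δ / 2 ^ n ≤ δ := div_le_self hδ.le (one_le_pow₀ (by norm_num))
    exact ⟨⟨h1.trans hy.1.1, hy.1.2.trans_le h2⟩, ⟨h1.trans hy.2.1, hy.2.2.trans_le h2⟩⟩
  have hmono : ∀ {m n : ℕ}, m < n → δ / 2 ^ n ≤ δ / 2 ^ (m + 1) := by
    intro m n h
    apply div_le_div_of_nonneg_left hδ.le (by positivity)
    exact pow_le_pow_right₀ (by norm_num) h
  have hdisj : Pairwise (Function.onFun Disjoint B) := by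
    intro m n hmn
    rw [Function.onFun, Set.disjoint_left]
    rintro y ⟨hy1, -⟩ ⟨hy2, -⟩
    rcases lt_or_gt_of_ne hmn with h | h
    · have := hmono h
      have h1 := hy1.1
      have h2 := hy2.2
      linarith
    · have := hmono h
      have h1 := hy1.2
      have h2 := hy2.1
      linarith
  have hterm : ∀ n, ENNReal.ofReal (κ / 4) ≤ ∫⁻ y in B n, f y := by
    intro n
    have hvol : volume (B n) = ENNReal.ofReal (δ / 2 ^ (n + 1)) * ENNReal.ofReal (δ / 2 ^ (n + 1)) := by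
      have hlen : δ / 2 ^ n - δ / 2 ^ (n + 1) = δ / 2 ^ (n + 1) := by
        rw [pow_succ]; field_simp; ring
      rw [hB]
      simp only
      rw [Measure.volume_eq_prod, Measure.prod_prod, hI, Real.volume_Ioo, hlen]
    have h1 : ∫⁻ y in B n, ENNReal.ofReal (κ / (δ / 2 ^ n) ^ 2) ≤ ∫⁻ y in B n, f y := by
      refine setLIntegral_mono' (hBm n) fun y hy => ?_
      refine le_trans ?_ (hf y (hBsub n hy))
      apply ENNReal.ofReal_le_ofReal
      have hy0 : 0 < y.1 := (hBsub n hy).1.1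
      have hnorm : ‖y‖ ≤ δ / 2 ^ n := by
        rw [Prod.norm_def, max_le_iff]
        have h3 := hBsub n hy
        constructor
        · rw [Real.norm_eq_abs, abs_of_pos h3.1.1]; exact hy.1.2.le
        · rw [Real.norm_eq_abs, abs_of_pos h3.2.1]; exact hy.2.2.le
      have hnp : 0 < ‖y‖ := by
        rw [Prod.norm_def]
        exact lt_max_of_lt_left (by rw [Real.norm_eq_abs, abs_of_pos hy0]; exact hy0)
      apply div_le_div_of_nonneg_left hκ.le (by positivity)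
      exact pow_le_pow_left₀ hnp.le hnorm 2
    refine le_trans ?_ h1
    rw [setLIntegral_const, hvol, ← ENNReal.ofReal_mul (by positivity),
      ← ENNReal.ofReal_mul (by positivity)]
    apply ENNReal.ofReal_le_ofReal
    apply le_of_eq
    have hp2 : (2:ℝ) ^ (n + 1) = 2 * 2 ^ n := by ring
    rw [hp2]
    field_simp
    norm_num
  have h1 : ∫⁻ y in ⋃ n, B n, f y = ∑' n, ∫⁻ y in B n, f y :=
    lintegral_iUnion hBm hdisj _
  have h2 : ∑' n, ∫⁻ y in B n, f y = ⊤ := by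
    rw [eq_top_iff]
    calc ⊤ = ∑' _ : ℕ, ENNReal.ofReal (κ / 4) := by
          rw [ENNReal.tsum_const_eq_top_of_ne_zero]
          exact (ENNReal.ofReal_pos.mpr (by positivity)).ne'
      _ ≤ _ := ENNReal.tsum_le_tsum hterm
  rw [eq_top_iff, ← h2, ← h1]
  exact lintegral_mono_set (iUnion_subset hBsub)

end
end Pool.Agent.P598
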