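import Pool.Agent.P598.Diag
open scoped ContDiff Topology
namespace Pool.Agent.P598
noncomputable section

theorem differentiable_coord (i : Fin 3) : Differentiable ℝ (fun y : V3 => y i) := by fun_prop

theorem contDiff_coord (n : WithTop ℕ∞) (i : Fin 3) : ContDiff ℝ n (fun y : V3 => y i) :=
  contDiff_apply ℝ ℝ i

theorem pd_coord (i j : Fin 3) (x : V3) : pd i (fun y : V3 => y j) x = if j = i then 1 else 0 := by
  unfold pd
  have h : HasFDerivAt (fun y : V3 => y j) (ContinuousLinearMap.proj j : V3 →L[ℝ] ℝ) x :=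
    (ContinuousLinearMap.proj (R := ℝ) (φ := fun _ : Fin 3 => ℝ) j).hasFDerivAt
  rw [h.fderiv]
  simp [Pi.single_apply]

/-- the function `Q` in Hopf coordinates -/
def QH (s : ℝ) (y : V3) : ℝ := Real.sin (y 0) ^ 2 + 2 - 2 * s * Real.cos (y 1)

theorem contDiff_QH (s : ℝ) (n : WithTop ℕ∞) : ContDiff ℝ n (QH s) := by
  unfold QH
  have h0 := contDiff_coord n 0
  have h1 := contDiff_coord n 1
  fun_prop

theorem pd_sin_coord (i j : Fin 3) (x : V3) :
    pd i (fun y : V3 => Real.sin (y j)) x = Real.cos (x j) * (if j = i then 1 else 0) := by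
  rw [pd_comp i Real.differentiableAt_sin (differentiable_coord j x), Real.deriv_sin, pd_coord]

theorem pd_cos_coord (i j : Fin 3) (x : V3) :
    pd i (fun y : V3 => Real.cos (y j)) x = -Real.sin (x j) * (if j = i then 1 else 0) := by
  rw [pd_comp i Real.differentiableAt_cos (differentiable_coord j x), Real.deriv_cos, pd_coord]

theorem pd_QH (s : ℝ) (i : Fin 3) (x : V3) : pd i (QH s) x =
    (if i = 0 then 2 * Real.sin (x 0) * Real.cos (x 0) else 0) +
    (if i = 1 then 2 * s * Real.sin (x 1) else 0) := by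
  have hs : ∀ j, DifferentiableAt ℝ (fun y : V3 => Real.sin (y j)) x := fun j =>
    Real.differentiableAt_sin.comp x (differentiable_coord j x)
  have hc : ∀ j, DifferentiableAt ℝ (fun y : V3 => Real.cos (y j)) x := fun j =>
    Real.differentiableAt_cos.comp x (differentiable_coord j x)
  have e : QH s = fun y => (Real.sin (y 0) * Real.sin (y 0) + 2) - (2 * s) * Real.cos (y 1) := by
    funext y; simp only [QH]; ring
  rw [e, pd_sub i (((hs 0).fun_mul (hs 0)).fun_add (differentiableAt_const 2))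
      ((hc 1).const_mul _), pd_add i ((hs 0).fun_mul (hs 0)) (differentiableAt_const _),
    pd_mul i (hs 0) (hs 0), pd_const, pd_const_mul i _ (hc 1), pd_sin_coord, pd_cos_coord]
  fin_cases i <;> simp <;> ring

theorem contDiffAt_deriv {n : WithTop ℕ∞} {f : ℝ → ℝ} {x : ℝ} (hf : ContDiffAt ℝ (n + 1) f x) :
    ContDiffAt ℝ n (deriv f) x := by
  have h : deriv f = fun y => fderiv ℝ f y 1 := by funext y; simp
  rw [h]
  exact (hf.fderiv_right (m := n) le_rfl).clm_apply contDiffAt_const

theorem pd_mix {A h : ℝ → ℝ} {s : ℝ} {y : V3} (hA : DifferentiableAt ℝ A (y 0))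
    (hh : DifferentiableAt ℝ h (QH s y)) (i : Fin 3) :
    pd i (fun z => A (z 0) + h (QH s z)) y =
      (if i = 0 then deriv A (y 0) else 0) + deriv h (QH s y) * pd i (QH s) y := by
  have hQ : DifferentiableAt ℝ (QH s) y := (contDiff_QH s 1).differentiable (by norm_num) y
  rw [pd_add i (hA.fun_comp' y (differentiable_coord 0 y)) (hh.fun_comp' y hQ),
    pd_comp i hA (differentiable_coord 0 y), pd_comp i hh hQ, pd_coord]
  fin_cases i <;> simp

theorem pd_pd_mix {A h : ℝ → ℝ} {s : ℝ} {x : V3} (hA : ContDiffAt ℝ 2 A (x 0))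
    (hh : ContDiffAt ℝ 2 h (QH s x)) :
    pd 0 (pd 0 (fun z => A (z 0) + h (QH s z))) x = deriv (deriv A) (x 0) +
      (deriv (deriv h) (QH s x) * (2 * Real.sin (x 0) * Real.cos (x 0)) ^ 2 +
        deriv h (QH s x) * (2 * Real.cos (x 0) ^ 2 - 2 * Real.sin (x 0) ^ 2)) ∧
    pd 1 (pd 1 (fun z => A (z 0) + h (QH s z))) x =
      (deriv (deriv h) (QH s x) * (2 * s * Real.sin (x 1)) ^ 2 +
        deriv h (QH s x) * (2 * s * Real.cos (x 1))) := by
  have hQ : DifferentiableAt ℝ (QH s) x := (contDiff_QH s 1).differentiable (by norm_num) x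
  have hQc : ContinuousAt (QH s) x := hQ.continuousAt
  have hc0 : ContinuousAt (fun z : V3 => z 0) x := (differentiable_coord 0 x).continuousAt
  have evA : ∀ᶠ z in 𝓝 x, DifferentiableAt ℝ A (z 0) := by
    filter_upwards [hc0.eventually (hA.eventually (by norm_num))] with z hz using
      hz.differentiableAt (by norm_num)
  have evh : ∀ᶠ z in 𝓝 x, DifferentiableAt ℝ h (QH s z) := by
    filter_upwards [hQc.eventually (hh.eventually (by norm_num))] with z hz using
      hz.differentiableAt (by norm_num)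
  have e : ∀ i, pd i (fun z => A (z 0) + h (QH s z)) =ᶠ[𝓝 x] fun z =>
      (if i = 0 then deriv A (z 0) else 0) + deriv h (QH s z) * pd i (QH s) z := by
    intro i
    filter_upwards [evA, evh] with z h1 h2 using pd_mix h1 h2 i
  have hA' : DifferentiableAt ℝ (deriv A) (x 0) :=
    (contDiffAt_deriv (n := 1) (by simpa using! hA)).differentiableAt (by norm_num)
  have hh' : DifferentiableAt ℝ (deriv h) (QH s x) :=
    (contDiffAt_deriv (n := 1) (by simpa using! hh)).differentiableAt (by norm_num)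
  have hpQ : ∀ i, DifferentiableAt ℝ (pd i (QH s)) x := fun i =>
    (contDiffAt_pd (n := 1) i ((contDiff_QH s (1 + 1)).contDiffAt)).differentiableAt (by norm_num)
  have hs : ∀ j, DifferentiableAt ℝ (fun y : V3 => Real.sin (y j)) x := fun j =>
    Real.differentiableAt_sin.comp x (differentiable_coord j x)
  have hc : ∀ j, DifferentiableAt ℝ (fun y : V3 => Real.cos (y j)) x := fun j =>
    Real.differentiableAt_cos.comp x (differentiable_coord j x)
  have hp0 : pd 0 (pd 0 (QH s)) x = 2 * Real.cos (x 0) ^ 2 - 2 * Real.sin (x 0) ^ 2 := by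
    have e0 : pd 0 (QH s) = fun y => 2 * (Real.sin (y 0) * Real.cos (y 0)) := by
      funext y; rw [pd_QH]; simp; ring
    rw [e0, pd_const_mul 0 2 ((hs 0).fun_mul (hc 0)), pd_mul 0 (hs 0) (hc 0), pd_sin_coord,
      pd_cos_coord]
    simp; ring
  have hp1 : pd 1 (pd 1 (QH s)) x = 2 * s * Real.cos (x 1) := by
    have e0 : pd 1 (QH s) = fun y => (2 * s) * Real.sin (y 1) := by
      funext y; rw [pd_QH]; simp
    rw [e0, pd_const_mul 1 _ (hs 1), pd_sin_coord]
    simp
  constructor
  · rw [pd_congr (e 0)]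
    simp only [if_true]
    rw [pd_add 0 (hA'.fun_comp' x (differentiable_coord 0 x))
      ((hh'.fun_comp' x hQ).fun_mul (hpQ 0)), pd_comp 0 hA' (differentiable_coord 0 x),
      pd_mul 0 (hh'.fun_comp' x hQ) (hpQ 0), pd_comp 0 hh' hQ, pd_coord, hp0, pd_QH]
    simp; ring
  · rw [pd_congr (e 1)]
    have : (fun z : V3 => (if (1 : Fin 3) = 0 then deriv A (z 0) else 0) +
        deriv h (QH s z) * pd 1 (QH s) z) = fun z => deriv h (QH s z) * pd 1 (QH s) z := by
      funext z; simp
    rw [this, pd_mul 1 (hh'.fun_comp' x hQ) (hpQ 1), pd_comp 1 hh' hQ, hp1, pd_QH]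
    simp; ring

end
end Pool.Agent.P598
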