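import Pool.Agent.P598.Hopf1
open scoped ContDiff Topology
namespace Pool.Agent.P598
noncomputable section

/-- the `r`-part of the coefficient of `dt` -/
def alp (r : ℝ) : ℝ := Real.log (Real.sin r) + 1 - Real.sin r ^ 2

/-- the `r`-part of the coefficient of `dθ` -/
def bet (r : ℝ) : ℝ := Real.log (Real.cos r) + 1 - Real.cos r ^ 2

theorem hasDerivAt_alp {r : ℝ} (h : Real.sin r ≠ 0) :
    HasDerivAt alp (Real.cos r / Real.sin r - 2 * Real.sin r * Real.cos r) r := by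
  unfold alp
  have h1 := (Real.hasDerivAt_sin r).log h
  have h2 := (Real.hasDerivAt_sin r).fun_pow 2
  refine ((h1.add_const 1).fun_sub h2).congr_deriv ?_
  norm_num

theorem hasDerivAt_bet {r : ℝ} (h : Real.cos r ≠ 0) :
    HasDerivAt bet (-(Real.sin r / Real.cos r) + 2 * Real.sin r * Real.cos r) r := by
  unfold bet
  have h1 := (Real.hasDerivAt_cos r).log h
  have h2 := (Real.hasDerivAt_cos r).fun_pow 2
  refine ((h1.add_const 1).fun_sub h2).congr_deriv ?_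
  norm_num
  ring

theorem deriv2_alp {r : ℝ} (h : Real.sin r ≠ 0) : deriv (deriv alp) r =
    -(1 / Real.sin r ^ 2) - 2 * (Real.cos r ^ 2 - Real.sin r ^ 2) := by
  have hev : deriv alp =ᶠ[𝓝 r] fun r => Real.cos r / Real.sin r - 2 * Real.sin r * Real.cos r := by
    filter_upwards [Real.continuous_sin.continuousAt.eventually_ne h] with z hz using
      (hasDerivAt_alp hz).deriv
  rw [hev.deriv_eq]
  have h1 := (Real.hasDerivAt_cos r).fun_div (Real.hasDerivAt_sin r) h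
  have h2 := ((Real.hasDerivAt_sin r).const_mul 2).fun_mul (Real.hasDerivAt_cos r)
  rw [(h1.fun_sub h2).deriv]
  have := Real.sin_sq_add_cos_sq r
  field_simp
  nlinarith [this]

theorem deriv2_bet {r : ℝ} (h : Real.cos r ≠ 0) : deriv (deriv bet) r =
    -(1 / Real.cos r ^ 2) + 2 * (Real.cos r ^ 2 - Real.sin r ^ 2) := by
  have hev : deriv bet =ᶠ[𝓝 r]
      fun r => -(Real.sin r / Real.cos r) + 2 * Real.sin r * Real.cos r := by
    filter_upwards [Real.continuous_cos.continuousAt.eventually_ne h] with z hz using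
      (hasDerivAt_bet hz).deriv
  rw [hev.deriv_eq]
  have h1 := (Real.hasDerivAt_sin r).fun_div (Real.hasDerivAt_cos r) h
  have h2 := ((Real.hasDerivAt_sin r).const_mul 2).fun_mul (Real.hasDerivAt_cos r)
  rw [(h1.fun_neg.fun_add h2).deriv]
  have := Real.sin_sq_add_cos_sq r
  field_simp
  nlinarith [this]

theorem contDiffAt_alp {r : ℝ} (h : Real.sin r ≠ 0) : ContDiffAt ℝ 2 alp r := by
  unfold alp
  have h1 : ContDiffAt ℝ 2 Real.sin r := Real.contDiff_sin.contDiffAt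
  exact ((h1.log h).add contDiffAt_const).sub (h1.pow 2)

theorem contDiffAt_bet {r : ℝ} (h : Real.cos r ≠ 0) : ContDiffAt ℝ 2 bet r := by
  unfold bet
  have h1 : ContDiffAt ℝ 2 Real.cos r := Real.contDiff_cos.contDiffAt
  exact ((h1.log h).add contDiffAt_const).sub (h1.pow 2)

/-- the zero function -/
def zf (_ : ℝ) : ℝ := 0

theorem contDiffAt_zf (r : ℝ) : ContDiffAt ℝ 2 zf r := contDiffAt_const

theorem deriv_zf (r : ℝ) : deriv zf r = 0 := by unfold zf; simp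

theorem deriv2_zf (r : ℝ) : deriv (deriv zf) r = 0 := by
  have : deriv zf = fun _ => 0 := by funext y; exact deriv_zf y
  rw [this]; simp

/-- the functions `f_i` of the metric in Hopf coordinates -/
def fH (N Ψ : ℝ → ℝ) (s : ℝ) : Fin 3 → V3 → ℝ :=
  ![fun z => zf (z 0) + N (QH s z), fun z => bet (z 0) + N (QH s z),
    fun z => alp (z 0) + Ψ (QH s z)]

theorem contDiffAt_mix {A h : ℝ → ℝ} {s : ℝ} {x : V3} (hA : ContDiffAt ℝ 2 A (x 0))
    (hh : ContDiffAt ℝ 2 h (QH s x)) : ContDiffAt ℝ 2 (fun z => A (z 0) + h (QH s z)) x :=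
  (ContDiffAt.comp x (g := A) hA (contDiff_coord 2 0).contDiffAt).add
    (ContDiffAt.comp x (g := h) hh (contDiff_QH s 2).contDiffAt)

theorem contDiffAt_fH {N Ψ : ℝ → ℝ} {s : ℝ} {x : V3} (hs : Real.sin (x 0) ≠ 0)
    (hc : Real.cos (x 0) ≠ 0) (hN : ContDiffAt ℝ 2 N (QH s x)) (hΨ : ContDiffAt ℝ 2 Ψ (QH s x))
    (i : Fin 3) : ContDiffAt ℝ 2 (fH N Ψ s i) x := by
  fin_cases i
  · exact contDiffAt_mix (contDiffAt_zf _) hN
  · exact contDiffAt_mix (contDiffAt_bet hc) hN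
  · exact contDiffAt_mix (contDiffAt_alp hs) hΨ

theorem pd2_mix {A h : ℝ → ℝ} {s : ℝ} {x : V3} (hA : ContDiffAt ℝ 2 A (x 0))
    (hh : ContDiffAt ℝ 2 h (QH s x)) :
    ∀ᶠ y in 𝓝 x, pd 2 (fun z => A (z 0) + h (QH s z)) y = 0 := by
  have hQ : DifferentiableAt ℝ (QH s) x := (contDiff_QH s 1).differentiable (by norm_num) x
  have hQc : ContinuousAt (QH s) x := hQ.continuousAt
  have hc0 : ContinuousAt (fun z : V3 => z 0) x := (differentiable_coord 0 x).continuousAt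
  have evA : ∀ᶠ z in 𝓝 x, DifferentiableAt ℝ A (z 0) := by
    filter_upwards [hc0.eventually (hA.eventually (by norm_num))] with z hz using
      hz.differentiableAt (by norm_num)
  have evh : ∀ᶠ z in 𝓝 x, DifferentiableAt ℝ h (QH s z) := by
    filter_upwards [hQc.eventually (hh.eventually (by norm_num))] with z hz using
      hz.differentiableAt (by norm_num)
  filter_upwards [evA, evh] with z h1 h2
  rw [pd_mix h1 h2, pd_QH]
  simp

theorem sc_fH {N Ψ : ℝ → ℝ} {s : ℝ} {x : V3} (hs : 0 < Real.sin (x 0))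
    (hc : 0 < Real.cos (x 0)) (hN : ContDiffAt ℝ 2 N (QH s x)) (hΨ : ContDiffAt ℝ 2 Ψ (QH s x)) :
    scalarCurvature (dg (fH N Ψ s)) x = 2 * Real.exp (-(2 * N (QH s x))) *
      ((5 - 4 * (Real.sin (x 0) ^ 2 * Real.cos (x 0) ^ 2))
        - (deriv N (QH s x) + deriv Ψ (QH s x)) * (2 - 6 * Real.sin (x 0) ^ 2
          + 4 * (Real.sin (x 0) ^ 2 * Real.cos (x 0) ^ 2)
          + 2 * s * Real.cos (x 1) * Real.exp (-(2 * bet (x 0))))
        - deriv Ψ (QH s x) * (4 * Real.cos (x 0) ^ 2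
          - 8 * (Real.sin (x 0) ^ 2 * Real.cos (x 0) ^ 2))
        - (deriv (deriv N) (QH s x) + deriv (deriv Ψ) (QH s x) + deriv Ψ (QH s x) ^ 2) *
          (4 * (Real.sin (x 0) ^ 2 * Real.cos (x 0) ^ 2)
            + (2 * s * Real.sin (x 1)) ^ 2 * Real.exp (-(2 * bet (x 0))))) := by
  have dN : DifferentiableAt ℝ N (QH s x) := hN.differentiableAt (by norm_num)
  have dΨ : DifferentiableAt ℝ Ψ (QH s x) := hΨ.differentiableAt (by norm_num)
  have h0 := contDiffAt_fH hs.ne' hc.ne' hN hΨ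
  have h2 : ∀ i, ∀ᶠ y in 𝓝 x, pd 2 (fH N Ψ s i) y = 0 := by
    intro i
    fin_cases i
    · exact pd2_mix (contDiffAt_zf _) hN
    · exact pd2_mix (contDiffAt_bet hc.ne') hN
    · exact pd2_mix (contDiffAt_alp hs.ne') hΨ
  rw [scalarCurvature_dg h0 h2]
  have a0 := fun i => pd_mix (A := zf) (h := N) (s := s) (y := x)
    (contDiffAt_zf (x 0) |>.differentiableAt (by norm_num)) dN i
  have a1 := fun i => pd_mix (A := bet) (h := N) (s := s) (y := x)
    (hasDerivAt_bet hc.ne').differentiableAt dN i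
  have a2 := fun i => pd_mix (A := alp) (h := Ψ) (s := s) (y := x)
    (hasDerivAt_alp hs.ne').differentiableAt dΨ i
  obtain ⟨b0, c0⟩ := pd_pd_mix (A := zf) (h := N) (s := s) (x := x)
    (contDiffAt_zf _) hN
  obtain ⟨b1, c1⟩ := pd_pd_mix (A := bet) (h := N) (s := s) (x := x) (contDiffAt_bet hc.ne') hN
  obtain ⟨b2, c2⟩ := pd_pd_mix (A := alp) (h := Ψ) (s := s) (x := x) (contDiffAt_alp hs.ne') hΨ
  have q0 : fH N Ψ s 0 = fun z => zf (z 0) + N (QH s z) := rfl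
  have q1 : fH N Ψ s 1 = fun z => bet (z 0) + N (QH s z) := rfl
  have q2 : fH N Ψ s 2 = fun z => alp (z 0) + Ψ (QH s z) := rfl
  rw [q0, q1, q2, b1, b2, c0, c2, a0, a0, a1, a1, a2, a2, pd_QH, pd_QH,
    (hasDerivAt_bet hc.ne').deriv, (hasDerivAt_alp hs.ne').deriv, deriv2_bet hc.ne',
    deriv2_alp hs.ne']
  have hexp : Real.exp (-(2 * (bet (x 0) + N (QH s x)))) =
      Real.exp (-(2 * bet (x 0))) * Real.exp (-(2 * N (QH s x))) := by
    rw [← Real.exp_add]; congr 1; ring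
  have e3 : (1 : Fin 3) ≠ 0 := by decide
  simp only [hexp, deriv_zf, deriv2_zf, if_true, e3, e3.symm, if_false]
  generalize Real.exp (-(2 * bet (x 0))) = E
  have e4 : Real.exp (-(2 * (zf (x 0) + N (QH s x)))) = Real.exp (-(2 * N (QH s x))) := by
    rw [zf, zero_add]
  simp only [e4]
  generalize Real.exp (-(2 * N (QH s x))) = F
  generalize deriv (deriv N) (QH s x) = N2
  generalize deriv (deriv Ψ) (QH s x) = P2
  generalize deriv N (QH s x) = N1
  generalize deriv Ψ (QH s x) = P1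
  have hcs := Real.sin_sq_add_cos_sq (x 0)
  generalize Real.sin (x 0) = S at *
  generalize Real.cos (x 0) = C at *
  generalize Real.sin (x 1) = S1
  generalize Real.cos (x 1) = C1
  have hC2 : C ^ 2 = 1 - S ^ 2 := by linarith
  have hS : S ≠ 0 := hs.ne'
  have hC : C ≠ 0 := hc.ne'
  have h1 : 1 / C ^ 2 = 1 + (S / C) ^ 2 := by field_simp; linarith
  have h2 : 1 / S ^ 2 = 1 + (C / S) ^ 2 := by field_simp; linarith
  have h3 : S / C * (C / S) = 1 := by field_simp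
  have h4 : S / C * C = S := by field_simp
  have h5 : C / S * S = C := by field_simp
  rw [h1, h2]
  generalize S / C = σ at *
  generalize C / S = κ at *
  linear_combination (-2*F*(-2*S-2*S*N1-2*S*P1)) * h4 + (-2*F*(-2*C+4*C*P1)) * h5
    + (2*F) * h3 + (-2*F*(-2+2*N1+2*P1)) * hcs

/-- The inequality that makes the scalar curvature at least `6`. -/
def Good (N Ψ : ℝ → ℝ) (Q : ℝ) : Prop :=
  deriv N Q ≤ 0 ∧ deriv Ψ Q ≤ 0 ∧ ∀ D, 0 ≤ D → D ≤ 4 * Q →
    3 * Real.exp (2 * N Q) ≤ 4 - (deriv N Q + deriv Ψ Q) * (4 - 8 * Q) - deriv Ψ Q * (4 - 12 * Q)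
      - (deriv (deriv N) Q + deriv (deriv Ψ) Q + deriv Ψ Q ^ 2) * D

theorem exp_bet {r : ℝ} (hc : 0 < Real.cos r) : Real.exp (2 * bet r) =
    Real.cos r ^ 2 * Real.exp (2 * Real.sin r ^ 2) := by
  have h : 2 * bet r = Real.log (Real.cos r) + Real.log (Real.cos r) + 2 * Real.sin r ^ 2 := by
    unfold bet
    have := Real.sin_sq_add_cos_sq r
    nlinarith
  rw [h, Real.exp_add, Real.exp_add, Real.exp_log hc]
  ring

theorem sc_fH_ge {N Ψ : ℝ → ℝ} {s : ℝ} {x : V3} (hs : 0 < Real.sin (x 0))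
    (hc : 0 < Real.cos (x 0)) (hN : ContDiffAt ℝ 2 N (QH s x)) (hΨ : ContDiffAt ℝ 2 Ψ (QH s x))
    (hss : s ^ 2 = 1) (ha : Real.sin (x 0) ^ 2 ≤ 1 / 2) (hg : Good N Ψ (QH s x)) :
    6 ≤ scalarCurvature (dg (fH N Ψ s)) x := by
  rw [sc_fH hs hc hN hΨ]
  obtain ⟨g1, g2, g3⟩ := hg
  have hB := exp_bet hc
  set E := Real.exp (-(2 * bet (x 0))) with hE
  have hEB : E * (Real.cos (x 0) ^ 2 * Real.exp (2 * Real.sin (x 0) ^ 2)) = 1 := by
    rw [← hB, hE, ← Real.exp_add]; simp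
  have hE0 : 0 < E := Real.exp_pos _
  have hcs := Real.sin_sq_add_cos_sq (x 0)
  have hcs1 := Real.sin_sq_add_cos_sq (x 1)
  set a := Real.sin (x 0) ^ 2 with haa
  have ha0 : 0 ≤ a := sq_nonneg _
  have hb : Real.cos (x 0) ^ 2 = 1 - a := by linarith
  rw [hb] at hEB ⊢
  -- bounds for `E = 1 / B²`
  have h1a : 0 ≤ 1 - a := by linarith
  have haa1 : 0 ≤ a * (1 - a) := mul_nonneg ha0 h1a
  have hexp1 : 1 + 2 * a + 2 * a ^ 2 ≤ Real.exp (2 * a) := by
    have h := Real.quadratic_le_exp_of_nonneg (x := 2 * a) (by linarith)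
    have e : 1 + 2 * a + (2 * a) ^ 2 / 2 = 1 + 2 * a + 2 * a ^ 2 := by ring
    linarith
  have hE1 : E ≤ 1 := by
    have h1 : 1 ≤ (1 - a) * Real.exp (2 * a) := by
      have h2 : (1 - a) * (1 + 2 * a + 2 * a ^ 2) ≤ (1 - a) * Real.exp (2 * a) :=
        mul_le_mul_of_nonneg_left hexp1 h1a
      have h4 : a ^ 2 ≤ 1 / 4 := by nlinarith
      have h3 : 0 ≤ a * (1 - 2 * a ^ 2) := mul_nonneg ha0 (by linarith)
      have h5 : (1 - a) * (1 + 2 * a + 2 * a ^ 2) = 1 + a * (1 - 2 * a ^ 2) := by ring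
      linarith
    have h2 : E * 1 ≤ E * ((1 - a) * Real.exp (2 * a)) := mul_le_mul_of_nonneg_left h1 hE0.le
    linarith
  have hE2 : 1 - a ≤ E := by
    have h1 : 1 - a ≤ Real.exp (-a) := Real.one_sub_le_exp_neg a
    have h2 : Real.exp (-a) * Real.exp a = 1 := by rw [← Real.exp_add]; simp
    have h3 : Real.exp (2 * a) = Real.exp a * Real.exp a := by rw [← Real.exp_add]; ring_nf
    have h4 : (1 - a) * Real.exp a ≤ 1 :=
      (mul_le_mul_of_nonneg_right h1 (Real.exp_pos a).le).trans_eq h2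
    have h5 : 0 ≤ (1 - a) * Real.exp a := mul_nonneg (by linarith) (Real.exp_pos a).le
    have h6 : (1 - a) * ((1 - a) * Real.exp (2 * a)) ≤ 1 := by
      rw [h3]
      have : (1 - a) * ((1 - a) * (Real.exp a * Real.exp a)) =
        ((1 - a) * Real.exp a) * ((1 - a) * Real.exp a) := by ring
      rw [this]
      exact mul_le_one₀ h4 h5 h4
    have h7 : E * ((1 - a) * ((1 - a) * Real.exp (2 * a))) ≤ E * 1 :=
      mul_le_mul_of_nonneg_left h6 hE0.le
    have h8 : E * ((1 - a) * ((1 - a) * Real.exp (2 * a))) = 1 - a := by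
      calc _ = (1 - a) * (E * ((1 - a) * Real.exp (2 * a))) := by ring
        _ = 1 - a := by rw [hEB, mul_one]
    linarith
  set c2 := 2 - 2 * s * Real.cos (x 1) with hc2
  have hQ : QH s x = a + c2 := by simp only [QH, hc2, haa]; ring
  have hsc : 2 * s * Real.cos (x 1) = 2 - c2 := by rw [hc2]; ring
  have hss1 : (2 * s * Real.sin (x 1)) ^ 2 = 4 * c2 - c2 ^ 2 := by
    rw [hc2]; linear_combination (4 * s ^ 2) * hcs1 + 4 * hss
  have hsC : (s * Real.cos (x 1)) ^ 2 ≤ 1 := by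
    rw [mul_pow, hss, one_mul]; exact Real.cos_sq_le_one _
  have habs := abs_le.mp ((sq_le_one_iff_abs_le_one _).mp hsC)
  have hc2' : c2 = 2 - 2 * (s * Real.cos (x 1)) := by rw [hc2]; ring
  have hc20 : 0 ≤ c2 := by rw [hc2']; linarith [habs.2]
  have hc24 : c2 ≤ 4 := by rw [hc2']; linarith [habs.1]
  rw [hsc, hss1]
  set Q := QH s x with hQdef
  have hac : 0 ≤ a * c2 := mul_nonneg ha0 hc20
  have hcc : 0 ≤ c2 * (4 - c2) := mul_nonneg hc20 (by linarith)
  have hΔ : 4 - 8 * Q ≤ 2 - 6 * a + 4 * (a * (1 - a)) + (2 - c2) * E := by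
    rcases le_total c2 2 with h | h
    · have : (2 - c2) * (1 - a) ≤ (2 - c2) * E := mul_le_mul_of_nonneg_left hE2 (by linarith)
      have e : (2 - c2) * (1 - a) = 2 - 2 * a - c2 + a * c2 := by ring
      linarith
    · have : (c2 - 2) * E ≤ (c2 - 2) * 1 := mul_le_mul_of_nonneg_left hE1 (by linarith)
      have e : (2 - c2) * E = -((c2 - 2) * E) := by ring
      linarith
  have hEE : 4 - 12 * Q ≤ 4 * (1 - a) - 8 * (a * (1 - a)) := by
    have e : a * (1 - a) = a - a ^ 2 := by ring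
    have := sq_nonneg a
    linarith
  have e4 : 4 * c2 - c2 ^ 2 = c2 * (4 - c2) := by ring
  have h10 : 0 ≤ 4 * c2 - c2 ^ 2 := by rw [e4]; exact hcc
  have hD0 : 0 ≤ 4 * (a * (1 - a)) + (4 * c2 - c2 ^ 2) * E :=
    add_nonneg (by linarith) (mul_nonneg h10 hE0.le)
  have hD1 : 4 * (a * (1 - a)) + (4 * c2 - c2 ^ 2) * E ≤ 4 * Q := by
    have h2 : (4 * c2 - c2 ^ 2) * E ≤ (4 * c2 - c2 ^ 2) * 1 := mul_le_mul_of_nonneg_left hE1 h10
    have e : a * (1 - a) = a - a ^ 2 := by ring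
    have := sq_nonneg a
    have := sq_nonneg c2
    linarith
  have h3 := g3 _ hD0 hD1
  set D := 4 * (a * (1 - a)) + (4 * c2 - c2 ^ 2) * E with hD
  have e1 : (-(deriv N Q + deriv Ψ Q)) * (4 - 8 * Q) ≤
      (-(deriv N Q + deriv Ψ Q)) * (2 - 6 * a + 4 * (a * (1 - a)) + (2 - c2) * E) :=
    mul_le_mul_of_nonneg_left hΔ (by linarith)
  have e2 : (-(deriv Ψ Q)) * (4 - 12 * Q) ≤ (-(deriv Ψ Q)) * (4 * (1 - a) - 8 * (a * (1 - a))) :=
    mul_le_mul_of_nonneg_left hEE (by linarith)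
  have e3 : 4 ≤ 5 - 4 * (a * (1 - a)) := by
    have h := sq_nonneg (1 - 2 * a)
    have e : (1 - 2 * a) ^ 2 = 1 - 4 * (a * (1 - a)) := by ring
    linarith
  have h4 : 3 * Real.exp (2 * N Q) ≤ 5 - 4 * (a * (1 - a)) -
      (deriv N Q + deriv Ψ Q) * (2 - 6 * a + 4 * (a * (1 - a)) + (2 - c2) * E) -
      deriv Ψ Q * (4 * (1 - a) - 8 * (a * (1 - a))) -
      (deriv (deriv N) Q + deriv (deriv Ψ) Q + deriv Ψ Q ^ 2) * D := by linarith
  have h5 : Real.exp (-(2 * N Q)) * Real.exp (2 * N Q) = 1 := by rw [← Real.exp_add]; simp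
  have h6 : 0 < Real.exp (-(2 * N Q)) := Real.exp_pos _
  have h7 := mul_le_mul_of_nonneg_left h4 h6.le
  have h8 : Real.exp (-(2 * N Q)) * (3 * Real.exp (2 * N Q)) = 3 := by
    rw [mul_left_comm, h5, mul_one]
  rw [h8] at h7
  linarith

end
end Pool.Agent.P598
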