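import Pool.Agent.P598.Field
open scoped ContDiff Topology
open Set Filter
namespace Pool.Agent.P598
noncomputable section

/-- Hopf coordinates of the sphere: `(r, θ, t) ↦ (sin r e^{it}, cos r e^{iθ})`. -/
def HH (x : V3) : E4 := WithLp.toLp 2 ![Real.sin (x 0) * Real.cos (x 2),
  Real.sin (x 0) * Real.sin (x 2), Real.cos (x 0) * Real.cos (x 1), Real.cos (x 0) * Real.sin (x 1)]

@[simp] theorem HH0 (x : V3) : HH x 0 = Real.sin (x 0) * Real.cos (x 2) := rfl
@[simp] theorem HH1 (x : V3) : HH x 1 = Real.sin (x 0) * Real.sin (x 2) := rfl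
@[simp] theorem HH2 (x : V3) : HH x 2 = Real.cos (x 0) * Real.cos (x 1) := rfl
@[simp] theorem HH3 (x : V3) : HH x 3 = Real.cos (x 0) * Real.sin (x 1) := rfl

theorem contDiff_sinc (n : WithTop ℕ∞) (i : Fin 3) :
    ContDiff ℝ n (fun x : V3 => Real.sin (x i)) := Real.contDiff_sin.comp (contDiff_coord n i)

theorem contDiff_cosc (n : WithTop ℕ∞) (i : Fin 3) :
    ContDiff ℝ n (fun x : V3 => Real.cos (x i)) := Real.contDiff_cos.comp (contDiff_coord n i)

theorem contDiff_HH (n : WithTop ℕ∞) : ContDiff ℝ n HH := by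
  rw [contDiff_euclidean]
  intro i
  fin_cases i
  · exact (contDiff_sinc n 0).mul (contDiff_cosc n 2)
  · exact (contDiff_sinc n 0).mul (contDiff_sinc n 2)
  · exact (contDiff_cosc n 0).mul (contDiff_cosc n 1)
  · exact (contDiff_cosc n 0).mul (contDiff_sinc n 1)

/-- coordinates of the derivative -/
theorem fderiv_coord4 {f : V3 → E4} {x : V3} (hf : DifferentiableAt ℝ f x) (i : Fin 3)
    (k : Fin 4) : fderiv ℝ f x (bv i) k = pd i (fun y => f y k) x := by
  unfold pd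
  have h1 : HasFDerivAt (fun y => f y k)
      ((EuclideanSpace.proj k : E4 →L[ℝ] ℝ).comp (fderiv ℝ f x)) x :=
    (EuclideanSpace.proj k : E4 →L[ℝ] ℝ).hasFDerivAt.comp x hf.hasFDerivAt
  rw [h1.fderiv]
  simp

theorem diff_sinc (i : Fin 3) (x : V3) : DifferentiableAt ℝ (fun x : V3 => Real.sin (x i)) x :=
  (contDiff_sinc 1 i).differentiable (by norm_num) x

theorem diff_cosc (i : Fin 3) (x : V3) : DifferentiableAt ℝ (fun x : V3 => Real.cos (x i)) x :=
  (contDiff_cosc 1 i).differentiable (by norm_num) x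

theorem dHH (x : V3) (i : Fin 3) (k : Fin 4) : fderiv ℝ HH x (bv i) k =
    (![![Real.cos (x 0) * Real.cos (x 2), Real.cos (x 0) * Real.sin (x 2),
        -(Real.sin (x 0) * Real.cos (x 1)), -(Real.sin (x 0) * Real.sin (x 1))],
      ![0, 0, -(Real.cos (x 0) * Real.sin (x 1)), Real.cos (x 0) * Real.cos (x 1)],
      ![-(Real.sin (x 0) * Real.sin (x 2)), Real.sin (x 0) * Real.cos (x 2), 0, 0]] :
      Fin 3 → Fin 4 → ℝ) i k := by
  rw [fderiv_coord4 ((contDiff_HH 1).differentiable (by norm_num) x)]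
  fin_cases k
  · change pd i (fun y : V3 => Real.sin (y 0) * Real.cos (y 2)) x = _
    rw [pd_mul i (diff_sinc 0 x) (diff_cosc 2 x), pd_sin_coord, pd_cos_coord]
    fin_cases i <;> simp
  · change pd i (fun y : V3 => Real.sin (y 0) * Real.sin (y 2)) x = _
    rw [pd_mul i (diff_sinc 0 x) (diff_sinc 2 x), pd_sin_coord, pd_sin_coord]
    fin_cases i <;> simp
  · change pd i (fun y : V3 => Real.cos (y 0) * Real.cos (y 1)) x = _
    rw [pd_mul i (diff_cosc 0 x) (diff_cosc 1 x), pd_cos_coord, pd_cos_coord]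
    fin_cases i <;> simp
  · change pd i (fun y : V3 => Real.cos (y 0) * Real.sin (y 1)) x = _
    rw [pd_mul i (diff_cosc 0 x) (diff_sinc 1 x), pd_cos_coord, pd_sin_coord]
    fin_cases i <;> simp

theorem aa_HH (x : V3) : aa (HH x) = Real.sin (x 0) ^ 2 := by
  simp only [aa, HH0, HH1]
  nlinarith [Real.sin_sq_add_cos_sq (x 2)]

theorem bb_HH (x : V3) : bb (HH x) = Real.cos (x 0) ^ 2 := by
  simp only [bb, HH2, HH3]
  nlinarith [Real.sin_sq_add_cos_sq (x 1)]

theorem HH_mem (x : V3) : HH x ∈ S3 := by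
  rw [mem_S3, aa_HH, bb_HH]; exact Real.sin_sq_add_cos_sq _

theorem Qs_HH (s : ℝ) {x : V3} (hc : 0 < Real.cos (x 0)) : Qs s (HH x) = QH s x := by
  unfold Qs QH
  rw [aa_HH, bb_HH, HH2, Real.sqrt_sq hc.le]
  field_simp

variable (d : ProfData)

/-- The metric in Hopf coordinates is diagonal. -/
theorem pull_HH {N Ψ : ℝ → ℝ} {s : ℝ} {x : V3} (hs : 0 < Real.sin (x 0))
    (hc : 0 < Real.cos (x 0)) (h1 : N1 d (HH x) = N (QH s x)) (h2 : P1 d (HH x) = Ψ (QH s x))
    (h3 : N1 d (sw (HH x)) = 0) (h4 : P1 d (sw (HH x)) = 0) (i j : Fin 3) :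
    gg d (HH x) (fderiv ℝ HH x (bv i)) (fderiv ℝ HH x (bv j)) = dg (fH N Ψ s) x i j := by
  have hm : mm d (HH x) = Real.exp (2 * N (QH s x)) := by
    unfold mm; rw [h1, h3, add_zero]
  have hcz : cz d (HH x) = (Real.sin (x 0) ^ 2 * Real.exp (2 * (1 - Real.sin (x 0) ^ 2
      + Ψ (QH s x))) - Real.sin (x 0) ^ 2 * mm d (HH x)) / (Real.sin (x 0) ^ 2) ^ 2 := by
    unfold cz
    rw [aa_HH, h2, h3, add_zero]
    field_simp
  have hcw : cz d (sw (HH x)) = (Real.cos (x 0) ^ 2 * Real.exp (2 * (1 - Real.cos (x 0) ^ 2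
      + N (QH s x))) - Real.cos (x 0) ^ 2 * mm d (HH x)) / (Real.cos (x 0) ^ 2) ^ 2 := by
    unfold cz
    rw [aa_sw, bb_HH, h4, sw_sw, h1, add_zero, mm_sw]
    field_simp
  have e0 : Real.exp (2 * fH N Ψ s 0 x) = mm d (HH x) := by
    rw [hm]; congr 1; simp [fH, zf]
  have e1 : Real.exp (2 * fH N Ψ s 1 x) = Real.cos (x 0) ^ 2 * Real.exp (2 * (1 -
      Real.cos (x 0) ^ 2 + N (QH s x))) := by
    have : 2 * fH N Ψ s 1 x = Real.log (Real.cos (x 0)) + Real.log (Real.cos (x 0)) +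
        2 * (1 - Real.cos (x 0) ^ 2 + N (QH s x)) := by simp [fH, bet]; ring
    rw [this, Real.exp_add, Real.exp_add, Real.exp_log hc]; ring
  have e2 : Real.exp (2 * fH N Ψ s 2 x) = Real.sin (x 0) ^ 2 * Real.exp (2 * (1 -
      Real.sin (x 0) ^ 2 + Ψ (QH s x))) := by
    have : 2 * fH N Ψ s 2 x = Real.log (Real.sin (x 0)) + Real.log (Real.sin (x 0)) +
        2 * (1 - Real.sin (x 0) ^ 2 + Ψ (QH s x)) := by simp [fH, alp]; ring
    rw [this, Real.exp_add, Real.exp_add, Real.exp_log hs]; ring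
  rw [gg_apply, hcz, hcw]
  simp only [dHH]
  rw [dg_apply]
  generalize mm d (HH x) = M at *
  generalize Real.exp (2 * (1 - Real.sin (x 0) ^ 2 + Ψ (QH s x))) = X at *
  generalize Real.exp (2 * (1 - Real.cos (x 0) ^ 2 + N (QH s x))) = Y at *
  have q0 := Real.sin_sq_add_cos_sq (x 0)
  have q1 := Real.sin_sq_add_cos_sq (x 1)
  have q2 := Real.sin_sq_add_cos_sq (x 2)
  simp only [HH0, HH1, HH2, HH3]
  fin_cases i <;> fin_cases j <;> simp
  · rw [e0]
    have h : ∀ Z W : ℝ, M * (Real.cos (x 0) * Real.cos (x 2) * (Real.cos (x 0) * Real.cos (x 2)) +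
        Real.cos (x 0) * Real.sin (x 2) * (Real.cos (x 0) * Real.sin (x 2)) +
        Real.sin (x 0) * Real.cos (x 1) * (Real.sin (x 0) * Real.cos (x 1)) +
        Real.sin (x 0) * Real.sin (x 1) * (Real.sin (x 0) * Real.sin (x 1))) +
        Z * ((Real.sin (x 0) * Real.cos (x 2) * (Real.cos (x 0) * Real.sin (x 2)) -
        Real.sin (x 0) * Real.sin (x 2) * (Real.cos (x 0) * Real.cos (x 2))) *
        (Real.sin (x 0) * Real.cos (x 2) * (Real.cos (x 0) * Real.sin (x 2)) -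
        Real.sin (x 0) * Real.sin (x 2) * (Real.cos (x 0) * Real.cos (x 2)))) +
        W * ((-(Real.cos (x 0) * Real.cos (x 1) * (Real.sin (x 0) * Real.sin (x 1))) +
        Real.cos (x 0) * Real.sin (x 1) * (Real.sin (x 0) * Real.cos (x 1))) *
        (-(Real.cos (x 0) * Real.cos (x 1) * (Real.sin (x 0) * Real.sin (x 1))) +
        Real.cos (x 0) * Real.sin (x 1) * (Real.sin (x 0) * Real.cos (x 1)))) =
        M * (Real.cos (x 0) ^ 2 * (Real.sin (x 2) ^ 2 + Real.cos (x 2) ^ 2) +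
          Real.sin (x 0) ^ 2 * (Real.sin (x 1) ^ 2 + Real.cos (x 1) ^ 2)) := by
      intro Z W; ring
    rw [h, q1, q2, mul_one, mul_one, add_comm, q0, mul_one]
  · ring
  · ring
  · ring
  · rw [e1]
    have h : ∀ Z : ℝ, M * (Real.cos (x 0) * Real.sin (x 1) * (Real.cos (x 0) * Real.sin (x 1)) +
        Real.cos (x 0) * Real.cos (x 1) * (Real.cos (x 0) * Real.cos (x 1))) +
        Z * ((Real.cos (x 0) * Real.cos (x 1) * (Real.cos (x 0) * Real.cos (x 1)) +
        Real.cos (x 0) * Real.sin (x 1) * (Real.cos (x 0) * Real.sin (x 1))) *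
        (Real.cos (x 0) * Real.cos (x 1) * (Real.cos (x 0) * Real.cos (x 1)) +
        Real.cos (x 0) * Real.sin (x 1) * (Real.cos (x 0) * Real.sin (x 1)))) =
        M * (Real.cos (x 0) ^ 2 * (Real.sin (x 1) ^ 2 + Real.cos (x 1) ^ 2)) +
        Z * (Real.cos (x 0) ^ 2 * (Real.sin (x 1) ^ 2 + Real.cos (x 1) ^ 2)) ^ 2 := by
      intro Z; ring
    rw [h, q1, mul_one]
    field_simp
    ring
  · ring
  · rw [e2]
    have h : ∀ Z : ℝ, M * (Real.sin (x 0) * Real.sin (x 2) * (Real.sin (x 0) * Real.sin (x 2)) +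
        Real.sin (x 0) * Real.cos (x 2) * (Real.sin (x 0) * Real.cos (x 2))) +
        Z * ((Real.sin (x 0) * Real.cos (x 2) * (Real.sin (x 0) * Real.cos (x 2)) +
        Real.sin (x 0) * Real.sin (x 2) * (Real.sin (x 0) * Real.sin (x 2))) *
        (Real.sin (x 0) * Real.cos (x 2) * (Real.sin (x 0) * Real.cos (x 2)) +
        Real.sin (x 0) * Real.sin (x 2) * (Real.sin (x 0) * Real.sin (x 2)))) =
        M * (Real.sin (x 0) ^ 2 * (Real.sin (x 2) ^ 2 + Real.cos (x 2) ^ 2)) +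
        Z * (Real.sin (x 0) ^ 2 * (Real.sin (x 2) ^ 2 + Real.cos (x 2) ^ 2)) ^ 2 := by
      intro Z; ring
    rw [h, q2, mul_one]
    field_simp
    ring

end
end Pool.Agent.P598
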