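import Pool.Agent.P598.HopfMap
open scoped ContDiff Topology
open Set Filter
namespace Pool.Agent.P598
noncomputable section

theorem exists_HH {p : E4} (hp : p ∈ S3) (ha : aa p ≠ 0) (hb : bb p ≠ 0) :
    ∃ y : V3, HH y = p ∧ 0 < Real.sin (y 0) ∧ 0 < Real.cos (y 0) := by
  have h1 := (mem_S3 p).mp hp
  have ha0 : 0 < aa p := lt_of_le_of_ne (aa_nonneg p) (Ne.symm ha)
  have hb0 : 0 < bb p := lt_of_le_of_ne (bb_nonneg p) (Ne.symm hb)
  have hsb : 0 < Real.sqrt (bb p) := Real.sqrt_pos.mpr hb0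
  have hsa : 0 < Real.sqrt (aa p) := Real.sqrt_pos.mpr ha0
  have hb1 : Real.sqrt (bb p) ≤ 1 := Real.sqrt_le_one.mpr (by linarith)
  have hcos : Real.cos (Real.arccos (Real.sqrt (bb p))) = Real.sqrt (bb p) :=
    Real.cos_arccos (by linarith) hb1
  have hsin : Real.sin (Real.arccos (Real.sqrt (bb p))) = Real.sqrt (aa p) := by
    rw [Real.sin_arccos, Real.sq_sqrt hb0.le]
    congr 1; linarith
  set z : ℂ := ⟨p 0, p 1⟩ with hz
  set w : ℂ := ⟨p 2, p 3⟩ with hw
  have hnz : ‖z‖ = Real.sqrt (aa p) := by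
    rw [Complex.norm_def, Complex.normSq_apply]; congr 1; simp [hz, aa]; ring
  have hnw : ‖w‖ = Real.sqrt (bb p) := by
    rw [Complex.norm_def, Complex.normSq_apply]; congr 1; simp [hw, bb]; ring
  have hz0 : z ≠ 0 := by rw [← norm_pos_iff, hnz]; exact hsa
  have hw0 : w ≠ 0 := by rw [← norm_pos_iff, hnw]; exact hsb
  refine ⟨![Real.arccos (Real.sqrt (bb p)), Complex.arg w, Complex.arg z], ?_, ?_, ?_⟩
  · ext k
    fin_cases k
    · simp only [Fin.zero_eta, HH0, Matrix.cons_val_zero, Matrix.cons_val]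
      rw [hsin, Complex.cos_arg hz0, hnz]
      simp only [hz]; field_simp
    · simp only [Fin.mk_one, HH1, Matrix.cons_val_zero, Matrix.cons_val]
      rw [hsin, Complex.sin_arg, hnz]
      simp only [hz]; field_simp
    · simp only [Fin.reduceFinMk, HH2, Matrix.cons_val_zero, Matrix.cons_val, Matrix.cons_val_one]
      rw [hcos, Complex.cos_arg hw0, hnw]
      simp only [hw]; field_simp
    · simp only [Fin.reduceFinMk, HH3, Matrix.cons_val_zero, Matrix.cons_val, Matrix.cons_val_one]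
      rw [hcos, Complex.sin_arg, hnw]
      simp only [hw]; field_simp
  · simp only [Matrix.cons_val_zero]; rw [hsin]; exact hsa
  · simp only [Matrix.cons_val_zero]; rw [hcos]; exact hsb

theorem dHH_apply (y u : V3) (k : Fin 4) :
    fderiv ℝ HH y u k = ∑ i, u i * fderiv ℝ HH y (bv i) k := by
  conv_lhs => rw [eq_sum_bv3 u]
  simp [map_add, Fin.sum_univ_three]

/-- the extended Hopf map -/
def HX (z : V3 × ℝ) : E4 := z.2 • HH z.1

/-- its derivative -/
def HXd (y : V3) : (V3 × ℝ) →L[ℝ] E4 :=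
  (fderiv ℝ HH y).comp (ContinuousLinearMap.fst ℝ V3 ℝ) +
    (ContinuousLinearMap.snd ℝ V3 ℝ).smulRight (HH y)

theorem HXd_apply (y u : V3) (σ : ℝ) : HXd y (u, σ) = fderiv ℝ HH y u + σ • HH y := rfl

theorem contDiff_HX (n : WithTop ℕ∞) : ContDiff ℝ n HX :=
  contDiff_snd.smul ((contDiff_HH n).comp contDiff_fst)

theorem hasFDerivAt_HX (y : V3) : HasFDerivAt HX (HXd y) (y, 1) := by
  have h1 : HasFDerivAt HH (fderiv ℝ HH y) y :=
    ((contDiff_HH 1).differentiable (by norm_num) y).hasFDerivAt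
  have h2 : HasFDerivAt (fun z : V3 × ℝ => HH z.1)
      ((fderiv ℝ HH y).comp (ContinuousLinearMap.fst ℝ V3 ℝ)) (y, (1:ℝ)) :=
    HasFDerivAt.comp (y, (1:ℝ)) (g := HH) (f := Prod.fst) h1 hasFDerivAt_fst
  have h3 := (hasFDerivAt_snd (𝕜 := ℝ) (p := ((y, (1:ℝ)) : V3 × ℝ))).smul h2
  refine h3.congr_fderiv ?_
  apply ContinuousLinearMap.ext
  rintro ⟨u, σ⟩
  change (1:ℝ) • fderiv ℝ HH y u + σ • HH y = _
  rw [one_smul]; rfl

theorem HXd_injective {y : V3} (hs : 0 < Real.sin (y 0)) (hc : 0 < Real.cos (y 0)) :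
    Function.Injective (HXd y) := by
  rw [injective_iff_map_eq_zero]
  rintro ⟨u, σ⟩ h
  rw [HXd_apply] at h
  have hk : ∀ k, (∑ i, u i * fderiv ℝ HH y (bv i) k) + σ * HH y k = 0 := by
    intro k
    have := congrArg (fun v : E4 => v k) h
    simp only [PiLp.add_apply, PiLp.smul_apply, smul_eq_mul, PiLp.zero_apply] at this
    rw [dHH_apply] at this
    exact this
  have k0 := hk 0
  have k1 := hk 1
  have k2 := hk 2
  have k3 := hk 3
  simp only [dHH, Fin.sum_univ_three] at k0 k1 k2 k3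
  simp at k0 k1 k2 k3
  have q0 := Real.sin_sq_add_cos_sq (y 0)
  have q1 := Real.sin_sq_add_cos_sq (y 1)
  have q2 := Real.sin_sq_add_cos_sq (y 2)
  have e1 : u 0 * Real.cos (y 0) + σ * Real.sin (y 0) = 0 := by
    linear_combination (Real.cos (y 2)) * k0 + (Real.sin (y 2)) * k1 -
      (u 0 * Real.cos (y 0) + σ * Real.sin (y 0)) * q2
  have e2 : u 2 * Real.sin (y 0) = 0 := by
    linear_combination (-Real.sin (y 2)) * k0 + (Real.cos (y 2)) * k1 -
      (u 2 * Real.sin (y 0)) * q2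
  have e3 : -(u 0 * Real.sin (y 0)) + σ * Real.cos (y 0) = 0 := by
    linear_combination (Real.cos (y 1)) * k2 + (Real.sin (y 1)) * k3 -
      (-(u 0 * Real.sin (y 0)) + σ * Real.cos (y 0)) * q1
  have e4 : u 1 * Real.cos (y 0) = 0 := by
    linear_combination (-Real.sin (y 1)) * k2 + (Real.cos (y 1)) * k3 -
      (u 1 * Real.cos (y 0)) * q1
  have f0 : u 0 = 0 := by
    linear_combination (Real.cos (y 0)) * e1 - (Real.sin (y 0)) * e3 - (u 0) * q0
  have f1 : u 1 = 0 := by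
    rcases mul_eq_zero.mp e4 with h | h
    · exact h
    · exact absurd h hc.ne'
  have f2 : u 2 = 0 := by
    rcases mul_eq_zero.mp e2 with h | h
    · exact h
    · exact absurd h hs.ne'
  have f3 : σ = 0 := by
    linear_combination (Real.sin (y 0)) * e1 + (Real.cos (y 0)) * e3 - σ * q0
  ext i
  · fin_cases i
    · exact f0
    · exact f1
    · exact f2
  · exact f3

/-- Lifting of maps to the sphere through Hopf coordinates. -/
theorem exists_lift {φ : V3 → E4} {x y : V3} (hφ : ContDiffAt ℝ ∞ φ x)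
    (hS : ∀ᶠ z in 𝓝 x, φ z ∈ S3) (hxy : φ x = HH y) (hs : 0 < Real.sin (y 0))
    (hc : 0 < Real.cos (y 0)) :
    ∃ F : V3 → V3, ContDiffAt ℝ ∞ F x ∧ F x = y ∧ ∀ᶠ z in 𝓝 x, HH (F z) = φ z := by
  have hinj := HXd_injective hs hc
  have hdim : Module.finrank ℝ (V3 × ℝ) = Module.finrank ℝ E4 := by
    simp
  let L : (V3 × ℝ) ≃L[ℝ] E4 :=
    (LinearMap.linearEquivOfInjective (HXd y).toLinearMap hinj hdim).toContinuousLinearEquiv
  have hL : (L : (V3 × ℝ) →L[ℝ] E4) = HXd y := by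
    ext z
    · rfl
    · rfl
  have hd : HasFDerivAt HX (L : (V3 × ℝ) →L[ℝ] E4) (y, 1) := by
    rw [hL]; exact hasFDerivAt_HX y
  have hcd : ContDiffAt ℝ ∞ HX (y, 1) := (contDiff_HX _).contDiffAt
  have hn : (∞ : WithTop ℕ∞) ≠ 0 := by simp
  set Φ := hcd.localInverse hd hn with hΦ
  have hΦs : ContDiffAt ℝ ∞ Φ (HX (y, 1)) := hcd.to_localInverse hd hn
  have hΦ0 : Φ (HX (y, 1)) = (y, 1) := hcd.localInverse_apply_image hd hn
  have hΦr : ∀ᶠ q in 𝓝 (HX (y, 1)), HX (Φ q) = q :=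
    (hcd.hasStrictFDerivAt' hd hn).eventually_right_inverse
  have hx0 : HX (y, 1) = φ x := by rw [hxy]; simp [HX]
  rw [hx0] at hΦs hΦ0 hΦr
  have hΨ : ContDiffAt ℝ ∞ (fun z => Φ (φ z)) x := ContDiffAt.comp x (g := Φ) hΦs hφ
  refine ⟨fun z => (Φ (φ z)).1, hΨ.fst, by simp only; rw [hΦ0], ?_⟩
  have hρc : ContinuousAt (fun z => (Φ (φ z)).2) x := hΨ.snd.continuousAt
  have hρ : ∀ᶠ z in 𝓝 x, 0 < (Φ (φ z)).2 := by
    refine hρc.eventually (Ioi_mem_nhds ?_)
    change 0 < (Φ (φ x)).2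
    rw [hΦ0]; norm_num
  filter_upwards [hφ.continuousAt.eventually hΦr, hS, hρ] with z h1 h2 h3
  have h4 : ‖φ z‖ = 1 := h2
  have h5 : ‖HH (Φ (φ z)).1‖ = 1 := HH_mem _
  have h6 : (Φ (φ z)).2 • HH (Φ (φ z)).1 = φ z := h1
  have h7 : (Φ (φ z)).2 = 1 := by
    have := congrArg (fun v : E4 => ‖v‖) h6
    simp only [norm_smul, h5, h4, mul_one, Real.norm_eq_abs, abs_of_pos h3] at this
    exact this
  rw [h7, one_smul] at h6
  exact h6

end
end Pool.Agent.P598
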