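import Pool.Agent.P598.Tau
import Pool.Agent.P598.Hopf2
open scoped ContDiff Topology
open Set Filter
namespace Pool.Agent.P598
noncomputable section

/-- the variable `y = -4 - log (Q + e)` -/
def yy (e Q : ℝ) : ℝ := -4 - Real.log (Q + e)

theorem hasDerivAt_yy {e Q : ℝ} (h : 0 < Q + e) : HasDerivAt (yy e) (-(1 / (Q + e))) Q := by
  unfold yy
  have h1 : HasDerivAt (fun Q => Q + e) 1 Q := (hasDerivAt_id' Q).add_const e
  have h2 := h1.log h.ne'
  exact (h2.const_sub (-4)).congr_deriv (by simp)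

theorem contDiffAt_yy {e Q : ℝ} (h : 0 < Q + e) (n : WithTop ℕ∞) : ContDiffAt ℝ n (yy e) Q := by
  unfold yy
  have h1 : ContDiffAt ℝ n (fun Q : ℝ => Q + e) Q := contDiffAt_id.add contDiffAt_const
  exact contDiffAt_const.sub (h1.log h.ne')

theorem exp_yy {e Q : ℝ} (h : 0 < Q + e) : Real.exp (4 + yy e Q) = 1 / (Q + e) := by
  have : 4 + yy e Q = -Real.log (Q + e) := by unfold yy; ring
  rw [this, Real.exp_neg, Real.exp_log h, one_div]

theorem contDiffAt_comp_yy {n : ℝ → ℝ} (hn : ContDiff ℝ ∞ n) {e Q : ℝ} (h : 0 < Q + e) :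
    ContDiffAt ℝ ∞ (fun Q => n (yy e Q)) Q :=
  hn.contDiffAt.comp Q (contDiffAt_yy h _)

theorem hasDerivAt_comp_yy {n : ℝ → ℝ} (hn : Differentiable ℝ n) {e Q : ℝ} (h : 0 < Q + e) :
    HasDerivAt (fun Q => n (yy e Q)) (-(deriv n (yy e Q) / (Q + e))) Q := by
  have h1 := (hn (yy e Q)).hasDerivAt.comp Q (hasDerivAt_yy h)
  exact h1.congr_deriv (by ring)

theorem deriv2_comp_yy {n : ℝ → ℝ} (hn : ContDiff ℝ ∞ n) {e Q : ℝ} (h : 0 < Q + e) :
    deriv (deriv (fun Q => n (yy e Q))) Q =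
      (deriv (deriv n) (yy e Q) + deriv n (yy e Q)) / (Q + e) ^ 2 := by
  have hd : Differentiable ℝ n := hn.differentiable (by simp)
  have hd2 : ContDiff ℝ ∞ (deriv n) := (contDiff_infty_iff_deriv.mp hn).2
  have hd2' : Differentiable ℝ (deriv n) := hd2.differentiable (by simp)
  have hev : deriv (fun Q => n (yy e Q)) =ᶠ[𝓝 Q] fun Q => -(deriv n (yy e Q) / (Q + e)) := by
    have hc : ContinuousAt (fun Q : ℝ => Q + e) Q := by fun_prop
    filter_upwards [hc.eventually (Ioi_mem_nhds h)] with z hz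
    exact (hasDerivAt_comp_yy hd hz).deriv
  rw [hev.deriv_eq]
  have h1 : HasDerivAt (fun Q => Q + e) 1 Q := (hasDerivAt_id' Q).add_const e
  have h2 := ((hasDerivAt_comp_yy hd2' h).fun_div h1 h.ne').fun_neg
  rw [h2.deriv]
  field_simp
  ring

theorem good_of {n ψ : ℝ → ℝ} (hn : ContDiff ℝ ∞ n) (hψ : ContDiff ℝ ∞ ψ) {e Q m : ℝ}
    (he : 0 ≤ e) (hQ : 0 ≤ Q) (hP : 0 < Q + e) (h1 : 0 ≤ deriv n (yy e Q))
    (h2 : 0 ≤ deriv ψ (yy e Q)) (hm : 0 ≤ m)
    (hm2 : deriv (deriv n) (yy e Q) + deriv (deriv ψ) (yy e Q) ≤ m)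
    (hineq : 3 * Real.exp (2 * n (yy e Q)) ≤ 4 - 8 * deriv n (yy e Q) - 20 * deriv ψ (yy e Q) +
      4 * Real.exp (4 + yy e Q) * (deriv ψ (yy e Q) - deriv ψ (yy e Q) ^ 2 - m)) :
    Good (fun Q => n (yy e Q)) (fun Q => ψ (yy e Q)) Q := by
  have hd : Differentiable ℝ n := hn.differentiable (by simp)
  have hdψ : Differentiable ℝ ψ := hψ.differentiable (by simp)
  rw [exp_yy hP] at hineq
  unfold Good
  rw [(hasDerivAt_comp_yy hd hP).deriv, (hasDerivAt_comp_yy hdψ hP).deriv,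
    deriv2_comp_yy hn hP, deriv2_comp_yy hψ hP]
  set y := yy e Q
  set P := Q + e with hPdef
  generalize deriv n y = a at *
  generalize deriv ψ y = b at *
  generalize deriv (deriv n) y = a2 at *
  generalize deriv (deriv ψ) y = b2 at *
  generalize Real.exp (2 * n y) = ex at *
  have hPi : 0 < 1 / P := by positivity
  refine ⟨by rw [neg_nonpos]; positivity, by rw [neg_nonpos]; positivity, fun D hD0 hD1 => ?_⟩
  set i := 1 / P with hi
  have hiP : i * P = 1 := by rw [hi]; field_simp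
  have e1 : a / P = a * i := by rw [hi]; ring
  have e2 : b / P = b * i := by rw [hi]; ring
  have e3 : (a2 + a) / P ^ 2 = (a2 + a) * i ^ 2 := by rw [hi]; field_simp
  have e4 : (b2 + b) / P ^ 2 = (b2 + b) * i ^ 2 := by rw [hi]; field_simp
  rw [e1, e2, e3, e4]
  have hQi : Q * i ≤ 1 := by
    rw [← hiP, mul_comm]; exact mul_le_mul_of_nonneg_left (by linarith) hPi.le
  have hDi : D * i ≤ 4 := by nlinarith
  -- the second order term
  have t1 : (a2 + a + (b2 + b) + b ^ 2) * (i ^ 2 * D) ≤ (m + a + b + b ^ 2) * (i ^ 2 * D) :=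
    mul_le_mul_of_nonneg_right (by linarith) (by positivity)
  have t2 : (m + a + b + b ^ 2) * (i ^ 2 * D) ≤ (m + a + b + b ^ 2) * (4 * i) := by
    refine mul_le_mul_of_nonneg_left ?_ (by positivity)
    nlinarith
  have t3 : (a + b) * (Q * i) ≤ (a + b) * 1 := mul_le_mul_of_nonneg_left hQi (by linarith)
  have t4 : b * (Q * i) ≤ b * 1 := mul_le_mul_of_nonneg_left hQi h2
  have t5 : (-(b * i)) ^ 2 = b ^ 2 * i ^ 2 := by ring
  rw [t5]
  nlinarith [t1, t2, t3, t4, hineq]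

end
end Pool.Agent.P598
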