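import Pool.Agent.P598.Prof
import Pool.Agent.P598.Cond
open scoped ContDiff Topology
open Set Filter
namespace Pool.Agent.P598
noncomputable section

/-- `G + F` for the gap -/
def nG (L f0 y : ℝ) : ℝ := tau (y / L) + f0 * J (y + 1)

/-- `F` -/
def pF (f0 y : ℝ) : ℝ := f0 * J (y + 1)

/-- `V` for the tail -/
def nT (L y : ℝ) : ℝ := L / 2 * J (y / L)

theorem contDiff_comp_div {f : ℝ → ℝ} (hf : ContDiff ℝ ∞ f) (L : ℝ) :
    ContDiff ℝ ∞ fun y => f (y / L) := hf.comp (contDiff_id.div_const L)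

theorem contDiff_comp_add {f : ℝ → ℝ} (hf : ContDiff ℝ ∞ f) (c : ℝ) :
    ContDiff ℝ ∞ fun y => f (y + c) := hf.comp (contDiff_id.add contDiff_const)

theorem contDiff_pF (f0 : ℝ) : ContDiff ℝ ∞ (pF f0) :=
  contDiff_const.mul (contDiff_comp_add J_contDiff 1)

theorem contDiff_nG (L f0 : ℝ) : ContDiff ℝ ∞ (nG L f0) :=
  (contDiff_comp_div tau_contDiff L).add (contDiff_pF f0)

theorem contDiff_nT (L : ℝ) : ContDiff ℝ ∞ (nT L) :=
  contDiff_const.mul (contDiff_comp_div J_contDiff L)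

theorem hasDerivAt_comp_div {f : ℝ → ℝ} (hf : Differentiable ℝ f) (L y : ℝ) :
    HasDerivAt (fun y => f (y / L)) (deriv f (y / L) / L) y := by
  have h1 : HasDerivAt (fun y : ℝ => y / L) (1 / L) y := (hasDerivAt_id' y).div_const L
  have h2 := (hf (y / L)).hasDerivAt.comp y h1
  exact h2.congr_deriv (by ring)

theorem hasDerivAt_comp_add {f : ℝ → ℝ} (hf : Differentiable ℝ f) (c y : ℝ) :
    HasDerivAt (fun y => f (y + c)) (deriv f (y + c)) y := by
  have h1 : HasDerivAt (fun y : ℝ => y + c) 1 y := (hasDerivAt_id' y).add_const c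
  have h2 := (hf (y + c)).hasDerivAt.comp y h1
  exact h2.congr_deriv (by ring)

theorem J_diff : Differentiable ℝ J := fun u => (hasDerivAt_J u).differentiableAt

theorem deriv_pF (f0 : ℝ) : deriv (pF f0) = fun y => f0 * tau (y + 1) := by
  funext y
  have := ((hasDerivAt_comp_add J_diff 1 y).const_mul f0).deriv
  rw [deriv_J] at this
  exact this

theorem deriv2_pF (f0 y : ℝ) : deriv (deriv (pF f0)) y = f0 * deriv tau (y + 1) := by
  rw [deriv_pF]
  exact ((hasDerivAt_comp_add tau_diff 1 y).const_mul f0).deriv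

theorem deriv_nG (L f0 : ℝ) :
    deriv (nG L f0) = fun y => deriv tau (y / L) / L + f0 * tau (y + 1) := by
  funext y
  have := ((hasDerivAt_comp_div tau_diff L y).fun_add
    ((hasDerivAt_comp_add J_diff 1 y).const_mul f0)).deriv
  rw [deriv_J] at this
  exact this

theorem deriv2_nG (L f0 y : ℝ) : deriv (deriv (nG L f0)) y =
    deriv (deriv tau) (y / L) / L / L + f0 * deriv tau (y + 1) := by
  rw [deriv_nG]
  exact (((hasDerivAt_comp_div dtau_diff L y).div_const L).fun_add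
    ((hasDerivAt_comp_add tau_diff 1 y).const_mul f0)).deriv

theorem deriv_nT {L : ℝ} (hL : L ≠ 0) : deriv (nT L) = fun y => tau (y / L) / 2 := by
  funext y
  have := ((hasDerivAt_comp_div J_diff L y).const_mul (L / 2)).deriv
  rw [deriv_J] at this
  have h2 : L / 2 * (tau (y / L) / L) = tau (y / L) / 2 := by field_simp
  rw [← h2]
  exact this

theorem deriv2_nT {L : ℝ} (hL : L ≠ 0) (y : ℝ) :
    deriv (deriv (nT L)) y = deriv tau (y / L) / L / 2 := by
  rw [deriv_nT hL]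
  exact ((hasDerivAt_comp_div tau_diff L y).div_const 2).deriv

theorem good_gap {M1 M2 R : ℝ} (hM1 : 0 ≤ M1) (hM2 : 0 ≤ M2) (b1 : ∀ x, deriv tau x ≤ M1)
    (b2 : ∀ x, deriv (deriv tau) x ≤ M2) (hc : GapCond M1 M2 R) {e Q : ℝ}
    (he : 0 ≤ e) (hQ : 0 ≤ Q) (hP : 0 < Q + e) (hy : yy e Q ≤ R ^ 2 + 1) :
    Good (fun Q => nG (R ^ 2) ((M2 + 2) / R ^ 4) (yy e Q))
      (fun Q => pF ((M2 + 2) / R ^ 4) (yy e Q)) Q := by
  have hR := hc.one
  have hR0 : 0 < R := by linarith
  have hbig := hc.big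
  have c2 := hc.c2
  have c3 := hc.c3
  have c4 := hc.c4
  set L := R ^ 2 with hL
  have hL0 : 0 < L := by positivity
  have hL1 : 1 ≤ L := one_le_pow₀ hR
  set f0 := (M2 + 2) / R ^ 4 with hf0
  have hf0L : f0 = (M2 + 2) / L ^ 2 := by rw [hf0, hL]; ring_nf
  have hf00 : 0 < f0 := by positivity
  -- `f0 - f0 ^ 2 - M2 / L ^ 2 ≥ 1 / L ^ 2`
  have hkey : 1 / R ^ 4 ≤ f0 - f0 ^ 2 - M2 / L ^ 2 := by
    have h1 : f0 ^ 2 = (M2 + 2) ^ 2 / L ^ 2 / L ^ 2 := by rw [hf0L]; field_simp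
    have h2 : (M2 + 2) ^ 2 / L ^ 2 ≤ 1 := by
      rw [div_le_one (by positivity)]
      exact pow_le_pow_left₀ (by linarith) hbig 2
    have h3 : (M2 + 2) ^ 2 / L ^ 2 / L ^ 2 ≤ 1 / L ^ 2 := by gcongr
    have h4 : R ^ 4 = L ^ 2 := by rw [hL]; ring
    have h5 : f0 - M2 / L ^ 2 = 2 / L ^ 2 := by rw [hf0L]; ring
    have h6 : (2:ℝ) / L ^ 2 = 1 / L ^ 2 + 1 / L ^ 2 := by ring
    rw [h4, h1]; linarith
  have h1R : 0 < 1 / R ^ 4 := by positivity
  set y := yy e Q with hydef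
  rcases le_total y (-1) with h | h
  · -- nothing happens
    have q1 : tau (y + 1) = 0 := tau_zero (by linarith)
    have q2 : y / L ≤ 0 := div_nonpos_of_nonpos_of_nonneg (by linarith) hL0.le
    refine good_of (contDiff_nG _ _) (contDiff_pF _) (m := 0) he hQ hP ?_ ?_ le_rfl ?_ ?_
    · rw [deriv_nG, ← hydef]; simp only [q1, dtau_le q2]; simp
    · rw [deriv_pF, ← hydef]; simp only [q1]; simp
    · rw [deriv2_nG, deriv2_pF, ← hydef, ddtau_le q2, dtau_le (show y + 1 ≤ 0 by linarith)]; simp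
    · rw [deriv_nG, deriv_pF, ← hydef]
      simp only [q1, dtau_le q2, nG, tau_zero q2, J_zero (show y + 1 ≤ 0 by linarith)]
      norm_num
  rcases le_total y 0 with h' | h'
  · have q2 : y / L ≤ 0 := div_nonpos_of_nonpos_of_nonneg h' hL0.le
    have q3 : f0 * tau (y + 1) ≤ f0 := mul_le_of_le_one_right hf00.le (tau_le_one _)
    have q4 : 0 ≤ f0 * tau (y + 1) := mul_nonneg hf00.le (tau_nonneg _)
    refine good_of (contDiff_nG _ _) (contDiff_pF _) (m := 2 * f0 * M1) he hQ hP ?_ ?_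
      (by positivity) ?_ ?_
    · rw [deriv_nG, ← hydef]; simp only [dtau_le q2]; simpa using! q4
    · rw [deriv_pF, ← hydef]; exact q4
    · rw [deriv2_nG, deriv2_pF, ← hydef, ddtau_le q2]
      have := mul_le_mul_of_nonneg_left (b1 (y + 1)) hf00.le
      simp only [zero_div, zero_add]
      linarith
    · rw [deriv_nG, deriv_pF, ← hydef]
      have n1 : nG L f0 y ≤ f0 := by
        simp only [nG, tau_zero q2, zero_add]
        refine mul_le_of_le_one_right hf00.le ?_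
        exact (J_le (by linarith)).trans (by linarith)
      simp only [dtau_le q2, zero_div, zero_add]
      have n2 : Real.exp (2 * nG L f0 y) ≤ Real.exp (2 * f0) :=
        Real.exp_le_exp.mpr (by linarith)
      have n3 : Real.exp (4 + y) ≤ Real.exp 4 := Real.exp_le_exp.mpr (by linarith)
      have n5 : (f0 * tau (y + 1)) ^ 2 ≤ f0 ^ 2 := pow_le_pow_left₀ q4 q3 2
      have n4 : -(f0 ^ 2 + 2 * f0 * M1) ≤
          f0 * tau (y + 1) - (f0 * tau (y + 1)) ^ 2 - 2 * f0 * M1 := by linarith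
      have n6 : 4 * Real.exp (4 + y) * (-(f0 ^ 2 + 2 * f0 * M1)) ≤ 4 * Real.exp (4 + y) *
          (f0 * tau (y + 1) - (f0 * tau (y + 1)) ^ 2 - 2 * f0 * M1) :=
        mul_le_mul_of_nonneg_left n4 (by positivity)
      have n7 : Real.exp (4 + y) * (f0 ^ 2 + 2 * f0 * M1) ≤
          Real.exp 4 * (f0 ^ 2 + 2 * f0 * M1) :=
        mul_le_mul_of_nonneg_right n3 (by positivity)
      linarith
  -- now `y ≥ 0`
  have q1 : tau (y + 1) = 1 := tau_one (by linarith)
  have q5 : deriv tau (y + 1) = 0 := dtau_ge (by linarith)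
  have q6 : 0 ≤ deriv tau (y / L) / L := div_nonneg (dtau_nonneg _) hL0.le
  have q7 : deriv tau (y / L) / L ≤ M1 / L := by gcongr; exact b1 _
  have q8 : deriv (deriv tau) (y / L) / L / L ≤ M2 / L ^ 2 := by
    rw [div_div, ← pow_two]; gcongr; exact b2 _
  have q9 : J (y + 1) ≤ y + 1 := J_le (by linarith)
  refine good_of (contDiff_nG _ _) (contDiff_pF _) (m := M2 / L ^ 2) he hQ hP ?_ ?_
      (by positivity) ?_ ?_
  · rw [deriv_nG, ← hydef]; simp only [q1]; linarith
  · rw [deriv_pF, ← hydef]; simp only [q1]; linarith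
  · rw [deriv2_nG, deriv2_pF, ← hydef, q5]; linarith
  · rw [deriv_nG, deriv_pF, ← hydef]
    simp only [q1, mul_one]
    rcases le_total y R with h2 | h2
    · have n1 : nG L f0 y ≤ tau (1 / R) + 2 * (M2 + 2) / R ^ 3 := by
        have a1 : y / L ≤ 1 / R := by
          rw [hL, div_le_div_iff₀ (by positivity) hR0]; nlinarith
        have a2 : f0 * J (y + 1) ≤ f0 * (2 * R) :=
          mul_le_mul_of_nonneg_left (by linarith) hf00.le
        have a3 : f0 * (2 * R) = 2 * (M2 + 2) / R ^ 3 := by rw [hf0]; field_simp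
        have a4 := tau_mono a1
        simp only [nG]; linarith
      have n2 : Real.exp (2 * nG L f0 y) ≤ Real.exp (2 * (tau (1 / R) + 2 * (M2 + 2) / R ^ 3)) :=
        Real.exp_le_exp.mpr (by linarith)
      have n3 : 0 ≤ 4 * Real.exp (4 + y) * (f0 - f0 ^ 2 - M2 / L ^ 2) := by
        have : 0 ≤ f0 - f0 ^ 2 - M2 / L ^ 2 := by linarith
        positivity
      linarith
    · have n1 : nG L f0 y ≤ 1 + 3 * (M2 + 2) / R ^ 2 := by
        have a2 : f0 * J (y + 1) ≤ f0 * (3 * L) :=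
          mul_le_mul_of_nonneg_left (by linarith) hf00.le
        have a3 : f0 * (3 * L) = 3 * (M2 + 2) / R ^ 2 := by rw [hf0, hL]; field_simp
        have a4 := tau_le_one (y / L)
        simp only [nG]; linarith
      have n2 : Real.exp (2 * nG L f0 y) ≤ Real.exp (2 * (1 + 3 * (M2 + 2) / R ^ 2)) :=
        Real.exp_le_exp.mpr (by linarith)
      have n3 : Real.exp (4 + R) ≤ Real.exp (4 + y) := Real.exp_le_exp.mpr (by linarith)
      have n4 : Real.exp (4 + R) * (1 / R ^ 4) ≤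
          Real.exp (4 + y) * (f0 - f0 ^ 2 - M2 / L ^ 2) :=
        mul_le_mul n3 hkey h1R.le (Real.exp_pos _).le
      linarith

theorem good_tail {M1 R : ℝ} (hM1 : 0 ≤ M1) (b1 : ∀ x, deriv tau x ≤ M1)
    (hc : TailCond M1 R) {e Q : ℝ} (he : 0 ≤ e) (hQ : 0 ≤ Q) (hP : 0 < Q + e) :
    Good (fun Q => nT (R ^ 2) (yy e Q)) (fun Q => pF ((M1 / 2 + 2) / R ^ 2) (yy e Q)) Q := by
  have hR := hc.one
  have hR0 : 0 < R := by linarith
  have hbig := hc.big
  have hsmall := hc.small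
  have d2 := hc.d2
  have d3 := hc.d3
  have d4 := hc.d4
  set L := R ^ 2 with hL
  have hL0 : 0 < L := by positivity
  have hL1 : 1 ≤ L := one_le_pow₀ hR
  set f0 := (M1 / 2 + 2) / L with hf0
  have hf00 : 0 < f0 := by positivity
  have hkey : 1 / L ≤ f0 - f0 ^ 2 - M1 / L / 2 := by
    have h1 : f0 ^ 2 = (M1 / 2 + 2) ^ 2 / L / L := by rw [hf0]; field_simp
    have h2 : (M1 / 2 + 2) ^ 2 / L ≤ 1 := by
      rw [div_le_one (by positivity)]
      exact hbig
    have h3 : (M1 / 2 + 2) ^ 2 / L / L ≤ 1 / L := by gcongr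
    have h5 : f0 - M1 / L / 2 = 2 / L := by rw [hf0]; ring
    have h6 : (2:ℝ) / L = 1 / L + 1 / L := by ring
    rw [h1]; linarith
  have h1R : 0 < 1 / L := by positivity
  set y := yy e Q with hydef
  rcases le_total y (-1) with h | h
  · -- nothing happens
    have q1 : tau (y + 1) = 0 := tau_zero (by linarith)
    have q2 : y / L ≤ 0 := div_nonpos_of_nonpos_of_nonneg (by linarith) hL0.le
    refine good_of (contDiff_nT _) (contDiff_pF _) (m := 0) he hQ hP ?_ ?_ le_rfl ?_ ?_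
    · rw [deriv_nT hL0.ne', ← hydef]; simp only [tau_zero q2]; simp
    · rw [deriv_pF, ← hydef]; simp only [q1]; simp
    · rw [deriv2_nT hL0.ne', deriv2_pF, ← hydef, dtau_le q2,
        dtau_le (show y + 1 ≤ 0 by linarith)]; simp
    · rw [deriv_nT hL0.ne', deriv_pF, ← hydef]
      simp only [q1, nT, tau_zero q2, J_zero q2]
      norm_num
  rcases le_total y 0 with h' | h'
  · have q2 : y / L ≤ 0 := div_nonpos_of_nonpos_of_nonneg h' hL0.le
    have q3 : f0 * tau (y + 1) ≤ f0 := mul_le_of_le_one_right hf00.le (tau_le_one _)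
    have q4 : 0 ≤ f0 * tau (y + 1) := mul_nonneg hf00.le (tau_nonneg _)
    refine good_of (contDiff_nT _) (contDiff_pF _) (m := f0 * M1) he hQ hP ?_ ?_
      (by positivity) ?_ ?_
    · rw [deriv_nT hL0.ne', ← hydef]; simp only [tau_zero q2]; simp
    · rw [deriv_pF, ← hydef]; exact q4
    · rw [deriv2_nT hL0.ne', deriv2_pF, ← hydef, dtau_le q2]
      have := mul_le_mul_of_nonneg_left (b1 (y + 1)) hf00.le
      simp only [zero_div, zero_add]
      linarith
    · rw [deriv_nT hL0.ne', deriv_pF, ← hydef]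
      simp only [tau_zero q2, nT, J_zero q2, mul_zero, zero_div, Real.exp_zero]
      have n3 : Real.exp (4 + y) ≤ Real.exp 4 := Real.exp_le_exp.mpr (by linarith)
      have n5 : (f0 * tau (y + 1)) ^ 2 ≤ f0 ^ 2 := pow_le_pow_left₀ q4 q3 2
      have n4 : -(f0 ^ 2 + f0 * M1) ≤
          f0 * tau (y + 1) - (f0 * tau (y + 1)) ^ 2 - f0 * M1 := by linarith
      have n6 : 4 * Real.exp (4 + y) * (-(f0 ^ 2 + f0 * M1)) ≤ 4 * Real.exp (4 + y) *
          (f0 * tau (y + 1) - (f0 * tau (y + 1)) ^ 2 - f0 * M1) :=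
        mul_le_mul_of_nonneg_left n4 (by positivity)
      have n7 : Real.exp (4 + y) * (f0 ^ 2 + f0 * M1) ≤
          Real.exp 4 * (f0 ^ 2 + f0 * M1) :=
        mul_le_mul_of_nonneg_right n3 (by positivity)
      linarith
  -- now `y ≥ 0`
  have q1 : tau (y + 1) = 1 := tau_one (by linarith)
  have q5 : deriv tau (y + 1) = 0 := dtau_ge (by linarith)
  have q6 : 0 ≤ tau (y / L) := tau_nonneg _
  have q8 : deriv tau (y / L) / L / 2 ≤ M1 / L / 2 := by gcongr; exact b1 _
  have hyL : 0 ≤ y / L := div_nonneg h' hL0.le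
  refine good_of (contDiff_nT _) (contDiff_pF _) (m := M1 / L / 2) he hQ hP ?_ ?_
      (by positivity) ?_ ?_
  · rw [deriv_nT hL0.ne', ← hydef]; simp only; linarith
  · rw [deriv_pF, ← hydef]; simp only [q1]; linarith
  · rw [deriv2_nT hL0.ne', deriv2_pF, ← hydef, q5]; linarith
  · rw [deriv_nT hL0.ne', deriv_pF, ← hydef]
    simp only [q1, mul_one]
    have n0 : 2 * nT L y = L * J (y / L) := by simp only [nT]; ring
    rw [n0]
    rcases le_total y R with h2 | h2
    · have a1 : y / L ≤ 1 / R := by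
        rw [hL, div_le_div_iff₀ (by positivity) hR0]; nlinarith
      have a2 : tau (y / L) ≤ tau (1 / R) := tau_mono a1
      have n1 : L * J (y / L) ≤ R * tau (1 / R) := by
        have a3 : J (y / L) ≤ y / L * tau (y / L) := J_le_mul hyL
        have a4 : y / L * tau (y / L) ≤ 1 / R * tau (1 / R) :=
          mul_le_mul a1 a2 q6 (by positivity)
        have a5 : L * (1 / R * tau (1 / R)) = R * tau (1 / R) := by rw [hL]; field_simp
        rw [← a5]
        exact mul_le_mul_of_nonneg_left (a3.trans a4) hL0.le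
      have n2 : Real.exp (L * J (y / L)) ≤ Real.exp (R * tau (1 / R)) :=
        Real.exp_le_exp.mpr n1
      have n3 : 0 ≤ 4 * Real.exp (4 + y) * (f0 - f0 ^ 2 - M1 / L / 2) := by
        have : 0 ≤ f0 - f0 ^ 2 - M1 / L / 2 := by linarith
        positivity
      linarith
    · have a1 : 1 / R ≤ y / L := by
        rw [hL, div_le_div_iff₀ hR0 (by positivity)]; nlinarith
      have n1 : L * J (y / L) ≤ y - R / 2 := by
        have a3 : J (y / L) ≤ y / L - 1 / R * (1 - tau (1 / R)) :=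
          J_le_sub (by positivity) a1
        have a4 : 1 / R * (1 / 2) ≤ 1 / R * (1 - tau (1 / R)) :=
          mul_le_mul_of_nonneg_left (by linarith) (by positivity)
        have a5 : L * (y / L - 1 / R * (1 / 2)) = y - R / 2 := by rw [hL]; field_simp
        rw [← a5]
        exact mul_le_mul_of_nonneg_left (by linarith) hL0.le
      have n2 : Real.exp (L * J (y / L)) ≤ Real.exp (y - R / 2) := Real.exp_le_exp.mpr n1
      have n2' : Real.exp (y - R / 2) = Real.exp y * Real.exp (-(R / 2)) := by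
        rw [← Real.exp_add]; ring_nf
      have n3 : Real.exp (4 + y) = Real.exp y * Real.exp 4 := by
        rw [← Real.exp_add]; ring_nf
      have n4 : 4 * Real.exp (4 + y) * (1 / L) ≤
          4 * Real.exp (4 + y) * (f0 - f0 ^ 2 - M1 / L / 2) :=
        mul_le_mul_of_nonneg_left hkey (by positivity)
      have n5 : Real.exp (-y) ≤ Real.exp (-R) := Real.exp_le_exp.mpr (by linarith)
      have n6 : Real.exp y * Real.exp (-y) = 1 := by rw [← Real.exp_add]; simp
      -- multiply the condition `d4` by `exp y / L`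
      have n7 : 3 * L * Real.exp (-(R / 2)) + 20 * (M1 / 2 + 2) * Real.exp (-y) ≤
          4 * Real.exp 4 := by
        have : 20 * (M1 / 2 + 2) * Real.exp (-y) ≤ 20 * (M1 / 2 + 2) * Real.exp (-R) :=
          mul_le_mul_of_nonneg_left n5 (by positivity)
        linarith
      have n8 := mul_le_mul_of_nonneg_left n7 (show 0 ≤ Real.exp y * (1 / L) by positivity)
      have n9 : Real.exp y * (1 / L) * (3 * L * Real.exp (-(R / 2)) +
          20 * (M1 / 2 + 2) * Real.exp (-y)) = 3 * (Real.exp y * Real.exp (-(R / 2))) +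
          20 * f0 := by
        have : Real.exp y * (1 / L) * (3 * L * Real.exp (-(R / 2)) +
          20 * (M1 / 2 + 2) * Real.exp (-y)) = 3 * (Real.exp y * Real.exp (-(R / 2))) * (L / L) +
          20 * ((M1 / 2 + 2) / L) * (Real.exp y * Real.exp (-y)) := by ring
        rw [this, n6, div_self hL0.ne', ← hf0]; ring
      rw [n9] at n8
      have n10 : tau (y / L) ≤ 1 := tau_le_one _
      rw [n2'] at n2
      rw [n3] at n4 ⊢
      have n11 : Real.exp y * (1 / L) * (4 * Real.exp 4) = 4 * (Real.exp y * Real.exp 4) *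
        (1 / L) := by ring
      rw [n11] at n8
      linarith

/-- The threshold below which the profiles can be nonzero. -/
theorem yy_le {e Q : ℝ} (he : 0 ≤ e) (hQ : 1 / 16 ≤ Q) : yy e Q ≤ -1 := by
  unfold yy
  have h1 : Real.log (1 / 16) ≤ Real.log (Q + e) := Real.log_le_log (by norm_num) (by linarith)
  have h2 : Real.log (1 / 16) = -(4 * Real.log 2) := by
    rw [show (1:ℝ) / 16 = ((2:ℝ) ^ 4)⁻¹ by norm_num, Real.log_inv, Real.log_pow]; norm_num
  have h3 := Real.log_two_lt_d9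
  linarith

/-- The gap profile. -/
theorem exists_gap : ∃ (N Ψ : ℝ → ℝ) (e : ℝ), 0 < e ∧
    (∀ Q, -e < Q → ContDiffAt ℝ ∞ N Q ∧ ContDiffAt ℝ ∞ Ψ Q) ∧
    (∀ Q, 1 / 16 ≤ Q → N Q = 0 ∧ Ψ Q = 0) ∧
    (∀ Q, 0 ≤ Q → Q < e → N Q = Ψ Q + 1) ∧
    (∀ Q, 0 ≤ N Q ∧ 0 ≤ Ψ Q) ∧ (∀ Q, 0 ≤ Q → Good N Ψ Q) := by
  obtain ⟨M1, hM1, b1⟩ := exists_M1
  obtain ⟨M2, hM2, b2⟩ := exists_M2
  obtain ⟨R, hc⟩ := exists_gapCond M1 M2
  have hR := hc.one
  have hR0 : 0 < R := by linarith
  have hL0 : 0 < R ^ 2 := by positivity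
  have hf0 : 0 ≤ (M2 + 2) / R ^ 4 := by positivity
  refine ⟨fun Q => nG (R ^ 2) ((M2 + 2) / R ^ 4) (yy (Real.exp (-5 - R ^ 2)) Q),
    fun Q => pF ((M2 + 2) / R ^ 4) (yy (Real.exp (-5 - R ^ 2)) Q), Real.exp (-5 - R ^ 2),
    Real.exp_pos _, ?_, ?_, ?_, ?_, ?_⟩
  · intro Q hQ
    exact ⟨contDiffAt_comp_yy (contDiff_nG _ _) (by linarith),
      contDiffAt_comp_yy (contDiff_pF _) (by linarith)⟩
  · intro Q hQ
    have h1 := yy_le (e := Real.exp (-5 - R ^ 2)) (Real.exp_pos _).le hQ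
    have h2 : J (yy (Real.exp (-5 - R ^ 2)) Q + 1) = 0 := J_zero (by linarith)
    have h3 : tau (yy (Real.exp (-5 - R ^ 2)) Q / R ^ 2) = 0 :=
      tau_zero (div_nonpos_of_nonpos_of_nonneg (by linarith) hL0.le)
    simp only [nG, pF, h2, h3]
    norm_num
  · intro Q hQ0 hQ
    have h1 : R ^ 2 ≤ yy (Real.exp (-5 - R ^ 2)) Q := by
      unfold yy
      have e1 : Q + Real.exp (-5 - R ^ 2) ≤ Real.exp 1 * Real.exp (-5 - R ^ 2) := by
        have := Real.add_one_le_exp (1:ℝ)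
        nlinarith [Real.exp_pos (-5 - R ^ 2)]
      have e2 : 0 < Q + Real.exp (-5 - R ^ 2) := by positivity
      have e3 := Real.log_le_log e2 e1
      rw [← Real.exp_add, Real.log_exp] at e3
      linarith
    have h3 : tau (yy (Real.exp (-5 - R ^ 2)) Q / R ^ 2) = 1 :=
      tau_one ((one_le_div hL0).mpr h1)
    simp only [nG, pF, h3]
    ring
  · intro Q
    constructor
    · simp only [nG]
      exact add_nonneg (tau_nonneg _) (mul_nonneg hf0 (J_nonneg _))
    · simp only [pF]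
      exact mul_nonneg hf0 (J_nonneg _)
  · intro Q hQ
    have hP : 0 < Q + Real.exp (-5 - R ^ 2) := by positivity
    refine good_gap hM1 hM2 b1 b2 hc (Real.exp_pos _).le hQ hP ?_
    unfold yy
    have e3 := Real.log_le_log (Real.exp_pos (-5 - R ^ 2))
      (show Real.exp (-5 - R ^ 2) ≤ Q + Real.exp (-5 - R ^ 2) by linarith)
    rw [Real.log_exp] at e3
    linarith

/-- The tail profile. -/
theorem exists_tail : ∃ (N Ψ : ℝ → ℝ),
    (∀ Q, 0 < Q → ContDiffAt ℝ ∞ N Q ∧ ContDiffAt ℝ ∞ Ψ Q) ∧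
    (∀ Q, 1 / 16 ≤ Q → N Q = 0 ∧ Ψ Q = 0) ∧
    (∀ Q, 0 ≤ N Q ∧ 0 ≤ Ψ Q) ∧ (∀ Q, 0 < Q → Good N Ψ Q) ∧
    ∃ c, 0 < c ∧ ∀ Q, 0 < Q → c / Q ≤ Real.exp (2 * N Q) := by
  obtain ⟨M1, hM1, b1⟩ := exists_M1
  obtain ⟨R, hc⟩ := exists_tailCond M1
  have hR := hc.one
  have hR0 : 0 < R := by linarith
  have hL0 : 0 < R ^ 2 := by positivity
  have hf0 : 0 ≤ (M1 / 2 + 2) / R ^ 2 := by positivity
  refine ⟨fun Q => nT (R ^ 2) (yy 0 Q), fun Q => pF ((M1 / 2 + 2) / R ^ 2) (yy 0 Q),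
    ?_, ?_, ?_, ?_, Real.exp (-4 - R ^ 2), Real.exp_pos _, ?_⟩
  · intro Q hQ
    exact ⟨contDiffAt_comp_yy (contDiff_nT _) (by linarith),
      contDiffAt_comp_yy (contDiff_pF _) (by linarith)⟩
  · intro Q hQ
    have h1 := yy_le (e := 0) le_rfl hQ
    have h2 : J (yy 0 Q + 1) = 0 := J_zero (by linarith)
    have h3 : J (yy 0 Q / R ^ 2) = 0 :=
      J_zero (div_nonpos_of_nonpos_of_nonneg (by linarith) hL0.le)
    simp only [nT, pF, h2, h3]
    norm_num
  · intro Q
    constructor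
    · simp only [nT]
      exact mul_nonneg (by positivity) (J_nonneg _)
    · simp only [pF]
      exact mul_nonneg hf0 (J_nonneg _)
  · intro Q hQ
    exact good_tail hM1 b1 hc le_rfl hQ.le (by linarith)
  · intro Q hQ
    have h1 := le_J (yy 0 Q / R ^ 2)
    have h2 : yy 0 Q - R ^ 2 ≤ 2 * nT (R ^ 2) (yy 0 Q) := by
      have a1 : R ^ 2 * (yy 0 Q / R ^ 2 - 1) ≤ R ^ 2 * J (yy 0 Q / R ^ 2) :=
        mul_le_mul_of_nonneg_left h1 hL0.le
      have a2 : R ^ 2 * (yy 0 Q / R ^ 2 - 1) = yy 0 Q - R ^ 2 := by field_simp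
      simp only [nT]
      linarith
    have h3 : Real.exp (-4 - R ^ 2) / Q = Real.exp (yy 0 Q - R ^ 2) := by
      have a1 := exp_yy (e := 0) (Q := Q) (by linarith)
      rw [add_zero] at a1
      have a2 : yy 0 Q - R ^ 2 = (4 + yy 0 Q) + (-4 - R ^ 2) := by ring
      rw [a2, Real.exp_add, a1]; ring
    rw [h3]
    exact Real.exp_le_exp.mpr h2

end
end Pool.Agent.P598
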