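import Pool.Agent.P598.Final

/-!
# Sanity check: the round metric has scalar curvature six
-/

open scoped ContDiff Topology
open Set Filter
namespace Pool.Agent.P598
noncomputable section

/-- the round metric as a matrix field -/
def roundG : BilinField := fun _ i j => if i = j then 1 else 0

theorem form_round (p u v : E4) : form roundG p u v = inner ℝ u v := by
  unfold form roundG
  simp [PiLp.inner_apply, Fin.sum_univ_four]
  ring

/-- logarithms of the coefficients of the round metric in Hopf coordinates -/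
def fR : Fin 3 → V3 → ℝ :=
  ![fun z => zf (z 0) + zf (QH 1 z), fun z => Real.log (Real.cos (z 0)) + zf (QH 1 z),
    fun z => Real.log (Real.sin (z 0)) + zf (QH 1 z)]

theorem deriv2_logcos {r : ℝ} (h : Real.cos r ≠ 0) :
    deriv (deriv (fun r => Real.log (Real.cos r))) r = -(1 / Real.cos r ^ 2) := by
  have hev : deriv (fun r => Real.log (Real.cos r)) =ᶠ[𝓝 r]
      fun r => -(Real.sin r / Real.cos r) := by
    filter_upwards [Real.continuous_cos.continuousAt.eventually_ne h] with z hz
    rw [((Real.hasDerivAt_cos z).log hz).deriv]; ring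
  rw [hev.deriv_eq]
  have h1 := ((Real.hasDerivAt_sin r).fun_div (Real.hasDerivAt_cos r) h).fun_neg
  rw [h1.deriv]
  have := Real.sin_sq_add_cos_sq r
  field_simp
  linarith

theorem deriv2_logsin {r : ℝ} (h : Real.sin r ≠ 0) :
    deriv (deriv (fun r => Real.log (Real.sin r))) r = -(1 / Real.sin r ^ 2) := by
  have hev : deriv (fun r => Real.log (Real.sin r)) =ᶠ[𝓝 r]
      fun r => Real.cos r / Real.sin r := by
    filter_upwards [Real.continuous_sin.continuousAt.eventually_ne h] with z hz
    rw [((Real.hasDerivAt_sin z).log hz).deriv]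
  rw [hev.deriv_eq]
  have h1 := (Real.hasDerivAt_cos r).fun_div (Real.hasDerivAt_sin r) h
  rw [h1.deriv]
  have := Real.sin_sq_add_cos_sq r
  field_simp
  linarith

/-- The unit 3-sphere has scalar curvature `6` (at the points of the Hopf chart). -/
theorem scalarCurvature_round {x : V3} (hs : 0 < Real.sin (x 0)) (hc : 0 < Real.cos (x 0)) :
    scalarCurvature (pullbackMatrix roundG HH) x = 6 := by
  have hcosA : ContDiffAt ℝ 2 (fun r => Real.log (Real.cos r)) (x 0) :=
    Real.contDiff_cos.contDiffAt.log hc.ne'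
  have hsinA : ContDiffAt ℝ 2 (fun r => Real.log (Real.sin r)) (x 0) :=
    Real.contDiff_sin.contDiffAt.log hs.ne'
  have hz := contDiffAt_zf (QH 1 x)
  have e : pullbackMatrix roundG HH =ᶠ[𝓝 x] dg fR := by
    have c1 : ∀ᶠ z : V3 in 𝓝 x, 0 < Real.sin (z 0) :=
      (contDiff_sinc 0 0).continuous.continuousAt.eventually (Ioi_mem_nhds hs)
    have c2 : ∀ᶠ z : V3 in 𝓝 x, 0 < Real.cos (z 0) :=
      (contDiff_cosc 0 0).continuous.continuousAt.eventually (Ioi_mem_nhds hc)
    filter_upwards [c1, c2] with z h1 h2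
    funext i j
    rw [dg_apply]
    unfold pullbackMatrix form roundG coordVec
    have e0 : Real.exp (2 * fR 0 z) = 1 := by simp [fR, zf]
    have e1 : Real.exp (2 * fR 1 z) = Real.cos (z 0) ^ 2 := by
      simp only [fR, zf, Matrix.cons_val_one, Matrix.cons_val_zero, add_zero]
      rw [two_mul, Real.exp_add, Real.exp_log h2]; ring
    have e2 : Real.exp (2 * fR 2 z) = Real.sin (z 0) ^ 2 := by
      simp only [fR, zf, Matrix.cons_val, add_zero]
      rw [two_mul, Real.exp_add, Real.exp_log h1]; ring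
    have hd := fun i k => dHH z i k
    simp only [Fin.sum_univ_four, hd]
    have q0 := Real.sin_sq_add_cos_sq (z 0)
    have q1 := Real.sin_sq_add_cos_sq (z 1)
    have q2 := Real.sin_sq_add_cos_sq (z 2)
    fin_cases i <;> fin_cases j <;> simp
    · rw [e0]
      linear_combination (Real.cos (z 0) ^ 2) * q2 + (Real.sin (z 0) ^ 2) * q1 + q0
    · ring
    · ring
    · ring
    · rw [e1]
      linear_combination (Real.cos (z 0) ^ 2) * q1
    · ring
    · rw [e2]
      linear_combination (Real.sin (z 0) ^ 2) * q2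
  rw [scalarCurvature_congr e]
  have hf : ∀ i, ContDiffAt ℝ 2 (fR i) x := by
    intro i
    fin_cases i
    · exact contDiffAt_mix (contDiffAt_zf _) hz
    · exact contDiffAt_mix hcosA hz
    · exact contDiffAt_mix hsinA hz
  have h2 : ∀ i, ∀ᶠ y in 𝓝 x, pd 2 (fR i) y = 0 := by
    intro i
    fin_cases i
    · exact pd2_mix (contDiffAt_zf _) hz
    · exact pd2_mix hcosA hz
    · exact pd2_mix hsinA hz
  rw [scalarCurvature_dg hf h2]
  have dz : DifferentiableAt ℝ zf (QH 1 x) := hz.differentiableAt (by norm_num)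
  have a0 := fun i => pd_mix (A := zf) (h := zf) (s := 1) (y := x)
    ((contDiffAt_zf (x 0)).differentiableAt (by norm_num)) dz i
  have a1 := fun i => pd_mix (A := fun r => Real.log (Real.cos r)) (h := zf) (s := 1) (y := x)
    (hcosA.differentiableAt (by norm_num)) dz i
  have a2 := fun i => pd_mix (A := fun r => Real.log (Real.sin r)) (h := zf) (s := 1) (y := x)
    (hsinA.differentiableAt (by norm_num)) dz i
  obtain ⟨b0, c0⟩ := pd_pd_mix (A := zf) (h := zf) (s := 1) (x := x) (contDiffAt_zf _) hz
  obtain ⟨b1, c1⟩ := pd_pd_mix (A := fun r => Real.log (Real.cos r)) (h := zf) (s := 1) (x := x)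
    hcosA hz
  obtain ⟨b2, c2⟩ := pd_pd_mix (A := fun r => Real.log (Real.sin r)) (h := zf) (s := 1) (x := x)
    hsinA hz
  have q0 : fR 0 = fun z => zf (z 0) + zf (QH 1 z) := rfl
  have q1 : fR 1 = fun z => Real.log (Real.cos (z 0)) + zf (QH 1 z) := rfl
  have q2 : fR 2 = fun z => Real.log (Real.sin (z 0)) + zf (QH 1 z) := rfl
  rw [q0, q1, q2, b1, b2, c0, c2, a0, a0, a1, a1, a2, a2,
    ((Real.hasDerivAt_cos (x 0)).log hc.ne').deriv, ((Real.hasDerivAt_sin (x 0)).log hs.ne').deriv,
    deriv2_logcos hc.ne', deriv2_logsin hs.ne', deriv2_zf, deriv_zf]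
  simp only [deriv_zf]
  simp [zf]
  have hcs := Real.sin_sq_add_cos_sq (x 0)
  field_simp
  linear_combination (-2 * (Real.sin (x 0) ^ 2 + Real.cos (x 0) ^ 2)) * hcs

end
end Pool.Agent.P598
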