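import Mathlib
open scoped ContDiff Topology
open Set Filter
namespace Pool.Agent.P598
noncomputable section

/-- the smooth transition function -/
abbrev tau : ℝ → ℝ := Real.smoothTransition

theorem tau_contDiff : ContDiff ℝ ∞ tau := Real.smoothTransition.contDiff

theorem tau_deriv_contDiff : ContDiff ℝ ∞ (deriv tau) :=
  (contDiff_infty_iff_deriv.mp tau_contDiff).2

theorem tau_deriv2_contDiff : ContDiff ℝ ∞ (deriv (deriv tau)) :=
  (contDiff_infty_iff_deriv.mp tau_deriv_contDiff).2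

theorem tau_zero {x : ℝ} (h : x ≤ 0) : tau x = 0 := Real.smoothTransition.zero_of_nonpos h
theorem tau_one {x : ℝ} (h : 1 ≤ x) : tau x = 1 := Real.smoothTransition.one_of_one_le h
theorem tau_nonneg (x : ℝ) : 0 ≤ tau x := Real.smoothTransition.nonneg x
theorem tau_le_one (x : ℝ) : tau x ≤ 1 := Real.smoothTransition.le_one x
theorem tau_mono : Monotone tau := Real.smoothTransition.monotone
theorem tau_diff : Differentiable ℝ tau := tau_contDiff.differentiable (by simp)
theorem tau_cont : Continuous tau := tau_diff.continuous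
theorem dtau_diff : Differentiable ℝ (deriv tau) := tau_deriv_contDiff.differentiable (by simp)
theorem dtau_cont : Continuous (deriv tau) := dtau_diff.continuous
theorem ddtau_cont : Continuous (deriv (deriv tau)) := tau_deriv2_contDiff.continuous

theorem dtau_nonneg (x : ℝ) : 0 ≤ deriv tau x := tau_mono.deriv_nonneg

theorem dtau_lt {x : ℝ} (h : x < 0) : deriv tau x = 0 := by
  have : tau =ᶠ[𝓝 x] fun _ => 0 := by
    filter_upwards [Iio_mem_nhds h] with y hy using tau_zero (le_of_lt hy)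
  rw [this.deriv_eq]; simp

theorem dtau_gt {x : ℝ} (h : 1 < x) : deriv tau x = 0 := by
  have : tau =ᶠ[𝓝 x] fun _ => 1 := by
    filter_upwards [Ioi_mem_nhds h] with y hy using tau_one (le_of_lt hy)
  rw [this.deriv_eq]; simp

theorem ddtau_lt {x : ℝ} (h : x < 0) : deriv (deriv tau) x = 0 := by
  have : deriv tau =ᶠ[𝓝 x] fun _ => 0 := by
    filter_upwards [Iio_mem_nhds h] with y hy using dtau_lt hy
  rw [this.deriv_eq]; simp

theorem ddtau_gt {x : ℝ} (h : 1 < x) : deriv (deriv tau) x = 0 := by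
  have : deriv tau =ᶠ[𝓝 x] fun _ => 0 := by
    filter_upwards [Ioi_mem_nhds h] with y hy using dtau_gt hy
  rw [this.deriv_eq]; simp

theorem zero_of_le {f : ℝ → ℝ} (hf : Continuous f) {c : ℝ} (h : ∀ x, x < c → f x = 0) {x : ℝ}
    (hx : x ≤ c) : f x = 0 := by
  have h1 : IsClosed {x | f x = 0} := isClosed_eq hf continuous_const
  have h2 : closure (Iio c) ⊆ {x | f x = 0} := h1.closure_subset_iff.mpr fun y hy => h y hy
  rw [closure_Iio] at h2
  exact h2 hx

theorem zero_of_ge {f : ℝ → ℝ} (hf : Continuous f) {c : ℝ} (h : ∀ x, c < x → f x = 0) {x : ℝ}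
    (hx : c ≤ x) : f x = 0 := by
  have h1 : IsClosed {x | f x = 0} := isClosed_eq hf continuous_const
  have h2 : closure (Ioi c) ⊆ {x | f x = 0} := h1.closure_subset_iff.mpr fun y hy => h y hy
  rw [closure_Ioi] at h2
  exact h2 hx

theorem dtau_le {x : ℝ} (h : x ≤ 0) : deriv tau x = 0 := zero_of_le dtau_cont (fun _ => dtau_lt) h
theorem dtau_ge {x : ℝ} (h : 1 ≤ x) : deriv tau x = 0 := zero_of_ge dtau_cont (fun _ => dtau_gt) h
theorem ddtau_le {x : ℝ} (h : x ≤ 0) : deriv (deriv tau) x = 0 :=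
  zero_of_le ddtau_cont (fun _ => ddtau_lt) h
theorem ddtau_ge {x : ℝ} (h : 1 ≤ x) : deriv (deriv tau) x = 0 :=
  zero_of_ge ddtau_cont (fun _ => ddtau_gt) h

theorem exists_bound {f : ℝ → ℝ} (hf : Continuous f) (h0 : ∀ x, x ≤ 0 → f x = 0)
    (h1 : ∀ x, 1 ≤ x → f x = 0) : ∃ M, 0 ≤ M ∧ ∀ x, |f x| ≤ M := by
  obtain ⟨M, hM⟩ := (isCompact_Icc (a := (0:ℝ)) (b := 1)).exists_bound_of_continuousOn
    hf.continuousOn
  refine ⟨max M 0, le_max_right _ _, fun x => ?_⟩
  by_cases hx0 : x ≤ 0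
  · rw [h0 x hx0]; simp
  by_cases hx1 : 1 ≤ x
  · rw [h1 x hx1]; simp
  push Not at hx0 hx1
  exact (hM x ⟨hx0.le, hx1.le⟩).trans (le_max_left _ _)

theorem exists_M1 : ∃ M, 0 ≤ M ∧ ∀ x, deriv tau x ≤ M := by
  obtain ⟨M, h0, h⟩ := exists_bound dtau_cont (fun _ => dtau_le) (fun _ => dtau_ge)
  exact ⟨M, h0, fun x => (le_abs_self _).trans (h x)⟩

theorem exists_M2 : ∃ M, 0 ≤ M ∧ ∀ x, deriv (deriv tau) x ≤ M := by
  obtain ⟨M, h0, h⟩ := exists_bound ddtau_cont (fun _ => ddtau_le) (fun _ => ddtau_ge)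
  exact ⟨M, h0, fun x => (le_abs_self _).trans (h x)⟩

/-- primitive of `tau` -/
def J (u : ℝ) : ℝ := ∫ v in (0:ℝ)..u, tau v

theorem hasDerivAt_J (u : ℝ) : HasDerivAt J (tau u) u :=
  intervalIntegral.integral_hasDerivAt_right (tau_cont.intervalIntegrable _ _)
    (tau_cont.stronglyMeasurableAtFilter _ _) tau_cont.continuousAt

theorem deriv_J : deriv J = tau := by
  funext u; exact (hasDerivAt_J u).deriv

theorem J_contDiff : ContDiff ℝ ∞ J := by
  rw [contDiff_infty_iff_deriv, deriv_J]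
  exact ⟨fun u => (hasDerivAt_J u).differentiableAt, tau_contDiff⟩

theorem J_zero {u : ℝ} (h : u ≤ 0) : J u = 0 := by
  unfold J
  rw [intervalIntegral.integral_of_ge h]
  have : ∫ v in Ioc u 0, tau v = ∫ v in Ioc u 0, (0:ℝ) := by
    refine MeasureTheory.setIntegral_congr_fun measurableSet_Ioc fun v hv => ?_
    exact tau_zero hv.2
  rw [this]; simp

theorem J_mono : Monotone J := monotone_of_deriv_nonneg
  (fun u => (hasDerivAt_J u).differentiableAt) (fun u => by rw [deriv_J]; exact tau_nonneg u)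

theorem J_nonneg (u : ℝ) : 0 ≤ J u := by
  rcases le_total u 0 with h | h
  · rw [J_zero h]
  · rw [← J_zero le_rfl]; exact J_mono h

theorem J_sub_le {x u : ℝ} (h : x ≤ u) : J u - J x ≤ (u - x) := by
  have : Antitone fun z => J z - z := antitone_of_deriv_nonpos
    (fun z => ((hasDerivAt_J z).fun_sub (hasDerivAt_id' z)).differentiableAt)
    (fun z => by
      rw [((hasDerivAt_J z).fun_sub (hasDerivAt_id' z)).deriv]
      linarith [tau_le_one z])
  have := this h
  simp only at this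
  linarith

theorem J_le_mul {u : ℝ} (h : 0 ≤ u) : J u ≤ u * tau u := by
  unfold J
  have : ∫ v in (0:ℝ)..u, tau v ≤ ∫ v in (0:ℝ)..u, tau u :=
    intervalIntegral.integral_mono_on h (tau_cont.intervalIntegrable _ _) (by simp)
      fun v hv => tau_mono hv.2
  simpa using! this

theorem J_le {u : ℝ} (h : 0 ≤ u) : J u ≤ u :=
  (J_le_mul h).trans (mul_le_of_le_one_right h (tau_le_one u))

theorem J_le_sub {x u : ℝ} (h0 : 0 ≤ x) (h : x ≤ u) : J u ≤ u - x * (1 - tau x) := by
  have h1 := J_sub_le h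
  have h2 := J_le_mul h0
  nlinarith

theorem le_J (u : ℝ) : u - 1 ≤ J u := by
  rcases le_total u 1 with h | h
  · linarith [J_nonneg u]
  · have : ∫ v in (1:ℝ)..u, tau v = ∫ v in (1:ℝ)..u, (1:ℝ) := by
      refine intervalIntegral.integral_congr fun v hv => ?_
      rw [uIcc_of_le h] at hv
      exact tau_one hv.1
    have h2 : J u = J 1 + ∫ v in (1:ℝ)..u, tau v := by
      unfold J
      rw [intervalIntegral.integral_add_adjacent_intervals] <;>
      exact tau_cont.intervalIntegrable _ _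
    rw [h2, this]
    simp
    exact J_nonneg 1

end
end Pool.Agent.P598
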